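import Mathlib

/-! Thin shells and Gaussians: `∫_{r ≤ |η| < r + δ} exp(-c |ξ - η|^2) dη` is `O(δ)`. -/

set_option autoImplicit false

open MeasureTheory Real Set Filter Topology
open scoped ENNReal RealInnerProductSpace

namespace Pool.Agent.Helper93.Sph

/-- one dimensional slices of a shell -/
lemma slice_vol (a r δ N : ℝ) (hr : 0 ≤ r) (hδ : 0 ≤ δ) (ha : 0 ≤ a) (hN : 0 ≤ N) :
    volume {t : ℝ | r ^ 2 ≤ t ^ 2 + a ∧ t ^ 2 + a < (r + δ) ^ 2 ∧ t ^ 2 + a ≤ N * t ^ 2}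
      ≤ ENNReal.ofReal (2 * √N * δ) := by
  have key : ∀ t₁ t₂ : ℝ, 0 ≤ t₁ → t₁ ≤ t₂ → r ^ 2 ≤ t₁ ^ 2 + a → t₁ ^ 2 + a ≤ N * t₁ ^ 2 →
      t₂ ^ 2 + a < (r + δ) ^ 2 → t₂ ^ 2 + a ≤ N * t₂ ^ 2 → t₂ - t₁ ≤ √N * δ := by
    intro t₁ t₂ h0 h12 h1 h2 h3 h4
    set R₁ := √(t₁ ^ 2 + a) with hR₁
    set R₂ := √(t₂ ^ 2 + a) with hR₂
    have e1 : R₁ ^ 2 = t₁ ^ 2 + a := Real.sq_sqrt (by positivity)
    have e2 : R₂ ^ 2 = t₂ ^ 2 + a := Real.sq_sqrt (by positivity)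
    have p1 : 0 ≤ R₁ := Real.sqrt_nonneg _
    have p2 : 0 ≤ R₂ := Real.sqrt_nonneg _
    have q1 : r ≤ R₁ := by rw [hR₁]; exact Real.le_sqrt_of_sq_le h1
    have q2 : R₂ < r + δ := by
      rw [hR₂, Real.sqrt_lt' (by nlinarith [sq_nonneg t₂, hr, hδ, sq_nonneg (r + δ)] )]
      exact h3
    have hs : 0 ≤ √N := Real.sqrt_nonneg _
    have u1 : R₁ ≤ √N * t₁ := by
      rw [hR₁, ← Real.sqrt_sq h0, ← Real.sqrt_mul hN]
      exact Real.sqrt_le_sqrt (by simpa [Real.sqrt_sq h0] using h2)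
    have u2 : R₂ ≤ √N * t₂ := by
      have h0' : 0 ≤ t₂ := h0.trans h12
      rw [hR₂, ← Real.sqrt_sq h0', ← Real.sqrt_mul hN]
      exact Real.sqrt_le_sqrt (by simpa [Real.sqrt_sq h0'] using h4)
    have m1 : (t₂ - t₁) * (t₂ + t₁) = (R₂ - R₁) * (R₂ + R₁) := by nlinarith
    have m2 : (R₂ - R₁) * (R₂ + R₁) ≤ δ * (√N * (t₂ + t₁)) := by
      have : R₂ - R₁ ≤ δ := by linarith
      have h5 : R₂ + R₁ ≤ √N * (t₂ + t₁) := by nlinarith
      calc (R₂ - R₁) * (R₂ + R₁) ≤ δ * (R₂ + R₁) :=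
            mul_le_mul_of_nonneg_right this (by positivity)
        _ ≤ _ := mul_le_mul_of_nonneg_left h5 hδ
    rcases eq_or_lt_of_le (show 0 ≤ t₂ + t₁ by linarith) with h | h
    · have : t₂ = 0 := by linarith
      have : t₁ = 0 := by linarith
      have : 0 ≤ √N * δ := by positivity
      linarith
    · have : (t₂ - t₁) * (t₂ + t₁) ≤ (√N * δ) * (t₂ + t₁) := by rw [m1]; linarith
      exact le_of_mul_le_mul_right this h
  set A : Set ℝ := {t : ℝ | r ^ 2 ≤ t ^ 2 + a ∧ t ^ 2 + a < (r + δ) ^ 2 ∧ t ^ 2 + a ≤ N * t ^ 2}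
  have hd : 0 ≤ √N * δ := by positivity
  have hA : A ⊆ (A ∩ Ici 0) ∪ (A ∩ Iic 0) := by
    intro t ht
    rcases le_total 0 t with h | h
    · exact Or.inl ⟨ht, h⟩
    · exact Or.inr ⟨ht, h⟩
  have hp : volume (A ∩ Ici 0) ≤ ENNReal.ofReal (√N * δ) := by
    refine (Real.volume_le_diam _).trans (Metric.ediam_le fun x hx y hy => ?_)
    rw [edist_dist, Real.dist_eq]
    refine ENNReal.ofReal_le_ofReal ?_
    obtain ⟨⟨x1, x2, x3⟩, x0⟩ := hx
    obtain ⟨⟨y1, y2, y3⟩, y0⟩ := hy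
    rcases le_total x y with h | h
    · rw [abs_sub_comm, abs_of_nonneg (by linarith)]
      exact key x y x0 h x1 x3 y2 y3
    · rw [abs_of_nonneg (by linarith)]
      exact key y x y0 h y1 y3 x2 x3
  have hn : volume (A ∩ Iic 0) ≤ ENNReal.ofReal (√N * δ) := by
    refine (Real.volume_le_diam _).trans (Metric.ediam_le fun x hx y hy => ?_)
    rw [edist_dist, Real.dist_eq]
    refine ENNReal.ofReal_le_ofReal ?_
    obtain ⟨⟨x1, x2, x3⟩, x0⟩ := hx
    obtain ⟨⟨y1, y2, y3⟩, y0⟩ := hy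
    simp only [mem_Iic] at x0 y0
    rcases le_total x y with h | h
    · rw [abs_sub_comm, abs_of_nonneg (by linarith)]
      have := key (-y) (-x) (by linarith) (by linarith) (by simpa using y1) (by simpa using y3)
        (by simpa using x2) (by simpa using x3)
      linarith
    · rw [abs_of_nonneg (by linarith)]
      have := key (-x) (-y) (by linarith) (by linarith) (by simpa using x1) (by simpa using x3)
        (by simpa using y2) (by simpa using y3)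
      linarith
  calc volume A ≤ volume (A ∩ Ici 0) + volume (A ∩ Iic 0) :=
        (measure_mono hA).trans (measure_union_le _ _)
    _ ≤ ENNReal.ofReal (√N * δ) + ENNReal.ofReal (√N * δ) := add_le_add hp hn
    _ = _ := by rw [← ENNReal.ofReal_add hd hd]; congr 1; ring

abbrev En (n : ℕ) := EuclideanSpace ℝ (Fin n)

lemma gauss_lint (n : ℕ) {c : ℝ} (hc : 0 < c) (v : En n) :
    ∫⁻ η : En n, ENNReal.ofReal (rexp (-c * ‖v - η‖ ^ 2))
      = ENNReal.ofReal ((π / c) ^ ((n : ℝ) / 2)) := by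
  have h1 : ∫⁻ η : En n, ENNReal.ofReal (rexp (-c * ‖v - η‖ ^ 2))
      = ∫⁻ η : En n, ENNReal.ofReal (rexp (-c * ‖η‖ ^ 2)) :=
    lintegral_sub_left_eq_self (fun η : En n => ENNReal.ofReal (rexp (-c * ‖η‖ ^ 2))) v
  have hi : Integrable (fun η : En n => rexp (-c * ‖η‖ ^ 2)) := by
    have := GaussianFourier.integrable_cexp_neg_mul_sq_norm_add (V := En n) (b := (c : ℂ))
      (by simpa using hc) 0 0
    have h2 := this.norm
    refine h2.congr (Eventually.of_forall fun η => ?_)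
    simp only [zero_mul, add_zero, Complex.norm_exp]
    congr 1
    have : (-(c:ℂ) * (‖η‖:ℂ) ^ 2) = ((-c * ‖η‖ ^ 2 : ℝ) : ℂ) := by push_cast; ring
    rw [this, Complex.ofReal_re]
  rw [h1, ← ofReal_integral_eq_lintegral_ofReal hi (Eventually.of_forall fun _ => (exp_pos _).le),
    GaussianFourier.integral_rexp_neg_mul_sq_norm hc, finrank_euclideanSpace, Fintype.card_fin]

end Pool.Agent.Helper93.Sph
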