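import Mathlib
import Pool.Agent.Helper93.Sph.A

/-! The integral of a Gaussian over a thin shell. -/

set_option autoImplicit false

open MeasureTheory Real Set Filter Topology
open scoped ENNReal RealInnerProductSpace

namespace Pool.Agent.Helper93.Sph

/-- remaining coordinates -/
noncomputable def rest {m : ℕ} (i : Fin (m + 1)) (η : En (m + 1)) : En m :=
  WithLp.toLp 2 (fun j => η (i.succAbove j))

/-- split off one coordinate -/
noncomputable def spl {m : ℕ} (i : Fin (m + 1)) (η : En (m + 1)) : ℝ × En m := (η i, rest i η)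

lemma spl_mp {m : ℕ} (i : Fin (m + 1)) :
    MeasurePreserving (spl i) (volume : Measure (En (m + 1))) (volume : Measure (ℝ × En m)) := by
  have h1 := PiLp.volume_preserving_ofLp (Fin (m + 1))
  have h2 := volume_preserving_piFinSuccAbove (fun _ : Fin (m + 1) => ℝ) i
  have h3 : MeasurePreserving (Prod.map (id : ℝ → ℝ) (@WithLp.toLp 2 (Fin m → ℝ)))
      (volume : Measure (ℝ × (Fin m → ℝ))) (volume : Measure (ℝ × En m)) :=
    (MeasurePreserving.id (volume : Measure ℝ)).prod (PiLp.volume_preserving_toLp (Fin m))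
  exact h3.comp (h2.comp h1)

lemma norm_sq_spl {m : ℕ} (i : Fin (m + 1)) (η : En (m + 1)) :
    ‖η‖ ^ 2 = (η i) ^ 2 + ‖rest i η‖ ^ 2 := by
  rw [EuclideanSpace.norm_sq_eq, EuclideanSpace.norm_sq_eq, Fin.sum_univ_succAbove _ i]
  simp [rest, sq_abs]

lemma rest_sub {m : ℕ} (i : Fin (m + 1)) (ξ η : En (m + 1)) :
    rest i (ξ - η) = rest i ξ - rest i η := by
  ext j; simp [rest]

/-- the part of the shell where the `i`-th coordinate is large -/
def cone {m : ℕ} (i : Fin (m + 1)) (r δ : ℝ) : Set (En (m + 1)) :=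
  {η | r ^ 2 ≤ ‖η‖ ^ 2 ∧ ‖η‖ ^ 2 < (r + δ) ^ 2 ∧ ‖η‖ ^ 2 ≤ (m + 1) * (η i) ^ 2}

lemma cone_meas {m : ℕ} (i : Fin (m + 1)) (r δ : ℝ) : MeasurableSet (cone i r δ) := by
  have h1 : Measurable fun η : En (m + 1) => ‖η‖ ^ 2 := by fun_prop
  have h2 : Measurable fun η : En (m + 1) => ((m : ℝ) + 1) * (η i) ^ 2 := by
    have : Measurable fun η : En (m + 1) => η i := (EuclideanSpace.proj i).continuous.measurable
    exact (this.pow_const 2).const_mul _
  exact (measurableSet_le measurable_const h1).inter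
    ((measurableSet_lt h1 measurable_const).inter (measurableSet_le h1 h2))

lemma cone_bound {m : ℕ} (i : Fin (m + 1)) {r δ c : ℝ} (hr : 0 ≤ r) (hδ : 0 ≤ δ) (hc : 0 < c)
    (ξ : En (m + 1)) :
    ∫⁻ η in cone i r δ, ENNReal.ofReal (rexp (-c * ‖ξ - η‖ ^ 2))
      ≤ ENNReal.ofReal (2 * √(m + 1) * δ) * ENNReal.ofReal ((π / c) ^ ((m : ℝ) / 2)) := by
  classical
  set F : ℝ × En m → ℝ≥0∞ := fun z =>
    Set.indicator {z : ℝ × En m | r ^ 2 ≤ z.1 ^ 2 + ‖z.2‖ ^ 2 ∧ z.1 ^ 2 + ‖z.2‖ ^ 2 < (r + δ) ^ 2 ∧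
      z.1 ^ 2 + ‖z.2‖ ^ 2 ≤ (m + 1) * z.1 ^ 2}
      (fun z => ENNReal.ofReal (rexp (-c * ((ξ i - z.1) ^ 2 + ‖rest i ξ - z.2‖ ^ 2)))) z with hF
  have hm : MeasurableSet {z : ℝ × En m | r ^ 2 ≤ z.1 ^ 2 + ‖z.2‖ ^ 2 ∧
      z.1 ^ 2 + ‖z.2‖ ^ 2 < (r + δ) ^ 2 ∧ z.1 ^ 2 + ‖z.2‖ ^ 2 ≤ (m + 1) * z.1 ^ 2} := by
    have h1 : Measurable fun z : ℝ × En m => z.1 ^ 2 + ‖z.2‖ ^ 2 := by fun_prop
    have h2 : Measurable fun z : ℝ × En m => ((m:ℝ) + 1) * z.1 ^ 2 := by fun_prop
    exact (measurableSet_le measurable_const h1).inter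
      ((measurableSet_lt h1 measurable_const).inter (measurableSet_le h1 h2))
  have hFm : Measurable F := by
    refine Measurable.indicator ?_ hm
    fun_prop
  have e1 : ∫⁻ η in cone i r δ, ENNReal.ofReal (rexp (-c * ‖ξ - η‖ ^ 2))
      = ∫⁻ η, F (spl i η) := by
    rw [← lintegral_indicator (cone_meas i r δ)]
    refine lintegral_congr fun η => ?_
    rw [hF]
    simp only [spl, Set.indicator, mem_ofPred_eq, cone]
    rw [← norm_sq_spl i η]
    split_ifs with h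
    · have := norm_sq_spl i (ξ - η)
      rw [rest_sub] at this
      rw [this]; rfl
    · rfl
  rw [e1, (spl_mp i).lintegral_comp hFm, Measure.volume_eq_prod, lintegral_prod_symm' _ hFm]
  calc ∫⁻ v : En m, ∫⁻ t : ℝ, F (t, v)
      ≤ ∫⁻ v : En m, ENNReal.ofReal (2 * √(m + 1) * δ) *
          ENNReal.ofReal (rexp (-c * ‖rest i ξ - v‖ ^ 2)) := by
        refine lintegral_mono fun v => ?_
        have h2 : ∀ t : ℝ, F (t, v) ≤ Set.indicator
            {t : ℝ | r ^ 2 ≤ t ^ 2 + ‖v‖ ^ 2 ∧ t ^ 2 + ‖v‖ ^ 2 < (r + δ) ^ 2 ∧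
              t ^ 2 + ‖v‖ ^ 2 ≤ (m + 1) * t ^ 2}
            (fun _ => ENNReal.ofReal (rexp (-c * ‖rest i ξ - v‖ ^ 2))) t := by
          intro t
          rw [hF]
          simp only [Set.indicator, mem_ofPred_eq]
          split_ifs with h
          · refine ENNReal.ofReal_le_ofReal (Real.exp_le_exp.2 ?_)
            nlinarith [sq_nonneg (ξ i - t)]
          · exact le_rfl
        refine (lintegral_mono h2).trans ?_
        rw [lintegral_indicator_const, mul_comm]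
        · gcongr
          exact slice_vol (‖v‖ ^ 2) r δ (m + 1) hr hδ (by positivity) (by positivity)
        · have h1 : Measurable fun t : ℝ => t ^ 2 + ‖v‖ ^ 2 := by fun_prop
          have h2 : Measurable fun t : ℝ => ((m:ℝ) + 1) * t ^ 2 := by fun_prop
          exact (measurableSet_le measurable_const h1).inter
            ((measurableSet_lt h1 measurable_const).inter (measurableSet_le h1 h2))
    _ = _ := by
        rw [lintegral_const_mul' _ _ ENNReal.ofReal_ne_top, gauss_lint m hc]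

/-- the half open shell -/
def shell (n : ℕ) (r s : ℝ) : Set (En n) := {η | r ≤ ‖η‖ ∧ ‖η‖ < s}

lemma shell_meas (n : ℕ) (r s : ℝ) : MeasurableSet (shell n r s) :=
  (measurableSet_le measurable_const measurable_norm).inter
    (measurableSet_lt measurable_norm measurable_const)

lemma shell_sub {m : ℕ} {r δ : ℝ} (hr : 0 ≤ r) :
    shell (m + 1) r (r + δ) ⊆ ⋃ i : Fin (m + 1), cone i r δ := by
  rintro η ⟨h1, h2⟩
  have h3 : ∃ i : Fin (m + 1), ‖η‖ ^ 2 ≤ (m + 1) * (η i) ^ 2 := by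
    by_contra h
    push Not at h
    have h4 : ∑ i : Fin (m + 1), ((m : ℝ) + 1) * (η i) ^ 2 < ∑ i : Fin (m + 1), ‖η‖ ^ 2 :=
      Finset.sum_lt_sum_of_nonempty Finset.univ_nonempty fun i _ => h i
    rw [← Finset.mul_sum, Finset.sum_const, Finset.card_univ, Fintype.card_fin, nsmul_eq_mul,
      EuclideanSpace.norm_sq_eq] at h4
    simp only [Real.norm_eq_abs, sq_abs] at h4
    push_cast at h4
    exact lt_irrefl _ h4
  obtain ⟨i, hi⟩ := h3
  refine mem_iUnion.2 ⟨i, ?_, ?_, hi⟩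
  · exact pow_le_pow_left₀ hr h1 2
  · exact pow_lt_pow_left₀ h2 (norm_nonneg _) two_ne_zero

/-- **Gaussian over a thin shell** -/
lemma shell_bound {m : ℕ} {r δ c : ℝ} (hr : 0 ≤ r) (hδ : 0 ≤ δ) (hc : 0 < c) (ξ : En (m + 1)) :
    ∫⁻ η in shell (m + 1) r (r + δ), ENNReal.ofReal (rexp (-c * ‖ξ - η‖ ^ 2))
      ≤ ENNReal.ofReal (2 * (m + 1) * √(m + 1) * δ * (π / c) ^ ((m : ℝ) / 2)) := by
  refine (lintegral_mono_set (shell_sub hr)).trans ?_
  refine (lintegral_iUnion_le _ _).trans ?_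
  rw [tsum_fintype]
  refine (Finset.sum_le_sum fun i _ => cone_bound i hr hδ hc ξ).trans ?_
  rw [Finset.sum_const, Finset.card_univ, Fintype.card_fin, ← ENNReal.ofReal_mul (by positivity),
    nsmul_eq_mul]
  rw [show ((m + 1 : ℕ) : ℝ≥0∞) = ENNReal.ofReal (m + 1) by
    rw [ENNReal.ofReal_add (by positivity) (by norm_num)]; simp]
  rw [← ENNReal.ofReal_mul (by positivity)]
  refine ENNReal.ofReal_le_ofReal (le_of_eq ?_)
  ring

end Pool.Agent.Helper93.Sph
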