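import Mathlib
import Pool.Agent.Helper93.Sph.B

/-! The local `L²` estimate for functions with Fourier transform in a thin shell. -/

set_option autoImplicit false

open MeasureTheory Real Set Filter Topology
open scoped ENNReal RealInnerProductSpace

namespace Pool.Agent.Helper93.Sph

/-- the Fourier kernel `exp (2 π i x · ξ)` -/
noncomputable def ek {n : ℕ} (x ξ : En n) : ℂ := Complex.exp (2 * π * Complex.I * ((⟪x, ξ⟫ : ℝ) : ℂ))

lemma ek_norm {n : ℕ} (x ξ : En n) : ‖ek x ξ‖ = 1 := by
  rw [ek, show 2 * (π : ℂ) * Complex.I * ((⟪x, ξ⟫ : ℝ) : ℂ) = ((2 * π * ⟪x, ξ⟫ : ℝ) : ℂ) * Complex.I by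
    push_cast; ring]
  exact Complex.norm_exp_ofReal_mul_I _

lemma ek_cont {n : ℕ} : Continuous (fun z : En n × En n => ek z.1 z.2) := by
  unfold ek; fun_prop

lemma ek_mul_conj {n : ℕ} (x ξ η : En n) :
    ek x ξ * (starRingEnd ℂ) (ek x η) = Complex.exp (2 * π * Complex.I * ((⟪ξ - η, x⟫ : ℝ) : ℂ)) := by
  rw [ek, ek, ← Complex.exp_conj, ← Complex.exp_add]
  congr 1
  rw [inner_sub_left, real_inner_comm x ξ, real_inner_comm x η]
  simp only [map_mul, Complex.conj_ofReal, Complex.conj_I, map_ofNat]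
  push_cast
  ring

/-- inverse Fourier integral -/
noncomputable def Fi {n : ℕ} (G : En n → ℂ) (x : En n) : ℂ := ∫ ξ, ek x ξ * G ξ

lemma ek_int {n : ℕ} {G : En n → ℂ} (hG : Integrable G) (x : En n) :
    Integrable (fun ξ => ek x ξ * G ξ) := by
  refine (hG.bdd_mul (c := 1) ?_ ?_)
  · exact (ek_cont.comp (by fun_prop : Continuous fun ξ : En n => (x, ξ))).aestronglyMeasurable
  · exact Eventually.of_forall fun ξ => (ek_norm x ξ).le

lemma Fi_cont {n : ℕ} {G : En n → ℂ} (hG : Integrable G) : Continuous (Fi G) := by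
  refine continuous_of_dominated (bound := fun ξ => ‖G ξ‖) ?_ ?_ hG.norm ?_
  · intro x; exact (ek_int hG x).aestronglyMeasurable
  · intro x; refine Eventually.of_forall fun ξ => ?_
    rw [norm_mul, ek_norm, one_mul]
  · refine Eventually.of_forall fun ξ => ?_
    exact (ek_cont.comp (by fun_prop : Continuous fun x : En n => (x, ξ))).mul continuous_const

lemma gint {n : ℕ} {b : ℝ} (hb : 0 < b) : Integrable (fun x : En n => rexp (-b * ‖x‖ ^ 2)) := by
  have := GaussianFourier.integrable_cexp_neg_mul_sq_norm_add (V := En n) (b := (b : ℂ))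
      (by simpa using hb) 0 0
  refine this.norm.congr (Eventually.of_forall fun η => ?_)
  simp only [zero_mul, add_zero, Complex.norm_exp]
  congr 1
  have : (-(b:ℂ) * (‖η‖:ℂ) ^ 2) = ((-b * ‖η‖ ^ 2 : ℝ) : ℂ) := by push_cast; ring
  rw [this, Complex.ofReal_re]

lemma gauss_ft {n : ℕ} {b : ℝ} (hb : 0 < b) (w : En n) :
    ∫ x : En n, Complex.exp (2 * π * Complex.I * ((⟪w, x⟫ : ℝ) : ℂ)) * ((rexp (-b * ‖x‖ ^ 2) : ℝ) : ℂ)
      = (((π / b) ^ ((n : ℝ) / 2) * rexp (-(π ^ 2 / b) * ‖w‖ ^ 2) : ℝ) : ℂ) := by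
  have h := GaussianFourier.integral_cexp_neg_mul_sq_norm_add (V := En n) (b := (b : ℂ))
    (by simpa using hb) (2 * π * Complex.I) w
  rw [finrank_euclideanSpace, Fintype.card_fin] at h
  have e1 : ∀ x : En n, Complex.exp (2 * π * Complex.I * ((⟪w, x⟫ : ℝ) : ℂ)) *
      ((rexp (-b * ‖x‖ ^ 2) : ℝ) : ℂ) =
      Complex.exp (-(b:ℂ) * (‖x‖:ℂ) ^ 2 + 2 * π * Complex.I * ((⟪w, x⟫ : ℝ) : ℂ)) := by
    intro x
    rw [Complex.ofReal_exp, ← Complex.exp_add]
    congr 1
    push_cast
    ring
  simp_rw [e1]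
  rw [h, Complex.ofReal_mul, Complex.ofReal_cpow (by positivity), Complex.ofReal_exp]
  congr 1
  · push_cast; rfl
  · congr 1
    have hb' : (b : ℂ) ≠ 0 := by exact_mod_cast hb.ne'
    push_cast
    field_simp
    ring_nf
    rw [Complex.I_sq]
    ring

/-- Gaussian pairing -/
lemma pairing {n : ℕ} {b : ℝ} (hb : 0 < b) {G : En n → ℂ} (hG : Integrable G) :
    ∫ x, ‖Fi G x‖ ^ 2 * rexp (-b * ‖x‖ ^ 2) ≤
      ∫ z : En n × En n, ‖G z.1‖ * ‖G z.2‖ *
        ((π / b) ^ ((n : ℝ) / 2) * rexp (-(π ^ 2 / b) * ‖z.1 - z.2‖ ^ 2)) := by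
  set g : En n → ℝ := fun x => rexp (-b * ‖x‖ ^ 2) with hg
  have hgi : Integrable g := gint hb
  -- joint integrand
  set H : En n → En n × En n → ℂ := fun x z =>
    (ek x z.1 * G z.1) * (starRingEnd ℂ) (ek x z.2 * G z.2) * (g x : ℂ) with hH
  have hGG : Integrable (fun z : En n × En n => ‖G z.1‖ * ‖G z.2‖) (volume.prod volume) :=
    hG.norm.mul_prod hG.norm
  have hHm : AEStronglyMeasurable (Function.uncurry H) (volume.prod (volume.prod volume)) := by
    have c1 : AEStronglyMeasurable (fun p : En n × (En n × En n) => ek p.1 p.2.1)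
        (volume.prod (volume.prod volume)) :=
      (ek_cont.comp (by fun_prop : Continuous fun p : En n × (En n × En n) => (p.1, p.2.1))).aestronglyMeasurable
    have c2 : AEStronglyMeasurable (fun p : En n × (En n × En n) => ek p.1 p.2.2)
        (volume.prod (volume.prod volume)) :=
      (ek_cont.comp (by fun_prop : Continuous fun p : En n × (En n × En n) => (p.1, p.2.2))).aestronglyMeasurable
    have q1 : Measure.QuasiMeasurePreserving (fun p : En n × (En n × En n) => p.2.1)
        (volume.prod (volume.prod volume)) volume :=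
      Measure.quasiMeasurePreserving_fst.comp Measure.quasiMeasurePreserving_snd
    have q2 : Measure.QuasiMeasurePreserving (fun p : En n × (En n × En n) => p.2.2)
        (volume.prod (volume.prod volume)) volume :=
      Measure.quasiMeasurePreserving_snd.comp Measure.quasiMeasurePreserving_snd
    have d1 := hG.aestronglyMeasurable.comp_quasiMeasurePreserving q1
    have d2 := hG.aestronglyMeasurable.comp_quasiMeasurePreserving q2
    have d3 : AEStronglyMeasurable (fun p : En n × (En n × En n) => (g p.1 : ℂ))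
        (volume.prod (volume.prod volume)) := by
      have : Continuous (fun p : En n × (En n × En n) => (g p.1 : ℂ)) := by
        rw [hg]; fun_prop
      exact this.aestronglyMeasurable
    exact ((c1.mul d1).mul (Complex.continuous_conj.comp_aestronglyMeasurable (c2.mul d2))).mul d3
  have hHn : ∀ x z, ‖H x z‖ = g x * (‖G z.1‖ * ‖G z.2‖) := by
    intro x z
    rw [hH]
    simp only [norm_mul, RCLike.norm_conj, ek_norm, one_mul, Complex.norm_real, hg,
      Real.norm_of_nonneg (exp_pos _).le]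
    ring
  have hHi : Integrable (Function.uncurry H) (volume.prod (volume.prod volume)) := by
    have h1 : Integrable (fun p : En n × (En n × En n) => g p.1 * (‖G p.2.1‖ * ‖G p.2.2‖))
        (volume.prod (volume.prod volume)) := hgi.mul_prod hGG
    refine h1.mono' hHm (Eventually.of_forall fun p => ?_)
    exact (hHn p.1 p.2).le
  have e1 : ∀ x, ((‖Fi G x‖ ^ 2 * g x : ℝ) : ℂ) = ∫ z : En n × En n, H x z := by
    intro x
    rw [hH]
    simp only
    rw [integral_mul_const, Measure.volume_eq_prod,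
      integral_prod_mul (fun ξ => ek x ξ * G ξ) (fun η => (starRingEnd ℂ) (ek x η * G η)),
      integral_conj]
    change _ = Fi G x * (starRingEnd ℂ) (Fi G x) * _
    rw [Complex.mul_conj, Complex.normSq_eq_norm_sq]
    push_cast
    ring
  have e2 : ((∫ x, ‖Fi G x‖ ^ 2 * g x : ℝ) : ℂ) = ∫ z : En n × En n, ∫ x, H x z := by
    rw [← integral_complex_ofReal]
    simp_rw [e1]
    exact integral_integral_swap hHi
  have e3 : ∀ z : En n × En n, ∫ x, H x z = G z.1 * (starRingEnd ℂ) (G z.2) *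
      (((π / b) ^ ((n : ℝ) / 2) * rexp (-(π ^ 2 / b) * ‖z.1 - z.2‖ ^ 2) : ℝ) : ℂ) := by
    intro z
    rw [← gauss_ft hb, ← integral_const_mul]
    refine integral_congr_ae (Eventually.of_forall fun x => ?_)
    simp only [hH, hg]
    rw [← ek_mul_conj, map_mul]
    ring
  have e4 : ‖((∫ x, ‖Fi G x‖ ^ 2 * g x : ℝ) : ℂ)‖ ≤ ∫ z : En n × En n, ‖G z.1‖ * ‖G z.2‖ *
        ((π / b) ^ ((n : ℝ) / 2) * rexp (-(π ^ 2 / b) * ‖z.1 - z.2‖ ^ 2)) := by
    rw [e2]
    refine (norm_integral_le_integral_norm _).trans (le_of_eq ?_)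
    refine integral_congr_ae (Eventually.of_forall fun z => ?_)
    simp only
    rw [e3, norm_mul, norm_mul, RCLike.norm_conj, Complex.norm_real, Real.norm_of_nonneg
      (by positivity)]
  rw [Complex.norm_real] at e4
  exact (le_abs_self _).trans e4

end Pool.Agent.Helper93.Sph
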