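import Mathlib

/-! Riesz sums of a continuous path along dyadic grids. -/

set_option autoImplicit false

open Filter Topology Finset
open scoped ENNReal

namespace Pool.Agent.Helper93.Sph

/-- Riesz sum along the grid `i / 2 ^ j` -/
noncomputable def gridE (S : ℝ → ℂ) (j : ℕ) : ℝ≥0∞ :=
  ∑' i : ℕ, 2 ^ j * ‖S (((i + 1 : ℕ) : ℝ) / 2 ^ j) - S ((i : ℝ) / 2 ^ j)‖ₑ ^ 2

lemma enorm_add_sq_le (a b : ℂ) : ‖a + b‖ₑ ^ 2 ≤ 2 * (‖a‖ₑ ^ 2 + ‖b‖ₑ ^ 2) := by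
  rw [← ofReal_norm, ← ofReal_norm, ← ofReal_norm, ← ENNReal.ofReal_pow (norm_nonneg _),
    ← ENNReal.ofReal_pow (norm_nonneg _), ← ENNReal.ofReal_pow (norm_nonneg _),
    ← ENNReal.ofReal_add (by positivity) (by positivity),
    show (2 : ℝ≥0∞) = ENNReal.ofReal 2 by simp, ← ENNReal.ofReal_mul (by norm_num)]
  refine ENNReal.ofReal_le_ofReal ?_
  have h := norm_add_le a b
  nlinarith [sq_nonneg (‖a‖ - ‖b‖), norm_nonneg (a + b), norm_nonneg a, norm_nonneg b]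

lemma gridE_mono (S : ℝ → ℂ) : Monotone (gridE S) := by
  refine monotone_nat_of_le_succ fun j => ?_
  set g : ℕ → ℝ≥0∞ := fun i =>
    2 ^ (j + 1) * ‖S (((i + 1 : ℕ) : ℝ) / 2 ^ (j + 1)) - S ((i : ℝ) / 2 ^ (j + 1))‖ₑ ^ 2 with hg
  have h1 : gridE S (j + 1) = ∑' i, g i := rfl
  rw [h1, ← tsum_even_add_odd ENNReal.summable ENNReal.summable, ← ENNReal.tsum_add]
  refine ENNReal.tsum_le_tsum fun i => ?_
  simp only [hg]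
  have e1 : (((i + 1 : ℕ) : ℝ) / 2 ^ j) = ((2 * i + 1 + 1 : ℕ) : ℝ) / 2 ^ (j + 1) := by
    push_cast; field_simp; ring
  have e2 : ((i : ℝ) / 2 ^ j) = ((2 * i : ℕ) : ℝ) / 2 ^ (j + 1) := by
    push_cast; field_simp; ring
  rw [e1, e2]
  set a := S (((2 * i + 1 + 1 : ℕ) : ℝ) / 2 ^ (j + 1))
  set b := S (((2 * i + 1 : ℕ) : ℝ) / 2 ^ (j + 1))
  set c := S (((2 * i : ℕ) : ℝ) / 2 ^ (j + 1))
  have h2 : a - c = (b - c) + (a - b) := by ring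
  calc (2 : ℝ≥0∞) ^ j * ‖a - c‖ₑ ^ 2 ≤ 2 ^ j * (2 * (‖b - c‖ₑ ^ 2 + ‖a - b‖ₑ ^ 2)) := by
        rw [h2]; gcongr; exact enorm_add_sq_le _ _
    _ = _ := by rw [pow_succ]; ring

lemma block_bound (S : ℝ → ℂ) (j : ℕ) {p q : ℕ} (hpq : p ≤ q) :
    ‖S ((q : ℝ) / 2 ^ j) - S ((p : ℝ) / 2 ^ j)‖ₑ ^ 2 / ENNReal.ofReal ((q : ℝ) / 2 ^ j - (p : ℝ) / 2 ^ j)
      ≤ ∑ i ∈ Finset.Ico p q,
        2 ^ j * ‖S (((i + 1 : ℕ) : ℝ) / 2 ^ j) - S ((i : ℝ) / 2 ^ j)‖ₑ ^ 2 := by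
  rcases hpq.eq_or_lt with rfl | hlt
  · simp
  have hpos : (0 : ℝ) < (q : ℝ) / 2 ^ j - (p : ℝ) / 2 ^ j := by
    rw [← sub_div]
    have : (p : ℝ) < q := by exact_mod_cast hlt
    have : (0 : ℝ) < (q : ℝ) - p := by linarith
    positivity
  refine ENNReal.div_le_of_le_mul ?_
  have hsum : S ((q : ℝ) / 2 ^ j) - S ((p : ℝ) / 2 ^ j) =
      ∑ i ∈ Finset.Ico p q, (S (((i + 1 : ℕ) : ℝ) / 2 ^ j) - S ((i : ℝ) / 2 ^ j)) :=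
    (Finset.sum_Ico_sub (fun i : ℕ => S ((i : ℝ) / 2 ^ j)) hpq).symm
  have hreal : ‖S ((q : ℝ) / 2 ^ j) - S ((p : ℝ) / 2 ^ j)‖ ^ 2 ≤
      (∑ i ∈ Finset.Ico p q, 2 ^ j * ‖S (((i + 1 : ℕ) : ℝ) / 2 ^ j) - S ((i : ℝ) / 2 ^ j)‖ ^ 2) *
        ((q : ℝ) / 2 ^ j - (p : ℝ) / 2 ^ j) := by
    have h1 : ‖S ((q : ℝ) / 2 ^ j) - S ((p : ℝ) / 2 ^ j)‖ ≤
        ∑ i ∈ Finset.Ico p q, ‖S (((i + 1 : ℕ) : ℝ) / 2 ^ j) - S ((i : ℝ) / 2 ^ j)‖ := by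
      rw [hsum]; exact norm_sum_le _ _
    have h2 := sq_sum_le_card_mul_sum_sq (s := Finset.Ico p q)
      (f := fun i : ℕ => ‖S (((i + 1 : ℕ) : ℝ) / 2 ^ j) - S ((i : ℝ) / 2 ^ j)‖)
    rw [Nat.card_Ico] at h2
    refine (pow_le_pow_left₀ (norm_nonneg _) h1 2).trans (h2.trans (le_of_eq ?_))
    rw [Nat.cast_sub hpq, ← Finset.mul_sum]
    field_simp
  have h3 := ENNReal.ofReal_le_ofReal hreal
  rw [ENNReal.ofReal_pow (norm_nonneg _), ofReal_norm, ENNReal.ofReal_mul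
    (Finset.sum_nonneg fun i _ => by positivity), ENNReal.ofReal_sum_of_nonneg
    (fun i _ => by positivity)] at h3
  refine h3.trans (le_of_eq ?_)
  congr 1
  refine Finset.sum_congr rfl fun i _ => ?_
  rw [ENNReal.ofReal_mul (by positivity), ENNReal.ofReal_pow (norm_nonneg _), ofReal_norm,
    ENNReal.ofReal_pow (by norm_num)]
  simp

/-- the partition bound for grid points -/
lemma grid_partition (S : ℝ → ℂ) (j : ℕ) (p : ℕ → ℕ) (hp : Monotone p) (N : ℕ) :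
    ∑ i ∈ Finset.range N, ‖S ((p (i + 1) : ℝ) / 2 ^ j) - S ((p i : ℝ) / 2 ^ j)‖ₑ ^ 2 /
        ENNReal.ofReal ((p (i + 1) : ℝ) / 2 ^ j - (p i : ℝ) / 2 ^ j)
      ≤ gridE S j := by
  refine (Finset.sum_le_sum fun i _ => block_bound S j (hp (Nat.le_succ i))).trans ?_
  have h : ∀ M : ℕ, ∑ i ∈ Finset.range M, ∑ l ∈ Finset.Ico (p i) (p (i + 1)),
      (2 : ℝ≥0∞) ^ j * ‖S (((l + 1 : ℕ) : ℝ) / 2 ^ j) - S ((l : ℝ) / 2 ^ j)‖ₑ ^ 2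
      = ∑ l ∈ Finset.Ico (p 0) (p M),
      (2 : ℝ≥0∞) ^ j * ‖S (((l + 1 : ℕ) : ℝ) / 2 ^ j) - S ((l : ℝ) / 2 ^ j)‖ₑ ^ 2 := by
    intro M
    induction M with
    | zero => simp
    | succ M ih =>
      rw [Finset.sum_range_succ, ih, Finset.sum_Ico_consecutive _ (hp (Nat.zero_le M))
        (hp (Nat.le_succ M))]
  simp only [Nat.succ_eq_add_one]
  rw [h N]
  exact ENNReal.sum_le_tsum _

lemma dyad_tendsto {t : ℝ} (ht : 0 ≤ t) :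
    Tendsto (fun j : ℕ => (⌊t * 2 ^ j⌋₊ : ℝ) / 2 ^ j) atTop (𝓝 t) :=
  (tendsto_nat_floor_mul_div_atTop ht).comp (tendsto_pow_atTop_atTop_of_one_lt one_lt_two)

/-- **the partition bound** -/
theorem partition_bound {S : ℝ → ℂ} (hS : Continuous S) (R : ℕ → ℝ) (hR : Monotone R)
    (h0 : 0 ≤ R 0) (N : ℕ) :
    ∑ i ∈ Finset.range N, ‖S (R (i + 1)) - S (R i)‖ₑ ^ 2 / ENNReal.ofReal (R (i + 1) - R i)
      ≤ ⨆ j, gridE S j := by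
  have hRn : ∀ i, 0 ≤ R i := fun i => h0.trans (hR (Nat.zero_le i))
  have hd : ∀ i, Tendsto (fun j : ℕ => (⌊R i * 2 ^ j⌋₊ : ℝ) / 2 ^ j) atTop (𝓝 (R i)) :=
    fun i => dyad_tendsto (hRn i)
  have hlim : Tendsto (fun j : ℕ => ∑ i ∈ Finset.range N,
      ‖S ((⌊R (i + 1) * 2 ^ j⌋₊ : ℝ) / 2 ^ j) - S ((⌊R i * 2 ^ j⌋₊ : ℝ) / 2 ^ j)‖ₑ ^ 2 /
        ENNReal.ofReal ((⌊R (i + 1) * 2 ^ j⌋₊ : ℝ) / 2 ^ j - (⌊R i * 2 ^ j⌋₊ : ℝ) / 2 ^ j)) atTop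
      (𝓝 (∑ i ∈ Finset.range N, ‖S (R (i + 1)) - S (R i)‖ₑ ^ 2 /
        ENNReal.ofReal (R (i + 1) - R i))) := by
    refine tendsto_finsetSum _ fun i _ => ?_
    rcases (hR (Nat.le_succ i)).eq_or_lt with he | hl
    · rw [Nat.succ_eq_add_one] at he
      simp only [he, sub_self, enorm_zero]
      simp
    · rw [Nat.succ_eq_add_one] at hl
      have hpos : 0 < R (i + 1) - R i := by linarith
      refine ENNReal.Tendsto.div ?_ ?_ ?_ ?_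
      · have h1 : Tendsto (fun j : ℕ => S ((⌊R (i + 1) * 2 ^ j⌋₊ : ℝ) / 2 ^ j) -
            S ((⌊R i * 2 ^ j⌋₊ : ℝ) / 2 ^ j)) atTop (𝓝 (S (R (i + 1)) - S (R i))) :=
          ((hS.tendsto _).comp (hd (i + 1))).sub ((hS.tendsto _).comp (hd i))
        exact ENNReal.Tendsto.pow h1.enorm
      · exact Or.inr (by simpa using hpos)
      · exact ENNReal.tendsto_ofReal ((hd (i + 1)).sub (hd i))
      · exact Or.inl ENNReal.ofReal_ne_top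
  refine le_of_tendsto' hlim fun j => ?_
  refine (grid_partition S j (fun i => ⌊R i * 2 ^ j⌋₊) ?_ N).trans (le_iSup (gridE S) j)
  intro a b hab
  exact Nat.floor_mono (mul_le_mul_of_nonneg_right (hR hab) (by positivity))

end Pool.Agent.Helper93.Sph
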