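import Mathlib
import Pool.Agent.Helper93.Sph.D
import Pool.Agent.Helper93.Sph.E

/-! Riesz sums of the spherical partial sums, local `L²` bound. -/

set_option autoImplicit false

open MeasureTheory Real Set Filter Topology
open scoped ENNReal RealInnerProductSpace

namespace Pool.Agent.Helper93.Sph

/-- ball partial sums of the inverse Fourier integral of `G` -/
noncomputable def ps {n : ℕ} (G : En n → ℂ) (R : ℝ) (x : En n) : ℂ :=
  ∫ ξ in Metric.closedBall (0 : En n) R, ek x ξ * G ξ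

lemma ps_eq {m : ℕ} (G : En (m + 1) → ℂ) (R : ℝ) (x : En (m + 1)) :
    ps G R x = Fi ((shell (m + 1) 0 R).indicator G) x := by
  have h1 : (Metric.closedBall (0 : En (m + 1)) R : Set (En (m + 1))) =ᵐ[volume]
      shell (m + 1) 0 R := by
    have h2 : shell (m + 1) 0 R = Metric.closedBall (0 : En (m + 1)) R \ Metric.sphere 0 R := by
      ext ξ
      simp only [shell, mem_ofPred_eq, norm_nonneg, true_and, Set.mem_sdiff, Metric.mem_closedBall,
        dist_zero_right, Metric.mem_sphere]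
      constructor
      · intro h; exact ⟨h.le, h.ne⟩
      · rintro ⟨h, h'⟩; exact lt_of_le_of_ne h h'
    rw [h2]
    exact (sdiff_null_ae_eq_self (Measure.addHaar_sphere volume (0 : En (m + 1)) R)).symm
  rw [ps, setIntegral_congr_set h1, ← integral_indicator (shell_meas _ _ _), Fi]
  refine integral_congr_ae (Eventually.of_forall fun ξ => ?_)
  by_cases h : ξ ∈ shell (m + 1) 0 R
  · simp only [indicator_of_mem h]
  · simp only [indicator_of_notMem h, mul_zero]

lemma ps_sub {m : ℕ} {G : En (m + 1) → ℂ} (hG : MemLp G 2) {R R' : ℝ} (h0 : 0 ≤ R) (h : R ≤ R')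
    (x : En (m + 1)) :
    ps G R' x - ps G R x = Fi ((shell (m + 1) R R').indicator G) x := by
  rw [ps_eq, ps_eq, Fi, Fi, ← integral_sub (ek_int (ind_int hG _ _) x)
    (ek_int (ind_int hG _ _) x), Fi]
  refine integral_congr_ae (Eventually.of_forall fun ξ => ?_)
  simp only
  by_cases h1 : ‖ξ‖ < R
  · have a1 : ξ ∈ shell (m + 1) 0 R' := ⟨norm_nonneg _, h1.trans_le h⟩
    have a2 : ξ ∈ shell (m + 1) 0 R := ⟨norm_nonneg _, h1⟩
    have a3 : ξ ∉ shell (m + 1) R R' := fun h' => absurd h'.1 (not_le.2 h1)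
    rw [indicator_of_mem a1, indicator_of_mem a2, indicator_of_notMem a3]; simp
  · have a2 : ξ ∉ shell (m + 1) 0 R := fun h' => h1 h'.2
    by_cases h2 : ‖ξ‖ < R'
    · have a1 : ξ ∈ shell (m + 1) 0 R' := ⟨norm_nonneg _, h2⟩
      have a3 : ξ ∈ shell (m + 1) R R' := ⟨not_lt.1 h1, h2⟩
      rw [indicator_of_mem a1, indicator_of_notMem a2, indicator_of_mem a3]; simp
    · have a1 : ξ ∉ shell (m + 1) 0 R' := fun h' => h2 h'.2
      have a3 : ξ ∉ shell (m + 1) R R' := fun h' => h2 h'.2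
      rw [indicator_of_notMem a1, indicator_of_notMem a2, indicator_of_notMem a3]; simp

lemma ps_cont_x {m : ℕ} {G : En (m + 1) → ℂ} (hG : MemLp G 2) (R : ℝ) :
    Continuous (ps G R) := by
  have : ps G R = Fi ((shell (m + 1) 0 R).indicator G) := funext fun x => ps_eq G R x
  rw [this]
  exact Fi_cont (ind_int hG _ _)

lemma ps_cont_R {m : ℕ} {G : En (m + 1) → ℂ} (hG : MemLp G 2) (x : En (m + 1)) :
    Continuous (fun R => ps G R x) := by
  have : (fun R => ps G R x) = fun R => ∫ ξ, ek x ξ * (shell (m + 1) 0 R).indicator G ξ :=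
    funext fun R => ps_eq G R x
  rw [this, continuous_iff_continuousAt]
  intro R₀
  refine continuousAt_of_dominated (bound := fun ξ => ‖(shell (m + 1) 0 (R₀ + 1)).indicator G ξ‖)
    ?_ ?_ ?_ ?_
  · exact Eventually.of_forall fun R => (ek_int (ind_int hG _ _) x).aestronglyMeasurable
  · have : ∀ᶠ R in 𝓝 R₀, R < R₀ + 1 := eventually_lt_nhds (by linarith)
    filter_upwards [this] with R hR
    refine Eventually.of_forall fun ξ => ?_
    rw [norm_mul, ek_norm, one_mul]
    by_cases h : ξ ∈ shell (m + 1) 0 R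
    · have h' : ξ ∈ shell (m + 1) 0 (R₀ + 1) := ⟨h.1, h.2.trans hR⟩
      rw [indicator_of_mem h, indicator_of_mem h']
    · rw [indicator_of_notMem h, norm_zero]; exact norm_nonneg _
  · exact (ind_int hG _ _).norm
  · have h1 : ∀ᵐ ξ : En (m + 1), ξ ∉ Metric.sphere (0 : En (m + 1)) R₀ :=
      compl_mem_ae_iff.2 (Measure.addHaar_sphere volume (0 : En (m + 1)) R₀)
    filter_upwards [h1] with ξ hξ
    have hne : ‖ξ‖ ≠ R₀ := by simpa using hξ
    rcases lt_or_gt_of_ne hne with h | h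
    · have : ∀ᶠ R in 𝓝 R₀, ek x ξ * (shell (m + 1) 0 R).indicator G ξ = ek x ξ * G ξ := by
        filter_upwards [eventually_gt_nhds h] with R hR
        have h' : ξ ∈ shell (m + 1) 0 R := ⟨norm_nonneg _, hR⟩
        rw [indicator_of_mem h']
      exact (continuousAt_const.congr (this.mono fun _ h => h.symm))
    · have : ∀ᶠ R in 𝓝 R₀, ek x ξ * (shell (m + 1) 0 R).indicator G ξ = 0 := by
        filter_upwards [eventually_lt_nhds h] with R hR
        rw [indicator_of_notMem (fun h' => absurd h'.2 (not_lt.2 hR.le)), mul_zero]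
      exact (continuousAt_const.congr (this.mono fun _ h => h.symm))

lemma ek_add {n : ℕ} (x y ξ : En n) : ek (x + y) ξ = ek x ξ * ek y ξ := by
  rw [ek, ek, ek, ← Complex.exp_add, inner_add_left]
  congr 1
  push_cast
  ring

/-- increments over a shell, on a ball of radius `ρ` -/
lemma incr {m : ℕ} {G : En (m + 1) → ℂ} (hG : MemLp G 2) {R R' : ℝ} (h0 : 0 ≤ R) (h : R ≤ R')
    (x₀ : En (m + 1)) {ρ : ℝ} (hρ : 0 < ρ) :
    ∫⁻ x in Metric.closedBall x₀ ρ, ‖ps G R' x - ps G R x‖ₑ ^ 2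
      ≤ ENNReal.ofReal (10 * (m + 1) * √(m + 1) * ρ * (R' - R)) *
          ∫⁻ ξ in shell (m + 1) R R', ‖G ξ‖ₑ ^ 2 := by
  have hG' : MemLp (fun ξ => ek x₀ ξ * G ξ) 2 := by
    refine (memLp_congr_norm ?_ hG.aestronglyMeasurable ?_).2 hG
    · exact ((ek_cont.comp (by fun_prop : Continuous fun ξ : En (m + 1) => (x₀, ξ))
        ).aestronglyMeasurable).mul hG.aestronglyMeasurable
    · refine Eventually.of_forall fun ξ => ?_
      rw [norm_mul, ek_norm, one_mul]
  have e1 : ∫⁻ x in Metric.closedBall x₀ ρ, ‖ps G R' x - ps G R x‖ₑ ^ 2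
      = ∫⁻ y in Metric.closedBall (0 : En (m + 1)) ρ,
        ‖Fi ((shell (m + 1) R (R + (R' - R))).indicator (fun ξ => ek x₀ ξ * G ξ)) y‖ₑ ^ 2 := by
    rw [← lintegral_indicator Metric.isClosed_closedBall.measurableSet,
      ← lintegral_indicator Metric.isClosed_closedBall.measurableSet,
      ← lintegral_add_left_eq_self _ x₀]
    refine lintegral_congr fun y => ?_
    have hiff : x₀ + y ∈ Metric.closedBall x₀ ρ ↔ y ∈ Metric.closedBall (0 : En (m + 1)) ρ := by
      simp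
    by_cases hy : y ∈ Metric.closedBall (0 : En (m + 1)) ρ
    · rw [indicator_of_mem hy, indicator_of_mem (hiff.2 hy), ps_sub hG h0 h]
      congr 2
      rw [Fi, Fi]
      refine integral_congr_ae (Eventually.of_forall fun ξ => ?_)
      simp only [add_sub_cancel]
      by_cases hξ : ξ ∈ shell (m + 1) R R'
      · rw [indicator_of_mem hξ, indicator_of_mem hξ, ek_add]; ring
      · rw [indicator_of_notMem hξ, indicator_of_notMem hξ]; simp
    · rw [indicator_of_notMem hy, indicator_of_notMem (fun h' => hy (hiff.1 h'))]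
  rw [e1]
  refine (local_est h0 (by linarith) hρ hG').trans (le_of_eq ?_)
  simp only [add_sub_cancel]
  congr 1
  refine lintegral_congr fun ξ => ?_
  rw [enorm_mul, ← ofReal_norm (ek x₀ ξ), ek_norm]
  simp

/-- the energy of the path of partial sums -/
noncomputable def energy {n : ℕ} (G : En n → ℂ) (x : En n) : ℝ≥0∞ :=
  ⨆ j, gridE (fun R => ps G R x) j

lemma gridE_meas {m : ℕ} {G : En (m + 1) → ℂ} (hG : MemLp G 2) (j : ℕ) :
    Measurable (fun x => gridE (fun R => ps G R x) j) := by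
  unfold gridE
  refine Measurable.tsum fun i => ?_
  exact (((ps_cont_x hG _).sub (ps_cont_x hG _)).measurable.enorm.pow_const 2).const_mul _

lemma energy_meas {m : ℕ} {G : En (m + 1) → ℂ} (hG : MemLp G 2) : Measurable (energy G) :=
  Measurable.iSup fun j => gridE_meas hG j

lemma gridE_bound {m : ℕ} {G : En (m + 1) → ℂ} (hG : MemLp G 2) (x₀ : En (m + 1)) {ρ : ℝ}
    (hρ : 0 < ρ) (j : ℕ) :
    ∫⁻ x in Metric.closedBall x₀ ρ, gridE (fun R => ps G R x) j
      ≤ ENNReal.ofReal (10 * (m + 1) * √(m + 1) * ρ) * ∫⁻ ξ, ‖G ξ‖ₑ ^ 2 := by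
  unfold gridE
  simp only
  have hms : ∀ i : ℕ, AEMeasurable (fun x : En (m + 1) =>
      2 ^ j * ‖ps G (((i + 1 : ℕ) : ℝ) / 2 ^ j) x - ps G ((i : ℝ) / 2 ^ j) x‖ₑ ^ 2)
      (volume.restrict (Metric.closedBall x₀ ρ)) := fun i =>
    ((((ps_cont_x hG _).sub (ps_cont_x hG _)).measurable.enorm.pow_const
    2).const_mul _).aemeasurable
  rw [lintegral_tsum hms]
  have h1 : ∀ i : ℕ, ∫⁻ x in Metric.closedBall x₀ ρ,
      2 ^ j * ‖ps G (((i + 1 : ℕ) : ℝ) / 2 ^ j) x - ps G ((i : ℝ) / 2 ^ j) x‖ₑ ^ 2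
      ≤ ENNReal.ofReal (10 * (m + 1) * √(m + 1) * ρ) *
        ∫⁻ ξ in shell (m + 1) ((i : ℝ) / 2 ^ j) (((i + 1 : ℕ) : ℝ) / 2 ^ j), ‖G ξ‖ₑ ^ 2 := by
    intro i
    rw [lintegral_const_mul' _ _ (by simp)]
    have h2 := incr hG (R := (i : ℝ) / 2 ^ j) (R' := ((i + 1 : ℕ) : ℝ) / 2 ^ j) (by positivity)
      (by gcongr; simp) x₀ hρ
    refine (mul_le_mul_right h2 _).trans (le_of_eq ?_)
    rw [← mul_assoc]
    congr 1
    rw [show (2 : ℝ≥0∞) ^ j = ENNReal.ofReal (2 ^ j) by
      rw [ENNReal.ofReal_pow (by norm_num)]; simp, ← ENNReal.ofReal_mul (by positivity)]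
    congr 1
    push_cast
    field_simp
    ring
  refine (ENNReal.tsum_le_tsum h1).trans ?_
  rw [ENNReal.tsum_mul_left]
  refine mul_le_mul_right ?_ _
  rw [← lintegral_iUnion (fun i => shell_meas _ _ _)]
  · exact setLIntegral_le_lintegral _ _
  · intro a b hab
    rw [Function.onFun, Set.disjoint_left]
    rintro ξ ⟨h1, h2⟩ ⟨h3, h4⟩
    have hp : (0 : ℝ) < 2 ^ j := by positivity
    rw [div_le_iff₀ hp] at h1 h3
    rw [lt_div_iff₀ hp] at h2 h4
    have h5 : (a : ℝ) < ((b + 1 : ℕ) : ℝ) := by linarith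
    have h6 : (b : ℝ) < ((a + 1 : ℕ) : ℝ) := by linarith
    have h5' : a < b + 1 := by exact_mod_cast h5
    have h6' : b < a + 1 := by exact_mod_cast h6
    exact hab (by omega)

/-- **the local bound for the energy** -/
theorem energy_bound {m : ℕ} {G : En (m + 1) → ℂ} (hG : MemLp G 2) (x₀ : En (m + 1)) {ρ : ℝ}
    (hρ : 0 < ρ) :
    ∫⁻ x in Metric.closedBall x₀ ρ, energy G x
      ≤ ENNReal.ofReal (10 * (m + 1) * √(m + 1) * ρ) * ∫⁻ ξ, ‖G ξ‖ₑ ^ 2 := by
  unfold energy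
  rw [lintegral_iSup (fun j => gridE_meas hG j) (fun i j hij x => gridE_mono _ hij)]
  exact iSup_le fun j => gridE_bound hG x₀ hρ j

theorem energy_partition {m : ℕ} {G : En (m + 1) → ℂ} (hG : MemLp G 2) (x : En (m + 1))
    (R : ℕ → ℝ) (hR : Monotone R) (h0 : 0 ≤ R 0) (N : ℕ) :
    ∑ i ∈ Finset.range N, ‖ps G (R (i + 1)) x - ps G (R i) x‖ₑ ^ 2 /
        ENNReal.ofReal (R (i + 1) - R i) ≤ energy G x :=
  partition_bound (S := fun R => ps G R x) (ps_cont_R hG x) R hR h0 N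

lemma energy_fin {m : ℕ} {G : En (m + 1) → ℂ} (hG : MemLp G 2) :
    ∀ᵐ x : En (m + 1), energy G x < ⊤ := by
  have hfin : ∫⁻ ξ, ‖G ξ‖ₑ ^ 2 < ⊤ := by
    have := hG.eLpNorm_lt_top
    rw [eLpNorm_lt_top_iff_lintegral_rpow_enorm_lt_top (by norm_num) (by norm_num)] at this
    simpa using this
  have h1 : ∀ k : ℕ, ∀ᵐ x : En (m + 1), x ∈ Metric.closedBall (0 : En (m + 1)) (k + 1) →
      energy G x < ⊤ := by
    intro k
    have h2 := energy_bound hG (0 : En (m + 1)) (ρ := (k : ℝ) + 1) (by positivity)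
    have h3 : ∫⁻ x in Metric.closedBall (0 : En (m + 1)) (k + 1), energy G x ≠ ⊤ :=
      (h2.trans_lt (ENNReal.mul_lt_top ENNReal.ofReal_lt_top hfin)).ne
    have h4 := ae_lt_top (energy_meas hG) h3
    rwa [ae_restrict_iff' Metric.isClosed_closedBall.measurableSet] at h4
  filter_upwards [ae_all_iff.2 h1] with x hx
  obtain ⟨k, hk⟩ := exists_nat_ge ‖x‖
  exact hx k (by simp; linarith)

end Pool.Agent.Helper93.Sph
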