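import Mathlib
import Pool.Agent.Helper93.Sph.F

/-! Convergence along an arithmetic progression of radii is enough. -/

set_option autoImplicit false

open MeasureTheory Real Set Filter Topology
open scoped ENNReal RealInnerProductSpace

namespace Pool.Agent.Helper93.Sph

/-- interlacing a progression with a selection of radii -/
noncomputable def lace (h : ℝ) (R : ℕ → ℝ) (i : ℕ) : ℝ :=
  if Even i then h * ((i / 2 : ℕ) : ℝ) else R (i / 2)

lemma lace_even (h : ℝ) (R : ℕ → ℝ) (k : ℕ) : lace h R (2 * k) = h * k := by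
  have : Even (2 * k) := even_two_mul k
  rw [lace, if_pos this]; simp

lemma lace_odd (h : ℝ) (R : ℕ → ℝ) (k : ℕ) : lace h R (2 * k + 1) = R k := by
  have h1 : ¬ Even (2 * k + 1) := by simp
  rw [lace, if_neg h1, show (2 * k + 1) / 2 = k by omega]

lemma lace_mono {h : ℝ} {R : ℕ → ℝ} (h1 : ∀ k : ℕ, h * k ≤ R k)
    (h2 : ∀ k : ℕ, R k ≤ h * (k + 1 : ℕ)) : Monotone (lace h R) := by
  refine monotone_nat_of_le_succ fun i => ?_
  rcases Nat.even_or_odd' i with ⟨k, rfl | rfl⟩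
  · rw [lace_even, lace_odd]; exact h1 k
  · rw [lace_odd, show 2 * k + 1 + 1 = 2 * (k + 1) by ring, lace_even]; exact h2 k

lemma sel_sum {m : ℕ} {G : En (m + 1) → ℂ} (hG : MemLp G 2) (x : En (m + 1)) {h : ℝ}
    {R : ℕ → ℝ} (h1 : ∀ k : ℕ, h * k ≤ R k) (h2 : ∀ k : ℕ, R k ≤ h * (k + 1 : ℕ)) :
    ∑' k : ℕ, ‖ps G (R k) x - ps G (h * k) x‖ₑ ^ 2 / ENNReal.ofReal (R k - h * k)
      ≤ energy G x := by
  rw [ENNReal.tsum_eq_iSup_nat]
  refine iSup_le fun N => ?_
  have h3 := energy_partition hG x (lace h R) (lace_mono h1 h2) (by simp [lace]) (2 * N)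
  refine le_trans ?_ h3
  have h4 : ∀ M : ℕ, ∑ a ∈ Finset.range M,
      ‖ps G (R a) x - ps G (h * a) x‖ₑ ^ 2 / ENNReal.ofReal (R a - h * a) ≤
      ∑ i ∈ Finset.range (2 * M), ‖ps G (lace h R (i + 1)) x - ps G (lace h R i) x‖ₑ ^ 2 /
        ENNReal.ofReal (lace h R (i + 1) - lace h R i) := by
    intro M
    induction M with
    | zero => simp
    | succ M ih =>
      rw [Finset.sum_range_succ, show 2 * (M + 1) = 2 * M + 1 + 1 by ring,
        Finset.sum_range_succ _ (2 * M + 1), Finset.sum_range_succ _ (2 * M), lace_odd, lace_even]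
      exact le_self_add.trans' (add_le_add ih le_rfl)
  exact h4 N

lemma sel_tendsto {m : ℕ} {G : En (m + 1) → ℂ} (hG : MemLp G 2) {x : En (m + 1)}
    (hx : energy G x < ⊤) {h : ℝ} {R : ℕ → ℝ} (h1 : ∀ k : ℕ, h * k ≤ R k)
    (h2 : ∀ k : ℕ, R k ≤ h * (k + 1 : ℕ)) :
    Tendsto (fun k : ℕ => ‖ps G (R k) x - ps G (h * k) x‖) atTop (𝓝 0) := by
  have h3 := ENNReal.tendsto_atTop_zero_of_tsum_ne_top ((sel_sum hG x h1 h2).trans_lt hx).ne
  have h4 : Tendsto (fun k : ℕ => ENNReal.ofReal h *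
      (‖ps G (R k) x - ps G (h * k) x‖ₑ ^ 2 / ENNReal.ofReal (R k - h * k))) atTop (𝓝 0) := by
    have := ENNReal.Tendsto.const_mul (a := ENNReal.ofReal h) h3 (Or.inr ENNReal.ofReal_ne_top)
    simpa using this
  have h5 : Tendsto (fun k : ℕ => ‖ps G (R k) x - ps G (h * k) x‖ₑ ^ 2) atTop (𝓝 0) := by
    refine tendsto_of_tendsto_of_tendsto_of_le_of_le tendsto_const_nhds h4 (fun _ => zero_le)
      fun k => ?_
    simp only
    rcases (h1 k).eq_or_lt with he | hl
    · rw [he]; simp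
    · have hp : 0 < R k - h * k := by linarith
      have hk : R k - h * k ≤ h := by
        have := h2 k
        push_cast at this
        linarith
      have h0 : ENNReal.ofReal (R k - h * k) ≠ 0 := by simpa using hp
      calc ‖ps G (R k) x - ps G (h * k) x‖ₑ ^ 2
          = ENNReal.ofReal (R k - h * k) *
            (‖ps G (R k) x - ps G (h * k) x‖ₑ ^ 2 / ENNReal.ofReal (R k - h * k)) :=
            (ENNReal.mul_div_cancel h0 ENNReal.ofReal_ne_top).symm
        _ ≤ _ := mul_le_mul_left (ENNReal.ofReal_le_ofReal hk) _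
  have h6 : Tendsto (fun k : ℕ => ‖ps G (R k) x - ps G (h * k) x‖ ^ 2) atTop (𝓝 0) := by
    have := (ENNReal.tendsto_toReal ENNReal.zero_ne_top).comp h5
    refine (this.congr fun k => ?_)
    simp
  have h7 := h6.sqrt
  simpa using h7

/-- **Arithmetic progressions of radii suffice.** -/
theorem conv_iff {m : ℕ} {G : En (m + 1) → ℂ} (hG : MemLp G 2) {x : En (m + 1)}
    (hx : energy G x < ⊤) {h : ℝ} (hh : 0 < h) (L : ℂ) :
    Tendsto (fun R : ℝ => ps G R x) atTop (𝓝 L) ↔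
      Tendsto (fun k : ℕ => ps G (h * k) x) atTop (𝓝 L) := by
  constructor
  · intro hL
    exact hL.comp (tendsto_natCast_atTop_atTop.const_mul_atTop hh)
  · intro hL
    have hcont := ps_cont_R hG x
    have hsel : ∀ k : ℕ, ∃ R ∈ Icc (h * k) (h * (k + 1 : ℕ)), ∀ R' ∈ Icc (h * k) (h * (k + 1 : ℕ)),
        ‖ps G R' x - ps G (h * k) x‖ ≤ ‖ps G R x - ps G (h * k) x‖ := by
      intro k
      have hne : (Icc (h * k) (h * (k + 1 : ℕ))).Nonempty := by
        refine ⟨h * k, le_rfl, ?_⟩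
        push_cast; nlinarith
      obtain ⟨R, hR, hmax⟩ := isCompact_Icc.exists_isMaxOn hne
        (f := fun R => ‖ps G R x - ps G (h * k) x‖)
        ((hcont.sub continuous_const).norm.continuousOn)
      exact ⟨R, hR, fun R' hR' => hmax hR'⟩
    choose R hR hmax using hsel
    have hM := sel_tendsto hG hx (h := h) (R := R) (fun k => (hR k).1) (fun k => (hR k).2)
    rw [tendsto_iff_norm_sub_tendsto_zero] at hL ⊢
    have hfl : Tendsto (fun R : ℝ => ⌊R / h⌋₊) atTop atTop :=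
      tendsto_nat_floor_atTop.comp (tendsto_id.atTop_div_const hh)
    have hsum := (hM.comp hfl).add (hL.comp hfl)
    rw [add_zero] at hsum
    refine tendsto_of_tendsto_of_tendsto_of_le_of_le' tendsto_const_nhds hsum
      (Eventually.of_forall fun _ => norm_nonneg _) ?_
    filter_upwards [eventually_ge_atTop (0 : ℝ)] with r hr
    have hm : r ∈ Icc (h * (⌊r / h⌋₊ : ℕ)) (h * ((⌊r / h⌋₊ + 1 : ℕ) : ℝ)) := by
      have a1 : (⌊r / h⌋₊ : ℝ) ≤ r / h := Nat.floor_le (by positivity)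
      have a2 : r / h < (⌊r / h⌋₊ : ℝ) + 1 := Nat.lt_floor_add_one _
      rw [le_div_iff₀ hh] at a1
      rw [div_lt_iff₀ hh] at a2
      constructor
      · linarith
      · push_cast; linarith
    have h8 := hmax _ r hm
    simp only [Function.comp]
    calc ‖ps G r x - L‖ = ‖(ps G r x - ps G (h * (⌊r / h⌋₊ : ℕ)) x) +
          (ps G (h * (⌊r / h⌋₊ : ℕ)) x - L)‖ := by ring_nf
      _ ≤ ‖ps G r x - ps G (h * (⌊r / h⌋₊ : ℕ)) x‖ + ‖ps G (h * (⌊r / h⌋₊ : ℕ)) x - L‖ :=
          norm_add_le _ _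
      _ ≤ _ := add_le_add h8 le_rfl

end Pool.Agent.Helper93.Sph
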