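import Mathlib

/-! Moments and maximal inequality for sums of independent bounded mean zero variables. -/

set_option autoImplicit false

open MeasureTheory ProbabilityTheory Filter Topology Finset
open scoped ENNReal

namespace Pool.Agent.Helper93.Sph

variable {Ω ι : Type*} [MeasurableSpace Ω]

/-- `ε` is a family of independent random variables with mean zero and values in `[-1, 1]` -/
structure Noise (P : Measure Ω) (ε : ι → Ω → ℝ) : Prop where
  meas : ∀ i, Measurable (ε i)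
  indep : iIndepFun ε P
  bdd : ∀ i ω, |ε i ω| ≤ 1
  mean : ∀ i, ∫ ω, ε i ω ∂P = 0

omit [MeasurableSpace Ω] in
/-- the sigma-algebra of the variables with index in `A` -/
@[reducible] def sg (ε : ι → Ω → ℝ) (A : Set ι) : MeasurableSpace Ω :=
  ⨆ i ∈ A, MeasurableSpace.comap (ε i) inferInstance

lemma sg_le {ε : ι → Ω → ℝ} (hm : ∀ i, Measurable (ε i)) (A : Set ι) :
    sg ε A ≤ (inferInstance : MeasurableSpace Ω) :=
  iSup₂_le fun i _ => (hm i).comap_le

omit [MeasurableSpace Ω] in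
lemma sg_mono (ε : ι → Ω → ℝ) {A B : Set ι} (h : A ⊆ B) : sg ε A ≤ sg ε B :=
  biSup_mono h

omit [MeasurableSpace Ω] in
lemma sg_meas (ε : ι → Ω → ℝ) {A : Set ι} {i : ι} (hi : i ∈ A) : Measurable[sg ε A] (ε i) := by
  have h : MeasurableSpace.comap (ε i) inferInstance ≤ sg ε A :=
    le_iSup₂_of_le (f := fun i (_ : i ∈ A) => MeasurableSpace.comap (ε i) inferInstance) i hi le_rfl
  exact Measurable.of_comap_le h

/-- a bounded measurable function of the other variables is orthogonal to `ε i` -/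
lemma orth {P : Measure Ω} [IsProbabilityMeasure P] {ε : ι → Ω → ℝ} (hε : Noise P ε)
    {A : Set ι} {i : ι} (hi : i ∉ A) {φ : Ω → ℝ} (hφ : Measurable[sg ε A] φ) {ψ : ℝ → ℝ}
    (hψ : Measurable ψ) :
    ∫ ω, φ ω * ψ (ε i ω) ∂P = (∫ ω, φ ω ∂P) * ∫ ω, ψ (ε i ω) ∂P := by
  have h1 : Indep (sg ε A) (sg ε {i}) P :=
    indep_iSup_of_disjoint (fun j => (hε.meas j).comap_le) hε.indep.iIndep
      (Set.disjoint_singleton_right.2 hi)
  have h2 : IndepFun φ (fun ω => ψ (ε i ω)) P := by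
    refine indep_of_indep_of_le_left (indep_of_indep_of_le_right h1 ?_) ?_
    · exact (hψ.comp (sg_meas ε (Set.mem_singleton i))).comap_le
    · exact hφ.comap_le
  refine h2.integral_fun_mul_eq_mul_integral ?_ ?_
  · exact (hφ.mono (sg_le hε.meas A) le_rfl).aestronglyMeasurable
  · exact (hψ.comp (hε.meas i)).aestronglyMeasurable

lemma orth0 {P : Measure Ω} [IsProbabilityMeasure P] {ε : ι → Ω → ℝ} (hε : Noise P ε)
    {A : Set ι} {i : ι} (hi : i ∉ A) {φ : Ω → ℝ} (hφ : Measurable[sg ε A] φ) :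
    ∫ ω, φ ω * ε i ω ∂P = 0 := by
  have := orth hε hi hφ measurable_id
  simpa [hε.mean i] using this

/-- the partial sums -/
noncomputable def pX (ε : ι → Ω → ℝ) (a : ι → ℂ) (A : Finset ι) (ω : Ω) : ℂ :=
  ∑ i ∈ A, (ε i ω : ℂ) * a i

lemma pX_meas_sg (ε : ι → Ω → ℝ) (a : ι → ℂ) (A : Finset ι) : Measurable[sg ε A] (pX ε a A) := by
  unfold pX
  refine Finset.measurable_sum (m := sg ε A) _ fun i hi => ?_
  have h1 : Measurable[sg ε A] (ε i) := sg_meas ε (Finset.mem_coe.2 hi)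
  exact (Complex.measurable_ofReal.comp h1).mul_const _

lemma pX_meas {P : Measure Ω} {ε : ι → Ω → ℝ} (hε : Noise P ε) (a : ι → ℂ) (A : Finset ι) :
    Measurable (pX ε a A) :=
  (pX_meas_sg ε a A).mono (sg_le hε.meas _) le_rfl

lemma pX_bdd {P : Measure Ω} {ε : ι → Ω → ℝ} (hε : Noise P ε) (a : ι → ℂ) (A : Finset ι) (ω : Ω) :
    ‖pX ε a A ω‖ ≤ ∑ i ∈ A, ‖a i‖ := by
  refine (norm_sum_le _ _).trans (Finset.sum_le_sum fun i _ => ?_)
  rw [norm_mul, Complex.norm_real, Real.norm_eq_abs]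
  exact mul_le_of_le_one_left (norm_nonneg _) (hε.bdd i ω)

lemma int_of_bdd {P : Measure Ω} [IsProbabilityMeasure P] {f : Ω → ℝ} (hf : Measurable f) (C : ℝ)
    (hC : ∀ ω, |f ω| ≤ C) : Integrable f P :=
  Integrable.of_bound hf.aestronglyMeasurable C (Eventually.of_forall fun ω => hC ω)

/-- real part of `z * conj w` -/
noncomputable def ip (z w : ℂ) : ℝ := z.re * w.re + z.im * w.im

lemma norm_add_sq_ip (z w : ℂ) (t : ℝ) :
    ‖z + (t : ℂ) * w‖ ^ 2 = ‖z‖ ^ 2 + 2 * (ip z w * t) + t ^ 2 * ‖w‖ ^ 2 := by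
  rw [← Complex.normSq_eq_norm_sq, ← Complex.normSq_eq_norm_sq, ← Complex.normSq_eq_norm_sq,
    Complex.normSq_apply, Complex.normSq_apply, Complex.normSq_apply, ip]
  simp
  ring

lemma ip_le (z w : ℂ) : |ip z w| ≤ ‖z‖ * ‖w‖ := by
  have h : ip z w ^ 2 ≤ (‖z‖ * ‖w‖) ^ 2 := by
    rw [mul_pow, ← Complex.normSq_eq_norm_sq, ← Complex.normSq_eq_norm_sq,
      Complex.normSq_apply, Complex.normSq_apply, ip]
    nlinarith [sq_nonneg (z.re * w.im - z.im * w.re)]
  exact abs_le_of_sq_le_sq h (by positivity)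

omit [MeasurableSpace Ω] in
lemma ip_meas {m : MeasurableSpace Ω} {f : Ω → ℂ} (hf : Measurable[m] f) (w : ℂ) :
    Measurable[m] (fun ω => ip (f ω) w) := by
  unfold ip
  exact ((Complex.measurable_re.comp hf).mul_const _).add
    ((Complex.measurable_im.comp hf).mul_const _)

omit [MeasurableSpace Ω] in
lemma ip_meas' {m : MeasurableSpace Ω} {f : Ω → ℂ} (hf : Measurable[m] f) (w : ℂ) :
    Measurable[m] (fun ω => ‖f ω‖ ^ 2 * ip (f ω) w) := by
  have h1 := ip_meas hf w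
  have h2 : Measurable[m] (fun ω => ‖f ω‖) := measurable_norm.comp hf
  exact (h2.pow_const 2).mul h1

omit [MeasurableSpace Ω] in
lemma pX_insert [DecidableEq ι] (ε : ι → Ω → ℝ) (a : ι → ℂ) {A : Finset ι} {i : ι} (hi : i ∉ A)
    (ω : Ω) :
    pX ε a (insert i A) ω = pX ε a A ω + (ε i ω : ℂ) * a i := by
  rw [pX, Finset.sum_insert hi, pX, add_comm]

/-- second moment -/
lemma second {P : Measure Ω} [IsProbabilityMeasure P] {ε : ι → Ω → ℝ} (hε : Noise P ε)
    (a : ι → ℂ) (A : Finset ι) :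
    ∫ ω, ‖pX ε a A ω‖ ^ 2 ∂P ≤ ∑ i ∈ A, ‖a i‖ ^ 2 := by
  classical
  induction A using Finset.induction_on with
  | empty => simp [pX]
  | insert i A hi ih =>
    set X := pX ε a A with hX
    have hXm : Measurable X := pX_meas hε a A
    have hXs : Measurable[sg ε A] X := pX_meas_sg ε a A
    set C := ∑ i ∈ A, ‖a i‖ with hC
    have hC0 : 0 ≤ C := Finset.sum_nonneg fun i _ => norm_nonneg _
    have hXb : ∀ ω, ‖X ω‖ ≤ C := pX_bdd hε a A
    have hipm : Measurable (fun ω => ip (X ω) (a i)) := ip_meas hXm _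
    have i1 : Integrable (fun ω => ‖X ω‖ ^ 2) P :=
      int_of_bdd (hXm.norm.pow_const 2) (C ^ 2) fun ω => by
        rw [abs_of_nonneg (by positivity)]; exact pow_le_pow_left₀ (norm_nonneg _) (hXb ω) 2
    have i2 : Integrable (fun ω => ip (X ω) (a i) * ε i ω) P :=
      int_of_bdd (hipm.mul (hε.meas i)) (C * ‖a i‖) fun ω => by
        rw [abs_mul]
        calc |ip (X ω) (a i)| * |ε i ω| ≤ (‖X ω‖ * ‖a i‖) * 1 :=
              mul_le_mul (ip_le _ _) (hε.bdd i ω) (abs_nonneg _) (by positivity)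
          _ ≤ _ := by rw [mul_one]; exact mul_le_mul_of_nonneg_right (hXb ω) (norm_nonneg _)
    have h0 : ∫ ω, ip (X ω) (a i) * ε i ω ∂P = 0 :=
      orth0 hε (A := (A : Set ι)) (by simpa using hi) (ip_meas hXs _)
    rw [Finset.sum_insert hi]
    have j1 : Integrable (fun ω => ‖X ω‖ ^ 2 + 2 * (ip (X ω) (a i) * ε i ω)) P :=
      i1.add (i2.const_mul 2)
    calc ∫ ω, ‖pX ε a (insert i A) ω‖ ^ 2 ∂P
        ≤ ∫ ω, (‖X ω‖ ^ 2 + 2 * (ip (X ω) (a i) * ε i ω) + ‖a i‖ ^ 2) ∂P := by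
          refine integral_mono ?_ (j1.add (integrable_const _)) fun ω => ?_
          · refine int_of_bdd ((pX_meas hε a _).norm.pow_const 2)
              ((∑ j ∈ insert i A, ‖a j‖) ^ 2) fun ω => ?_
            rw [abs_of_nonneg (by positivity)]
            exact pow_le_pow_left₀ (norm_nonneg _) (pX_bdd hε a _ ω) 2
          · simp only
            rw [pX_insert ε a hi, norm_add_sq_ip]
            have h1 : ε i ω ^ 2 ≤ 1 := by
              have := hε.bdd i ω
              rw [← sq_abs]; nlinarith [abs_nonneg (ε i ω)]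
            nlinarith [sq_nonneg ‖a i‖]
      _ = ∫ ω, ‖X ω‖ ^ 2 ∂P + ‖a i‖ ^ 2 := by
          rw [integral_add j1 (integrable_const _), integral_add i1
            (i2.const_mul 2), integral_const_mul, h0]
          simp
      _ ≤ _ := by linarith

/-- fourth moment -/
lemma fourth {P : Measure Ω} [IsProbabilityMeasure P] {ε : ι → Ω → ℝ} (hε : Noise P ε)
    (a : ι → ℂ) (A : Finset ι) :
    ∫ ω, ‖pX ε a A ω‖ ^ 4 ∂P ≤ 3 * (∑ i ∈ A, ‖a i‖ ^ 2) ^ 2 := by
  classical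
  induction A using Finset.induction_on with
  | empty => simp [pX]
  | insert i A hi ih =>
    have h2nd := second hε a A
    set X := pX ε a A with hX
    have hXm : Measurable X := pX_meas hε a A
    have hXs : Measurable[sg ε A] X := pX_meas_sg ε a A
    set C := ∑ i ∈ A, ‖a i‖ with hC
    have hC0 : 0 ≤ C := Finset.sum_nonneg fun i _ => norm_nonneg _
    have hXb : ∀ ω, ‖X ω‖ ≤ C := pX_bdd hε a A
    have hipm : Measurable (fun ω => ip (X ω) (a i)) := ip_meas hXm _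
    have hipb : ∀ ω, |ip (X ω) (a i)| ≤ C * ‖a i‖ := fun ω =>
      (ip_le _ _).trans (mul_le_mul_of_nonneg_right (hXb ω) (norm_nonneg _))
    have i1 : Integrable (fun ω => ‖X ω‖ ^ 4) P :=
      int_of_bdd (hXm.norm.pow_const 4) (C ^ 4) fun ω => by
        rw [abs_of_nonneg (by positivity)]; exact pow_le_pow_left₀ (norm_nonneg _) (hXb ω) 4
    have i2 : Integrable (fun ω => ‖X ω‖ ^ 2) P :=
      int_of_bdd (hXm.norm.pow_const 2) (C ^ 2) fun ω => by
        rw [abs_of_nonneg (by positivity)]; exact pow_le_pow_left₀ (norm_nonneg _) (hXb ω) 2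
    have i3 : Integrable (fun ω => (‖X ω‖ ^ 2 * ip (X ω) (a i)) * ε i ω) P :=
      int_of_bdd (((hXm.norm.pow_const 2).mul hipm).mul (hε.meas i)) (C ^ 2 * (C * ‖a i‖))
        fun ω => by
        rw [abs_mul, abs_mul, abs_of_nonneg (by positivity : (0:ℝ) ≤ ‖X ω‖ ^ 2)]
        calc ‖X ω‖ ^ 2 * |ip (X ω) (a i)| * |ε i ω| ≤ (C ^ 2 * (C * ‖a i‖)) * 1 :=
              mul_le_mul (mul_le_mul (pow_le_pow_left₀ (norm_nonneg _) (hXb ω) 2) (hipb ω)
                (abs_nonneg _) (by positivity)) (hε.bdd i ω) (abs_nonneg _) (by positivity)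
          _ = _ := mul_one _
    have hε3 : ∀ ω, |ε i ω ^ 3| ≤ 1 := fun ω => by
      rw [abs_pow]; exact pow_le_one₀ (abs_nonneg _) (hε.bdd i ω)
    have i4 : Integrable (fun ω => ip (X ω) (a i) * (fun t : ℝ => t ^ 3) (ε i ω)) P :=
      int_of_bdd (hipm.mul ((hε.meas i).pow_const 3)) (C * ‖a i‖) fun ω => by
        rw [abs_mul]
        calc |ip (X ω) (a i)| * |ε i ω ^ 3| ≤ (C * ‖a i‖) * 1 :=
              mul_le_mul (hipb ω) (hε3 ω) (abs_nonneg _) (by positivity)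
          _ = _ := mul_one _
    have h0 : ∫ ω, (‖X ω‖ ^ 2 * ip (X ω) (a i)) * ε i ω ∂P = 0 :=
      orth0 hε (A := (A : Set ι)) (by simpa using hi) (ip_meas' hXs _)
    have hip0 : ∫ ω, ip (X ω) (a i) ∂P = 0 := by
      have e : ∀ ω, ip (X ω) (a i) = ∑ j ∈ A, ip (a j) (a i) * ε j ω := by
        intro ω
        rw [hX, pX, ip, Complex.re_sum, Complex.im_sum, Finset.sum_mul, Finset.sum_mul,
          ← Finset.sum_add_distrib]
        refine Finset.sum_congr rfl fun j _ => ?_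
        rw [ip]; simp; ring
      simp_rw [e]
      rw [integral_finsetSum]
      · refine Finset.sum_eq_zero fun j _ => ?_
        rw [integral_const_mul, hε.mean j, mul_zero]
      · intro j _
        exact (int_of_bdd (hε.meas j) 1 (hε.bdd j)).const_mul _
    have h1 : ∫ ω, ip (X ω) (a i) * (fun t : ℝ => t ^ 3) (ε i ω) ∂P = 0 := by
      rw [orth hε (A := (A : Set ι)) (by simpa using hi) (ip_meas hXs _)
        (ψ := fun t : ℝ => t ^ 3) (by fun_prop), hip0, zero_mul]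
    rw [Finset.sum_insert hi]
    set s := ∑ j ∈ A, ‖a j‖ ^ 2 with hs
    have hs0 : 0 ≤ s := Finset.sum_nonneg fun i _ => by positivity
    have j1 : Integrable (fun ω => ‖X ω‖ ^ 4 + 6 * ‖a i‖ ^ 2 * ‖X ω‖ ^ 2) P :=
      i1.add (i2.const_mul _)
    have j2 : Integrable (fun ω => ‖X ω‖ ^ 4 + 6 * ‖a i‖ ^ 2 * ‖X ω‖ ^ 2 +
        4 * ((‖X ω‖ ^ 2 * ip (X ω) (a i)) * ε i ω)) P := j1.add (i3.const_mul 4)
    have j3 : Integrable (fun ω => ‖X ω‖ ^ 4 + 6 * ‖a i‖ ^ 2 * ‖X ω‖ ^ 2 +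
        4 * ((‖X ω‖ ^ 2 * ip (X ω) (a i)) * ε i ω) +
        4 * ‖a i‖ ^ 2 * (ip (X ω) (a i) * (fun t : ℝ => t ^ 3) (ε i ω))) P :=
      j2.add (i4.const_mul _)
    calc ∫ ω, ‖pX ε a (insert i A) ω‖ ^ 4 ∂P
        ≤ ∫ ω, (‖X ω‖ ^ 4 + 6 * ‖a i‖ ^ 2 * ‖X ω‖ ^ 2 +
            4 * ((‖X ω‖ ^ 2 * ip (X ω) (a i)) * ε i ω) +
            4 * ‖a i‖ ^ 2 * (ip (X ω) (a i) * (fun t : ℝ => t ^ 3) (ε i ω)) + ‖a i‖ ^ 4) ∂P := by
          refine integral_mono ?_ (j3.add (integrable_const _)) fun ω => ?_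
          · refine int_of_bdd ((pX_meas hε a _).norm.pow_const 4)
              ((∑ j ∈ insert i A, ‖a j‖) ^ 4) fun ω => ?_
            rw [abs_of_nonneg (by positivity)]
            exact pow_le_pow_left₀ (norm_nonneg _) (pX_bdd hε a _ ω) 4
          · simp only
            have e1 : ‖pX ε a (insert i A) ω‖ ^ 4 = (‖X ω‖ ^ 2 + 2 * (ip (X ω) (a i) * ε i ω) +
                ε i ω ^ 2 * ‖a i‖ ^ 2) ^ 2 := by
              rw [pX_insert ε a hi, ← norm_add_sq_ip]; ring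
            rw [e1]
            have h1 : ε i ω ^ 2 ≤ 1 := by
              have := hε.bdd i ω
              rw [← sq_abs]; nlinarith [abs_nonneg (ε i ω)]
            have h1' : 0 ≤ ε i ω ^ 2 := sq_nonneg _
            have h2 : ip (X ω) (a i) ^ 2 ≤ ‖X ω‖ ^ 2 * ‖a i‖ ^ 2 := by
              rw [← mul_pow, ← sq_abs]
              exact pow_le_pow_left₀ (abs_nonneg _) (ip_le _ _) 2
            have h3 : (ip (X ω) (a i) * ε i ω) ^ 2 ≤ ‖X ω‖ ^ 2 * ‖a i‖ ^ 2 := by
              rw [mul_pow]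
              calc ip (X ω) (a i) ^ 2 * ε i ω ^ 2 ≤ ip (X ω) (a i) ^ 2 * 1 :=
                    mul_le_mul_of_nonneg_left h1 (sq_nonneg _)
                _ ≤ _ := by linarith
            have h4 : ε i ω ^ 2 * (‖X ω‖ ^ 2 * ‖a i‖ ^ 2) ≤ ‖X ω‖ ^ 2 * ‖a i‖ ^ 2 :=
              mul_le_of_le_one_left (by positivity) h1
            have h5 : (ε i ω ^ 2 * ‖a i‖ ^ 2) ^ 2 ≤ ‖a i‖ ^ 4 := by
              have : ε i ω ^ 2 * ‖a i‖ ^ 2 ≤ ‖a i‖ ^ 2 := mul_le_of_le_one_left (by positivity) h1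
              calc (ε i ω ^ 2 * ‖a i‖ ^ 2) ^ 2 ≤ (‖a i‖ ^ 2) ^ 2 :=
                    pow_le_pow_left₀ (by positivity) this 2
                _ = _ := by ring
            nlinarith
      _ = ∫ ω, ‖X ω‖ ^ 4 ∂P + 6 * ‖a i‖ ^ 2 * ∫ ω, ‖X ω‖ ^ 2 ∂P + ‖a i‖ ^ 4 := by
          rw [integral_add j3 (integrable_const _), integral_add j2 (i4.const_mul _),
            integral_add j1 (i3.const_mul 4), integral_add i1 (i2.const_mul _),
            integral_const_mul, integral_const_mul, integral_const_mul, h0, h1]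
          simp
      _ ≤ 3 * s ^ 2 + 6 * ‖a i‖ ^ 2 * s + ‖a i‖ ^ 4 := by
          have : 6 * ‖a i‖ ^ 2 * ∫ ω, ‖X ω‖ ^ 2 ∂P ≤ 6 * ‖a i‖ ^ 2 * s :=
            mul_le_mul_of_nonneg_left h2nd (by positivity)
          linarith
      _ ≤ _ := by nlinarith [sq_nonneg (‖a i‖ ^ 2)]

end Pool.Agent.Helper93.Sph
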