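import Mathlib
import Pool.Agent.Helper93.Sph.P

/-! Doob's `L²` inequality for sums of independent variables with complex coefficients. -/

set_option autoImplicit false

open MeasureTheory ProbabilityTheory Filter Topology Finset
open scoped ENNReal

namespace Pool.Agent.Helper93.Sph

/-- running maximum -/
noncomputable def am (Y : ℕ → ℝ) : ℕ → ℝ
  | 0 => Y 0
  | n + 1 => max (am Y n) (Y (n + 1))

lemma le_am (Y : ℕ → ℝ) (n : ℕ) : ∀ k ≤ n, Y k ≤ am Y n := by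
  induction n with
  | zero => intro k hk; rw [Nat.le_zero.1 hk]; exact le_rfl
  | succ n ih =>
    intro k hk
    rcases Nat.le_succ_iff.1 hk with h | h
    · exact (ih k h).trans (le_max_left _ _)
    · rw [h]; exact le_max_right _ _

lemma am_path (Y : ℕ → ℝ) (n : ℕ) :
    ∑ i ∈ range n, am Y i * (Y (i + 1) - Y i) ≤ am Y n * Y n - am Y n ^ 2 / 2 - Y 0 ^ 2 / 2 := by
  induction n with
  | zero => simp only [range_zero, sum_empty, am]; nlinarith
  | succ n ih =>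
    rw [sum_range_succ]
    simp only [am]
    rcases le_total (am Y n) (Y (n + 1)) with h | h
    · rw [max_eq_right h]
      nlinarith [sq_nonneg (Y (n + 1) - am Y n)]
    · rw [max_eq_left h]
      nlinarith

variable {Ω ι : Type*} [MeasurableSpace Ω]

lemma norm_add_ge (X D : ℂ) : ‖X‖ + ip D X / ‖X‖ ≤ ‖X + D‖ := by
  rcases eq_or_ne X 0 with rfl | hX
  · simp
  have hp : 0 < ‖X‖ := norm_pos_iff.2 hX
  have h1 : ip (X + D) X = ‖X‖ ^ 2 + ip D X := by
    rw [ip, ip, ← Complex.normSq_eq_norm_sq, Complex.normSq_apply]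
    simp; ring
  have h2 : ip (X + D) X ≤ ‖X + D‖ * ‖X‖ := (le_abs_self _).trans (ip_le _ _)
  rw [show ‖X‖ + ip D X / ‖X‖ = (‖X‖ ^ 2 + ip D X) / ‖X‖ by field_simp, div_le_iff₀ hp, ← h1]
  exact h2

omit [MeasurableSpace Ω] in
lemma am_meas {m : MeasurableSpace Ω} {Y : ℕ → Ω → ℝ} (n : ℕ) (hY : ∀ k ≤ n, Measurable[m] (Y k)) :
    Measurable[m] (fun ω => am (fun k => Y k ω) n) := by
  induction n with
  | zero => exact hY 0 le_rfl
  | succ n ih =>
    exact (ih fun k hk => hY k (hk.trans (Nat.le_succ n))).max (hY (n + 1) le_rfl)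

lemma am_bdd {Y : ℕ → ℝ} {C : ℝ} (n : ℕ) (hY0 : ∀ k, 0 ≤ Y k) (hY : ∀ k ≤ n, Y k ≤ C) :
    |am Y n| ≤ C := by
  induction n with
  | zero => simpa [am, abs_of_nonneg (hY0 0)] using hY 0 le_rfl
  | succ n ih =>
    have h1 := ih fun k hk => hY k (hk.trans (Nat.le_succ n))
    have h2 := hY (n + 1) le_rfl
    have h3 : 0 ≤ am Y (n + 1) := (hY0 (n + 1)).trans (le_max_right _ _)
    rw [abs_of_nonneg h3]
    exact max_le ((le_abs_self _).trans h1) h2

omit [MeasurableSpace Ω] in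
lemma phi_meas {m : MeasurableSpace Ω} {f : Ω → ℝ} {g : Ω → ℂ} (hf : Measurable[m] f)
    (hg : Measurable[m] g) (w : ℂ) : Measurable[m] (fun ω => f ω * (ip w (g ω) / ‖g ω‖)) := by
  have h1 : Measurable[m] (fun ω => ip w (g ω)) := by
    unfold ip
    exact ((Complex.measurable_re.comp hg).const_mul _).add
      ((Complex.measurable_im.comp hg).const_mul _)
  have h2 : Measurable[m] (fun ω => ‖g ω‖) := measurable_norm.comp hg
  exact hf.mul (h1.div h2)

lemma ip_div_le (w z : ℂ) : |ip w z / ‖z‖| ≤ ‖w‖ := by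
  rcases eq_or_ne z 0 with rfl | hz
  · simp
  have hp : 0 < ‖z‖ := norm_pos_iff.2 hz
  rw [abs_div, abs_norm, div_le_iff₀ hp]
  exact ip_le _ _

/-- submartingale step -/
lemma step_nonneg {P : Measure Ω} [IsProbabilityMeasure P] {ε : ι → Ω → ℝ} (hε : Noise P ε)
    (a : ι → ℂ) {A B : Finset ι} (hAB : A ⊆ B) {M : Ω → ℝ} (hM : Measurable[sg ε A] M)
    (hM0 : ∀ ω, 0 ≤ M ω) {C : ℝ} (hMC : ∀ ω, |M ω| ≤ C) :
    0 ≤ ∫ ω, M ω * (‖pX ε a B ω‖ - ‖pX ε a A ω‖) ∂P := by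
  classical
  set X := pX ε a A with hX
  have hXs : Measurable[sg ε A] X := pX_meas_sg ε a A
  have hXm : Measurable X := pX_meas hε a A
  have hMm : Measurable M := hM.mono (sg_le hε.meas _) le_rfl
  have hC : 0 ≤ C ∨ IsEmpty Ω := by
    rcases isEmpty_or_nonempty Ω with h | ⟨⟨ω⟩⟩
    · exact Or.inr h
    · exact Or.inl ((abs_nonneg _).trans (hMC ω))
  rcases hC with hC | hC
  swap
  · exact integral_nonneg fun ω => (hC.false ω).elim
  have hint : ∀ i, Integrable (fun ω => (M ω * (ip (a i) (X ω) / ‖X ω‖)) * ε i ω) P := by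
    intro i
    refine int_of_bdd ((phi_meas hMm hXm _).mul (hε.meas i)) (C * ‖a i‖ * 1) fun ω => ?_
    rw [abs_mul, abs_mul]
    exact mul_le_mul (mul_le_mul (hMC ω) (ip_div_le _ _) (abs_nonneg _) hC) (hε.bdd i ω)
      (abs_nonneg _) (by positivity)
  have h0 : ∫ ω, ∑ i ∈ B \ A, (M ω * (ip (a i) (X ω) / ‖X ω‖)) * ε i ω ∂P = 0 := by
    rw [integral_finsetSum _ fun i _ => hint i]
    refine Finset.sum_eq_zero fun i hi => ?_
    exact orth0 hε (A := (A : Set ι)) (by simpa using (Finset.mem_sdiff.1 hi).2)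
      (phi_meas hM hXs _)
  rw [← h0]
  refine integral_mono (integrable_finsetSum _ fun i _ => hint i) ?_ fun ω => ?_
  · have hb : ∀ ω, |‖pX ε a B ω‖ - ‖X ω‖| ≤ ∑ i ∈ B, ‖a i‖ + ∑ i ∈ A, ‖a i‖ := fun ω => by
      refine (abs_sub _ _).trans ?_
      rw [abs_norm, abs_norm]
      exact add_le_add (pX_bdd hε a B ω) (pX_bdd hε a A ω)
    refine int_of_bdd (hMm.mul ((pX_meas hε a B).norm.sub hXm.norm))
      (C * (∑ i ∈ B, ‖a i‖ + ∑ i ∈ A, ‖a i‖)) fun ω => ?_
    rw [abs_mul]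
    exact mul_le_mul (hMC ω) (hb ω) (abs_nonneg _) hC
  · simp only
    have hdec : pX ε a B ω = X ω + pX ε a (B \ A) ω := by
      rw [hX, pX, pX, pX, add_comm, Finset.sum_sdiff hAB]
    have h1 := norm_add_ge (X ω) (pX ε a (B \ A) ω)
    rw [← hdec] at h1
    have h2 : ip (pX ε a (B \ A) ω) (X ω) = ∑ i ∈ B \ A, ip (a i) (X ω) * ε i ω := by
      rw [pX, ip, Complex.re_sum, Complex.im_sum, Finset.sum_mul, Finset.sum_mul,
        ← Finset.sum_add_distrib]
      refine Finset.sum_congr rfl fun j _ => ?_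
      rw [ip]; simp; ring
    have h3 : ∑ i ∈ B \ A, (M ω * (ip (a i) (X ω) / ‖X ω‖)) * ε i ω =
        M ω * (ip (pX ε a (B \ A) ω) (X ω) / ‖X ω‖) := by
      rw [h2, Finset.sum_div, Finset.mul_sum]
      refine Finset.sum_congr rfl fun j _ => ?_
      ring
    rw [h3]
    exact mul_le_mul_of_nonneg_left (by linarith) (hM0 ω)

/-- Doob's inequality, finite version -/
lemma doob_fin {P : Measure Ω} [IsProbabilityMeasure P] {ε : ι → Ω → ℝ} (hε : Noise P ε)
    (a : ι → ℂ) {A : ℕ → Finset ι} (hA : Monotone A) (n : ℕ) :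
    ∫ ω, am (fun k => ‖pX ε a (A k) ω‖) n ^ 2 ∂P ≤ 4 * ∑ i ∈ A n, ‖a i‖ ^ 2 := by
  set Y : Ω → ℕ → ℝ := fun ω k => ‖pX ε a (A k) ω‖ with hY
  have hYb : ∀ ω k, k ≤ n → Y ω k ≤ ∑ i ∈ A n, ‖a i‖ := fun ω k hk =>
    (pX_bdd hε a _ ω).trans (Finset.sum_le_sum_of_subset_of_nonneg (hA hk)
      fun i _ _ => norm_nonneg _)
  set C := ∑ i ∈ A n, ‖a i‖ with hC
  have hC0 : 0 ≤ C := Finset.sum_nonneg fun i _ => norm_nonneg _
  have hYm : ∀ k, Measurable (fun ω => Y ω k) := fun k => (pX_meas hε a (A k)).norm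
  have hYs : ∀ k, Measurable[sg ε (A k)] (fun ω => Y ω k) := fun k =>
    measurable_norm.comp (pX_meas_sg ε a (A k))
  have hamm : ∀ k, Measurable (fun ω => am (Y ω) k) := fun k =>
    am_meas (Y := fun j ω => Y ω j) k fun j _ => hYm j
  have hams : ∀ k, Measurable[sg ε (A k)] (fun ω => am (Y ω) k) := fun k =>
    am_meas (Y := fun j ω => Y ω j) k fun j hj =>
      (hYs j).mono (sg_mono ε (Finset.coe_subset.2 (hA hj))) le_rfl
  have hamb : ∀ ω k, k ≤ n → |am (Y ω) k| ≤ C := fun ω k hk =>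
    am_bdd k (fun _ => norm_nonneg _) fun j hj => hYb ω j (hj.trans hk)
  have ham0 : ∀ ω k, 0 ≤ am (Y ω) k := fun ω k =>
    (norm_nonneg (pX ε a (A k) ω)).trans (le_am (Y ω) k k le_rfl)
  have istep : ∀ i ∈ range n, Integrable (fun ω => am (Y ω) i * (Y ω (i + 1) - Y ω i)) P := by
    intro i hi
    have hi' := Finset.mem_range.1 hi
    refine int_of_bdd ((hamm i).mul ((hYm (i + 1)).sub (hYm i))) (C * (C + C)) fun ω => ?_
    rw [abs_mul]
    refine mul_le_mul (hamb ω i hi'.le) ?_ (abs_nonneg _) hC0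
    refine (abs_sub _ _).trans (add_le_add ?_ ?_)
    · rw [abs_of_nonneg (norm_nonneg _)]; exact hYb ω (i + 1) hi'
    · rw [abs_of_nonneg (norm_nonneg _)]; exact hYb ω i hi'.le
  have hsum : 0 ≤ ∫ ω, ∑ i ∈ range n, am (Y ω) i * (Y ω (i + 1) - Y ω i) ∂P := by
    rw [integral_finsetSum _ istep]
    refine Finset.sum_nonneg fun i hi => ?_
    exact step_nonneg hε a (hA (Nat.le_succ i)) (hams i) (fun ω => ham0 ω i)
      (fun ω => hamb ω i (Finset.mem_range.1 hi).le)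
  have iam : Integrable (fun ω => am (Y ω) n ^ 2) P :=
    int_of_bdd ((hamm n).pow_const 2) (C ^ 2) fun ω => by
      rw [abs_pow]; exact pow_le_pow_left₀ (abs_nonneg _) (hamb ω n le_rfl) 2
  have iY : Integrable (fun ω => Y ω n ^ 2) P :=
    int_of_bdd ((hYm n).pow_const 2) (C ^ 2) fun ω => by
      rw [abs_of_nonneg (sq_nonneg _)]
      exact pow_le_pow_left₀ (norm_nonneg _) (hYb ω n le_rfl) 2
  have hle : ∫ ω, ∑ i ∈ range n, am (Y ω) i * (Y ω (i + 1) - Y ω i) ∂P ≤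
      ∫ ω, (Y ω n ^ 2 - am (Y ω) n ^ 2 * (1 / 4)) ∂P := by
    refine integral_mono (integrable_finsetSum _ istep) (iY.sub (iam.mul_const _)) fun ω => ?_
    simp only
    have h1 := am_path (Y ω) n
    nlinarith [sq_nonneg (am (Y ω) n - 2 * Y ω n), sq_nonneg (Y ω 0)]
  rw [integral_sub iY (iam.mul_const _), integral_mul_const] at hle
  have h2 := second hε a (A n)
  have h3 : ∫ ω, Y ω n ^ 2 ∂P ≤ ∑ i ∈ A n, ‖a i‖ ^ 2 := h2
  linarith

/-- **Doob's inequality** -/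
theorem doob {P : Measure Ω} [IsProbabilityMeasure P] {ε : ι → Ω → ℝ} (hε : Noise P ε)
    (a : ι → ℂ) {A : ℕ → Finset ι} (hA : Monotone A) :
    ∫⁻ ω, ⨆ k, ‖pX ε a (A k) ω‖ₑ ^ 2 ∂P ≤ 4 * ∑' i, ‖a i‖ₑ ^ 2 := by
  set Y : Ω → ℕ → ℝ := fun ω k => ‖pX ε a (A k) ω‖ with hY
  have hYm : ∀ k, Measurable (fun ω => Y ω k) := fun k => (pX_meas hε a (A k)).norm
  have hamm : ∀ k, Measurable (fun ω => am (Y ω) k) := fun k =>
    am_meas (Y := fun j ω => Y ω j) k fun j _ => hYm j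
  have ham0 : ∀ ω k, 0 ≤ am (Y ω) k := fun ω k =>
    (norm_nonneg (pX ε a (A k) ω)).trans (le_am (Y ω) k k le_rfl)
  have h1 : ∀ ω, ⨆ k, ‖pX ε a (A k) ω‖ₑ ^ 2 ≤ ⨆ n, ENNReal.ofReal (am (Y ω) n ^ 2) := by
    intro ω
    refine iSup_mono fun k => ?_
    rw [← ofReal_norm, ← ENNReal.ofReal_pow (norm_nonneg _)]
    exact ENNReal.ofReal_le_ofReal (pow_le_pow_left₀ (norm_nonneg _) (le_am (Y ω) k k le_rfl) 2)
  refine (lintegral_mono h1).trans ?_
  rw [lintegral_iSup]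
  · refine iSup_le fun n => ?_
    have hb : Integrable (fun ω => am (Y ω) n ^ 2) P := by
      refine int_of_bdd ((hamm n).pow_const 2) ((∑ i ∈ A n, ‖a i‖) ^ 2) fun ω => ?_
      rw [abs_pow]
      refine pow_le_pow_left₀ (abs_nonneg _) (am_bdd n (fun _ => norm_nonneg _) fun k hk => ?_) 2
      exact (pX_bdd hε a _ ω).trans (Finset.sum_le_sum_of_subset_of_nonneg (hA hk)
        fun i _ _ => norm_nonneg _)
    rw [← ofReal_integral_eq_lintegral_ofReal hb (Eventually.of_forall fun ω => sq_nonneg _)]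
    refine (ENNReal.ofReal_le_ofReal (doob_fin hε a hA n)).trans ?_
    rw [ENNReal.ofReal_mul (by norm_num), ENNReal.ofReal_sum_of_nonneg (fun i _ => by positivity)]
    have : ENNReal.ofReal 4 = 4 := by simp
    rw [this]
    refine mul_le_mul_right ?_ _
    refine le_trans (le_of_eq ?_) (ENNReal.sum_le_tsum (A n))
    refine Finset.sum_congr rfl fun i _ => ?_
    rw [ENNReal.ofReal_pow (norm_nonneg _), ofReal_norm]
  · intro n; exact ((hamm n).pow_const 2).ennreal_ofReal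
  · intro n k hnk ω
    refine ENNReal.ofReal_le_ofReal (pow_le_pow_left₀ (ham0 ω n) ?_ 2)
    have hmono : Monotone (am (Y ω)) := monotone_nat_of_le_succ fun i => le_max_left _ _
    exact hmono hnk

/-- the fourth moment as a lower integral -/
theorem fourth_l {P : Measure Ω} [IsProbabilityMeasure P] {ε : ι → Ω → ℝ} (hε : Noise P ε)
    (a : ι → ℂ) (A : Finset ι) :
    ∫⁻ ω, ‖pX ε a A ω‖ₑ ^ 4 ∂P ≤ 3 * (∑ i ∈ A, ‖a i‖ₑ ^ 2) ^ 2 := by
  have hb : Integrable (fun ω => ‖pX ε a A ω‖ ^ 4) P := by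
    refine int_of_bdd ((pX_meas hε a _).norm.pow_const 4) ((∑ i ∈ A, ‖a i‖) ^ 4) fun ω => ?_
    rw [abs_of_nonneg (by positivity)]
    exact pow_le_pow_left₀ (norm_nonneg _) (pX_bdd hε a _ ω) 4
  have h1 := ENNReal.ofReal_le_ofReal (fourth hε a A)
  rw [ofReal_integral_eq_lintegral_ofReal hb (Eventually.of_forall fun ω => by positivity)] at h1
  have e1 : ∀ ω, ENNReal.ofReal (‖pX ε a A ω‖ ^ 4) = ‖pX ε a A ω‖ₑ ^ 4 := fun ω => by
    rw [ENNReal.ofReal_pow (norm_nonneg _), ofReal_norm]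
  simp_rw [e1] at h1
  refine h1.trans (le_of_eq ?_)
  rw [ENNReal.ofReal_mul (by norm_num), ENNReal.ofReal_pow
    (Finset.sum_nonneg fun i _ => by positivity), ENNReal.ofReal_sum_of_nonneg
    (fun i _ => by positivity)]
  have : ENNReal.ofReal 3 = 3 := by simp
  rw [this]
  congr 2
  refine Finset.sum_congr rfl fun i _ => ?_
  rw [ENNReal.ofReal_pow (norm_nonneg _), ofReal_norm]

end Pool.Agent.Helper93.Sph
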