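import Mathlib
import Pool.Agent.Helper93.Sph.G
import Pool.Agent.Helper93.Sph.P2

/-! Random radial signs: maximal inequality and almost sure convergence. -/

set_option autoImplicit false

open MeasureTheory ProbabilityTheory Real Set Filter Topology
open scoped ENNReal RealInnerProductSpace

namespace Pool.Agent.Helper93.Sph

/-- convergence from small oscillation beyond some radii -/
lemma conv_of_small {S : ℝ → ℂ} (h : ∀ δ > 0, ∃ c, ∀ R ≥ c, ‖S R - S c‖ ≤ δ) :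
    ∃ L, Tendsto S atTop (𝓝 L) := by
  refine cauchySeq_tendsto_of_complete (Metric.cauchySeq_iff'.2 fun δ hδ => ?_)
  obtain ⟨c, hc⟩ := h (δ / 2) (by positivity)
  refine ⟨c, fun R hR => ?_⟩
  rw [dist_eq_norm]
  exact (hc R hR).trans_lt (by linarith)

/-- the radially modulated function -/
noncomputable def rG {n : ℕ} (h : ℝ) (e : ℕ → ℝ) (G : En n → ℂ) : En n → ℂ :=
  fun ξ => (e ⌊‖ξ‖ / h⌋₊ : ℂ) * G ξ

lemma rG_memLp {n : ℕ} (h : ℝ) {e : ℕ → ℝ} (he : ∀ k, |e k| ≤ 1) {G : En n → ℂ}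
    (hG : MemLp G 2) : MemLp (rG h e G) 2 := by
  refine hG.of_le ?_ (Eventually.of_forall fun ξ => ?_)
  · refine AEStronglyMeasurable.mul ?_ hG.aestronglyMeasurable
    have h1 : Measurable (fun ξ : En n => ⌊‖ξ‖ / h⌋₊) :=
      Nat.measurable_floor.comp (measurable_norm.div_const h)
    have h2 : Measurable (fun k : ℕ => (e k : ℂ)) := measurable_from_nat
    exact (h2.comp h1).aestronglyMeasurable
  · rw [rG, norm_mul, Complex.norm_real, Real.norm_eq_abs]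
    exact mul_le_of_le_one_left (norm_nonneg _) (he _)

/-- increments over the annuli -/
noncomputable def ann {n : ℕ} (h : ℝ) (G : En n → ℂ) (x : En n) (j : ℕ) : ℂ :=
  ps G (h * (j + 1 : ℕ)) x - ps G (h * j) x

lemma rG_incr {m : ℕ} {h : ℝ} (hh : 0 < h) {e : ℕ → ℝ} (he : ∀ k, |e k| ≤ 1)
    {G : En (m + 1) → ℂ} (hG : MemLp G 2) (x : En (m + 1)) (k : ℕ) {R : ℝ} (h1 : h * k ≤ R)
    (h2 : R ≤ h * (k + 1 : ℕ)) :
    ps (rG h e G) R x - ps (rG h e G) (h * k) x = (e k : ℂ) * (ps G R x - ps G (h * k) x) := by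
  rw [ps_sub (rG_memLp h he hG) (by positivity) h1, ps_sub hG (by positivity) h1, Fi, Fi,
    ← integral_const_mul]
  refine integral_congr_ae (Eventually.of_forall fun ξ => ?_)
  simp only
  by_cases hξ : ξ ∈ shell (m + 1) (h * k) R
  · rw [indicator_of_mem hξ, indicator_of_mem hξ, rG]
    have hfl : ⌊‖ξ‖ / h⌋₊ = k := by
      rw [Nat.floor_eq_iff (by positivity), le_div_iff₀ hh, div_lt_iff₀ hh]
      obtain ⟨a1, a2⟩ := hξ
      push_cast at h2
      constructor <;> nlinarith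
    rw [hfl]; ring
  · rw [indicator_of_notMem hξ, indicator_of_notMem hξ]; simp

lemma ps_zero {m : ℕ} (G : En (m + 1) → ℂ) (x : En (m + 1)) : ps G 0 x = 0 := by
  have h1 : shell (m + 1) 0 0 = ∅ := by
    ext ξ; simp only [shell, mem_ofPred_eq, mem_empty_iff_false, iff_false]
    rintro ⟨h1, h2⟩; linarith
  rw [ps_eq, h1, Fi]; simp

lemma ps_neg {n : ℕ} (G : En n → ℂ) {R : ℝ} (hR : R < 0) (x : En n) : ps G R x = 0 := by
  rw [ps, Metric.closedBall_eq_empty.2 hR]; simp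

lemma rG_sum {Ω : Type*} {m : ℕ} {h : ℝ} (hh : 0 < h) {ε : ℕ → Ω → ℝ} (he : ∀ k ω, |ε k ω| ≤ 1)
    {G : En (m + 1) → ℂ} (hG : MemLp G 2) (x : En (m + 1)) (ω : Ω) (k : ℕ) :
    ps (rG h (fun j => ε j ω) G) (h * k) x = pX ε (ann h G x) (Finset.range k) ω := by
  induction k with
  | zero => simp [pX, ps_zero]
  | succ k ih =>
    have h1 := rG_incr hh (fun j => he j ω) hG x k (R := h * (k + 1 : ℕ))
      (by push_cast; nlinarith) le_rfl
    rw [sub_eq_iff_eq_add] at h1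
    rw [h1, ih, pX, pX, Finset.sum_range_succ, ann]
    ring

lemma sub_le_energy {m : ℕ} {G : En (m + 1) → ℂ} (hG : MemLp G 2) (x : En (m + 1)) {R R' : ℝ}
    (h0 : 0 ≤ R) (h : R ≤ R') :
    ‖ps G R' x - ps G R x‖ₑ ^ 2 ≤ ENNReal.ofReal (R' - R) * energy G x := by
  rcases h.eq_or_lt with rfl | hlt
  · simp
  have h1 := energy_partition hG x (fun i => if i = 0 then R else R')
    (by
      refine monotone_nat_of_le_succ fun i => ?_
      simp only [Nat.succ_ne_zero, if_false]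
      split_ifs
      · exact h
      · exact le_rfl) (by simpa using h0) 1
  simp only [Finset.sum_range_one, Nat.zero_add, one_ne_zero, if_false, if_true] at h1
  have h2 : ENNReal.ofReal (R' - R) ≠ 0 := by simpa using hlt
  calc ‖ps G R' x - ps G R x‖ₑ ^ 2 = ENNReal.ofReal (R' - R) *
        (‖ps G R' x - ps G R x‖ₑ ^ 2 / ENNReal.ofReal (R' - R)) :=
        (ENNReal.mul_div_cancel h2 ENNReal.ofReal_ne_top).symm
    _ ≤ _ := mul_le_mul_right h1 _

lemma ann_sum {m : ℕ} {h : ℝ} (hh : 0 < h) {G : En (m + 1) → ℂ} (hG : MemLp G 2)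
    (x : En (m + 1)) : ∑' j, ‖ann h G x j‖ₑ ^ 2 ≤ ENNReal.ofReal h * energy G x := by
  have h2 : ENNReal.ofReal h ≠ 0 := by simpa using hh
  have h1 : ∀ N : ℕ, ∑ j ∈ Finset.range N, ‖ann h G x j‖ₑ ^ 2 / ENNReal.ofReal h
      ≤ energy G x := by
    intro N
    have := energy_partition hG x (fun i : ℕ => h * (i : ℝ)) (by
      intro a b hab
      exact mul_le_mul_of_nonneg_left (by exact_mod_cast hab) hh.le) (by simp) N
    refine le_trans (le_of_eq ?_) this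
    refine Finset.sum_congr rfl fun i _ => ?_
    rw [ann]
    congr 2
    push_cast; ring
  rw [ENNReal.tsum_eq_iSup_nat]
  refine iSup_le fun N => ?_
  calc ∑ a ∈ Finset.range N, ‖ann h G x a‖ₑ ^ 2
      = ENNReal.ofReal h * ∑ j ∈ Finset.range N, ‖ann h G x j‖ₑ ^ 2 / ENNReal.ofReal h := by
        rw [Finset.mul_sum]
        refine Finset.sum_congr rfl fun i _ => ?_
        exact (ENNReal.mul_div_cancel h2 ENNReal.ofReal_ne_top).symm
    _ ≤ _ := mul_le_mul_right (h1 N) _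

variable {Ω : Type*} [MeasurableSpace Ω]

/-- the majorant -/
noncomputable def maj {n : ℕ} (h : ℝ) (ε : ℕ → Ω → ℝ) (G : En n → ℂ) (ω : Ω) (x : En n) : ℝ≥0∞ :=
  2 * (⨆ k, ‖pX ε (ann h G x) (Finset.range k) ω‖ₑ ^ 2) + 2 * (ENNReal.ofReal h * energy G x)

omit [MeasurableSpace Ω] in
lemma maj_bound {m : ℕ} {h : ℝ} (hh : 0 < h) {ε : ℕ → Ω → ℝ} (he : ∀ k ω, |ε k ω| ≤ 1)
    {G : En (m + 1) → ℂ} (hG : MemLp G 2) (x : En (m + 1)) (ω : Ω) (R : ℝ) :
    ‖ps (rG h (fun j => ε j ω) G) R x‖ₑ ^ 2 ≤ maj h ε G ω x := by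
  rcases lt_or_ge R 0 with hR | hR
  · rw [ps_neg _ hR]; simp
  set k := ⌊R / h⌋₊ with hk
  have a1 : (k : ℝ) ≤ R / h := Nat.floor_le (by positivity)
  have a2 : R / h < (k : ℝ) + 1 := Nat.lt_floor_add_one _
  rw [le_div_iff₀ hh] at a1
  rw [div_lt_iff₀ hh] at a2
  have b1 : h * k ≤ R := by linarith
  have b2 : R ≤ h * (k + 1 : ℕ) := by push_cast; linarith
  have h1 := rG_incr hh (fun j => he j ω) hG x k b1 b2
  rw [sub_eq_iff_eq_add] at h1
  rw [h1]
  refine (enorm_add_sq_le _ _).trans ?_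
  rw [mul_add, add_comm, maj]
  refine add_le_add (mul_le_mul_right ?_ _) (mul_le_mul_right ?_ _)
  · rw [rG_sum hh he hG x ω k]
    exact le_iSup (fun k => ‖pX ε (ann h G x) (Finset.range k) ω‖ₑ ^ 2) k
  · rw [enorm_mul, mul_pow]
    have h2 : ‖((ε k ω : ℝ) : ℂ)‖ₑ ≤ 1 := by
      rw [← ofReal_norm, Complex.norm_real, Real.norm_eq_abs]
      exact ENNReal.ofReal_le_one.2 (he k ω)
    calc ‖((ε k ω : ℝ) : ℂ)‖ₑ ^ 2 * ‖ps G R x - ps G (h * k) x‖ₑ ^ 2
        ≤ 1 * ‖ps G R x - ps G (h * k) x‖ₑ ^ 2 := mul_le_mul_left (pow_le_one₀ (by simp) h2) _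
      _ = ‖ps G R x - ps G (h * k) x‖ₑ ^ 2 := one_mul _
      _ ≤ ENNReal.ofReal (R - h * k) * energy G x := sub_le_energy hG x (by positivity) b1
      _ ≤ _ := mul_le_mul_left (ENNReal.ofReal_le_ofReal (by linarith)) _

lemma maj_meas {P : Measure Ω} {m : ℕ} {h : ℝ} {ε : ℕ → Ω → ℝ} (hε : Noise P ε)
    {G : En (m + 1) → ℂ} (hG : MemLp G 2) :
    Measurable (fun z : Ω × En (m + 1) => maj h ε G z.1 z.2) := by
  unfold maj
  refine Measurable.add (Measurable.const_mul (Measurable.iSup fun k => ?_) _)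
    (Measurable.const_mul (Measurable.const_mul ((energy_meas hG).comp measurable_snd) _) _)
  refine Measurable.pow_const (Measurable.enorm ?_) 2
  unfold pX
  refine Finset.measurable_sum _ fun i _ => ?_
  refine Measurable.mul ?_ ?_
  · exact Complex.measurable_ofReal.comp ((hε.meas i).comp measurable_fst)
  · unfold ann
    exact (((ps_cont_x hG _).sub (ps_cont_x hG _)).measurable).comp measurable_snd

lemma maj_int_ω {P : Measure Ω} [IsProbabilityMeasure P] {m : ℕ} {h : ℝ} (hh : 0 < h)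
    {ε : ℕ → Ω → ℝ} (hε : Noise P ε) {G : En (m + 1) → ℂ} (hG : MemLp G 2) (x : En (m + 1)) :
    ∫⁻ ω, maj h ε G ω x ∂P ≤ ENNReal.ofReal (10 * h) * energy G x := by
  unfold maj
  rw [lintegral_add_right _ measurable_const, lintegral_const_mul' _ _ (by simp), lintegral_const,
    measure_univ, mul_one]
  have h1 := doob hε (ann h G x) Finset.range_mono
  have h2 := ann_sum hh hG x
  calc 2 * ∫⁻ ω, ⨆ k, ‖pX ε (ann h G x) (Finset.range k) ω‖ₑ ^ 2 ∂P +
        2 * (ENNReal.ofReal h * energy G x)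
      ≤ 2 * (4 * (ENNReal.ofReal h * energy G x)) + 2 * (ENNReal.ofReal h * energy G x) :=
        add_le_add (mul_le_mul_right (h1.trans (mul_le_mul_right h2 _)) _) le_rfl
    _ = _ := by
        rw [ENNReal.ofReal_mul (by norm_num)]
        have : ENNReal.ofReal 10 = 10 := by simp
        rw [this]
        ring

theorem maj_int {P : Measure Ω} [IsProbabilityMeasure P] {m : ℕ} {h : ℝ} (hh : 0 < h)
    {ε : ℕ → Ω → ℝ} (hε : Noise P ε) {G : En (m + 1) → ℂ} (hG : MemLp G 2) (x₀ : En (m + 1))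
    {ρ : ℝ} (hρ : 0 < ρ) :
    ∫⁻ x in Metric.closedBall x₀ ρ, ∫⁻ ω, maj h ε G ω x ∂P
      ≤ ENNReal.ofReal (100 * (m + 1) * √(m + 1) * ρ * h) * ∫⁻ ξ, ‖G ξ‖ₑ ^ 2 := by
  refine (lintegral_mono fun x => maj_int_ω hh hε hG x).trans ?_
  rw [lintegral_const_mul' _ _ ENNReal.ofReal_ne_top]
  refine (mul_le_mul_right (energy_bound hG x₀ hρ) _).trans (le_of_eq ?_)
  rw [← mul_assoc, ← ENNReal.ofReal_mul (by positivity)]
  congr 2
  ring

/-- the part of `G` beyond radius `c` -/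
noncomputable def tail {n : ℕ} (c : ℝ) (G : En n → ℂ) : En n → ℂ :=
  {ξ : En n | c ≤ ‖ξ‖}.indicator G

lemma tail_set_meas {n : ℕ} (c : ℝ) : MeasurableSet {ξ : En n | c ≤ ‖ξ‖} :=
  measurableSet_le measurable_const measurable_norm

lemma tail_memLp {n : ℕ} (c : ℝ) {G : En n → ℂ} (hG : MemLp G 2) : MemLp (tail c G) 2 :=
  hG.indicator (tail_set_meas c)

lemma sq_fin {n : ℕ} {G : En n → ℂ} (hG : MemLp G 2) : ∫⁻ ξ, ‖G ξ‖ₑ ^ 2 ≠ ⊤ := by
  have := hG.eLpNorm_lt_top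
  rw [eLpNorm_lt_top_iff_lintegral_rpow_enorm_lt_top (by norm_num) (by norm_num)] at this
  simpa using this.ne

lemma tail_tendsto {n : ℕ} {G : En n → ℂ} (hG : MemLp G 2) {c : ℕ → ℝ}
    (hc : Tendsto c atTop atTop) :
    Tendsto (fun k => ∫⁻ ξ, ‖tail (c k) G ξ‖ₑ ^ 2) atTop (𝓝 0) := by
  have h0 : (0 : ℝ≥0∞) = ∫⁻ _ξ : En n, (0 : ℝ≥0∞) := by simp
  rw [h0]
  refine tendsto_lintegral_of_dominated_convergence' (fun ξ => ‖G ξ‖ₑ ^ 2) ?_ ?_ (sq_fin hG) ?_
  · intro k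
    exact ((tail_memLp (c k) hG).aestronglyMeasurable.enorm.pow_const 2)
  · intro k
    refine Eventually.of_forall fun ξ => ?_
    simp only [tail]
    by_cases h : ξ ∈ {ξ : En n | c k ≤ ‖ξ‖}
    · rw [indicator_of_mem h]
    · rw [indicator_of_notMem h]; simp
  · refine Eventually.of_forall fun ξ => ?_
    refine tendsto_const_nhds.congr' ?_
    filter_upwards [hc.eventually_gt_atTop ‖ξ‖] with k hk
    have h : ξ ∉ {ξ : En n | c k ≤ ‖ξ‖} := not_le.2 hk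
    rw [tail, indicator_of_notMem h]; simp

lemma tail_ps {m : ℕ} {G : En (m + 1) → ℂ} (hG : MemLp G 2) {c R : ℝ} (h0 : 0 ≤ c) (h : c ≤ R)
    (x : En (m + 1)) : ps (tail c G) R x = ps G R x - ps G c x := by
  rw [ps_sub hG h0 h, ps_eq]
  congr 1
  ext ξ
  by_cases h1 : c ≤ ‖ξ‖
  · have h1' : ξ ∈ {ξ : En (m + 1) | c ≤ ‖ξ‖} := h1
    by_cases h2 : ‖ξ‖ < R
    · rw [indicator_of_mem (show ξ ∈ shell (m + 1) c R from ⟨h1, h2⟩),
        indicator_of_mem (show ξ ∈ shell (m + 1) 0 R from ⟨norm_nonneg _, h2⟩), tail,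
        indicator_of_mem h1']
    · rw [indicator_of_notMem (show ξ ∉ shell (m + 1) c R from fun h' => h2 h'.2),
        indicator_of_notMem (show ξ ∉ shell (m + 1) 0 R from fun h' => h2 h'.2)]
  · have h1' : ξ ∉ {ξ : En (m + 1) | c ≤ ‖ξ‖} := h1
    rw [indicator_of_notMem (show ξ ∉ shell (m + 1) c R from fun h' => h1 h'.1)]
    by_cases h2 : ξ ∈ shell (m + 1) 0 R
    · rw [indicator_of_mem h2, tail, indicator_of_notMem h1']
    · rw [indicator_of_notMem h2]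

lemma rG_tail {n : ℕ} (h : ℝ) (e : ℕ → ℝ) (c : ℝ) (G : En n → ℂ) :
    rG h e (tail c G) = tail c (rG h e G) := by
  ext ξ
  by_cases h1 : ξ ∈ {ξ : En n | c ≤ ‖ξ‖}
  · simp only [rG, tail, indicator_of_mem h1]
  · simp only [rG, tail, indicator_of_notMem h1, mul_zero]

/-- almost sure convergence -/
theorem rad_conv {P : Measure Ω} [IsProbabilityMeasure P] {m : ℕ} {h : ℝ} (hh : 0 < h)
    {ε : ℕ → Ω → ℝ} (hε : Noise P ε) {G : En (m + 1) → ℂ} (hG : MemLp G 2) :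
    ∀ᵐ ω ∂P, ∀ᵐ x : En (m + 1), ∃ L : ℂ,
      Tendsto (fun R : ℝ => ps (rG h (fun j => ε j ω) G) R x) atTop (𝓝 L) := by
  have key : ∀ ρ : ℕ, ∀ᵐ ω ∂P, ∀ᵐ x ∂(volume.restrict (Metric.closedBall (0 : En (m + 1)) (ρ + 1))),
      ∃ L : ℂ, Tendsto (fun R : ℝ => ps (rG h (fun j => ε j ω) G) R x) atTop (𝓝 L) := by
    intro ρ
    set B := Metric.closedBall (0 : En (m + 1)) ((ρ : ℝ) + 1) with hB
    set F : ℕ → Ω × En (m + 1) → ℝ≥0∞ := fun k z => maj h ε (tail (k : ℝ) G) z.1 z.2 with hF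
    have hFm : ∀ k, Measurable (F k) := fun k => maj_meas hε (tail_memLp _ hG)
    have hbound : ∀ k, ∫⁻ z, F k z ∂(P.prod (volume.restrict B)) ≤
        ENNReal.ofReal (100 * (m + 1) * √(m + 1) * ((ρ : ℝ) + 1) * h) *
          ∫⁻ ξ, ‖tail (k : ℝ) G ξ‖ₑ ^ 2 := by
      intro k
      rw [lintegral_prod_symm' _ (hFm k)]
      exact maj_int hh hε (tail_memLp _ hG) 0 (by positivity)
    have hz : ∫⁻ z, ⨅ k, F k z ∂(P.prod (volume.restrict B)) = 0 := by
      have h1 : ∀ k : ℕ, ∫⁻ z, ⨅ k, F k z ∂(P.prod (volume.restrict B)) ≤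
          ENNReal.ofReal (100 * (m + 1) * √(m + 1) * ((ρ : ℝ) + 1) * h) *
          ∫⁻ ξ, ‖tail (k : ℝ) G ξ‖ₑ ^ 2 := fun k =>
        (lintegral_mono fun z => iInf_le _ k).trans (hbound k)
      have h2 := ENNReal.Tendsto.const_mul
        (a := ENNReal.ofReal (100 * (m + 1) * √(m + 1) * ((ρ : ℝ) + 1) * h))
        (tail_tendsto hG tendsto_natCast_atTop_atTop) (Or.inr ENNReal.ofReal_ne_top)
      rw [mul_zero] at h2
      exact le_antisymm (ge_of_tendsto' h2 h1) zero_le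
    rw [lintegral_eq_zero_iff (Measurable.iInf hFm)] at hz
    have h3 := Measure.ae_ae_of_ae_prod hz
    filter_upwards [h3] with ω hω
    filter_upwards [hω] with x hx
    simp only [Pi.zero_apply, hF] at hx
    refine conv_of_small fun δ hδ => ?_
    have h4 : (⨅ k : ℕ, maj h ε (tail (k : ℝ) G) ω x) < ENNReal.ofReal (δ ^ 2) := by
      rw [hx]; simpa using pow_pos hδ 2
    obtain ⟨k, hk⟩ := iInf_lt_iff.1 h4
    refine ⟨(k : ℝ), fun R hR => ?_⟩
    have h5 := maj_bound hh hε.bdd (tail_memLp (k : ℝ) hG) x ω R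
    rw [rG_tail, tail_ps (rG_memLp h (fun j => hε.bdd j ω) hG) (Nat.cast_nonneg k) hR] at h5
    have h6 := (h5.trans_lt hk).le
    rw [← ofReal_norm, ← ENNReal.ofReal_pow (norm_nonneg _),
      ENNReal.ofReal_le_ofReal_iff (by positivity)] at h6
    exact le_of_sq_le_sq h6 hδ.le
  filter_upwards [ae_all_iff.2 key] with ω hω
  have h1 : ∀ ρ : ℕ, ∀ᵐ x : En (m + 1), x ∈ Metric.closedBall (0 : En (m + 1)) (ρ + 1) →
      ∃ L : ℂ, Tendsto (fun R : ℝ => ps (rG h (fun j => ε j ω) G) R x) atTop (𝓝 L) := fun ρ =>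
    (ae_restrict_iff' Metric.isClosed_closedBall.measurableSet).1 (hω ρ)
  filter_upwards [ae_all_iff.2 h1] with x hx
  obtain ⟨k, hk⟩ := exists_nat_ge ‖x‖
  exact hx k (by simp; linarith)

end Pool.Agent.Helper93.Sph
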