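import Mathlib
import Pool.Agent.Helper93.Sph.R

/-! Bessel's inequality, unit cubes in frequency. -/

set_option autoImplicit false

open MeasureTheory ProbabilityTheory Real Set Filter Topology
open scoped ENNReal RealInnerProductSpace

namespace Pool.Agent.Helper93.Sph

/-- Bessel's inequality with a Gaussian weight -/
lemma bessel_b {n : ℕ} {F : En n → ℂ} (hF : Integrable F) {b : ℝ} (hb0 : 0 < b) :
    ∫⁻ x, ENNReal.ofReal (‖Fi F x‖ ^ 2 * rexp (-b * ‖x‖ ^ 2)) ≤ ∫⁻ ξ, ‖F ξ‖ₑ ^ 2 := by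
  set K : En n → En n → ℝ := fun ξ η =>
    (π / b) ^ ((n : ℝ) / 2) * rexp (-(π ^ 2 / b) * ‖ξ - η‖ ^ 2) with hK
  have hK0 : ∀ ξ η, 0 ≤ K ξ η := fun ξ η => by rw [hK]; positivity
  have hKs : ∀ ξ η, K ξ η = K η ξ := fun ξ η => by simp only [hK, norm_sub_rev ξ η]
  have hKc : Continuous (fun z : En n × En n => K z.1 z.2) := by
    simp only [hK]; fun_prop
  have i1 : Integrable (fun x => ‖Fi F x‖ ^ 2 * rexp (-b * ‖x‖ ^ 2)) := by
    refine (gint hb0).bdd_mul (c := (∫ ξ, ‖F ξ‖) ^ 2) ?_ ?_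
    · exact ((Fi_cont hF).norm.pow 2).aestronglyMeasurable
    · refine Eventually.of_forall fun x => ?_
      rw [norm_pow, norm_norm]
      exact pow_le_pow_left₀ (norm_nonneg _) (Fi_bdd x) 2
  rw [← ofReal_integral_eq_lintegral_ofReal i1 (Eventually.of_forall fun x => by positivity)]
  have s2 : ENNReal.ofReal (∫ x, ‖Fi F x‖ ^ 2 * rexp (-b * ‖x‖ ^ 2)) ≤
      ∫⁻ z : En n × En n, ENNReal.ofReal (‖F z.1‖ * ‖F z.2‖ * K z.1 z.2) := by
    refine (ENNReal.ofReal_le_ofReal (pairing hb0 hF)).trans ?_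
    rw [integral_eq_lintegral_of_nonneg_ae]
    · exact ENNReal.ofReal_toReal_le
    · exact Eventually.of_forall fun z => mul_nonneg (by positivity) (hK0 _ _)
    · rw [Measure.volume_eq_prod]
      exact ((hF.aestronglyMeasurable.norm.comp_fst).mul
        (hF.aestronglyMeasurable.norm.comp_snd)).mul hKc.aestronglyMeasurable
  refine s2.trans ?_
  have hm1 : AEMeasurable (fun z : En n × En n => ‖F z.1‖ₑ ^ 2 * ENNReal.ofReal (K z.1 z.2))
      (volume.prod volume) :=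
    ((hF.aestronglyMeasurable.comp_fst).enorm.pow_const 2).mul
      (ENNReal.measurable_ofReal.comp hKc.measurable).aemeasurable
  have hm2 : AEMeasurable (fun z : En n × En n => ‖F z.2‖ₑ ^ 2 * ENNReal.ofReal (K z.1 z.2))
      (volume.prod volume) :=
    ((hF.aestronglyMeasurable.comp_snd).enorm.pow_const 2).mul
      (ENNReal.measurable_ofReal.comp hKc.measurable).aemeasurable
  have hker : ∀ ξ, ∫⁻ η, ENNReal.ofReal (K ξ η) = 1 := by
    intro ξ
    have hp : 0 < π / b := by positivity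
    simp only [hK]
    simp_rw [ENNReal.ofReal_mul (rpow_nonneg hp.le _)]
    rw [lintegral_const_mul' _ _ ENNReal.ofReal_ne_top, gauss_lint n (by positivity) ξ,
      ← ENNReal.ofReal_mul (rpow_nonneg hp.le _), ← Real.mul_rpow hp.le (by positivity)]
    have : π / b * (π / (π ^ 2 / b)) = 1 := by field_simp
    rw [this, Real.one_rpow, ENNReal.ofReal_one]
  have t1 : ∫⁻ z : En n × En n, ‖F z.1‖ₑ ^ 2 * ENNReal.ofReal (K z.1 z.2)
      ≤ ∫⁻ ξ, ‖F ξ‖ₑ ^ 2 := by
    rw [Measure.volume_eq_prod, lintegral_prod _ hm1]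
    refine lintegral_mono fun ξ => ?_
    simp only
    rw [lintegral_const_mul'', hker, mul_one]
    exact (ENNReal.measurable_ofReal.comp (hKc.comp
        (by fun_prop : Continuous fun η : En n => (ξ, η))).measurable).aemeasurable
  have t2 : ∫⁻ z : En n × En n, ‖F z.2‖ₑ ^ 2 * ENNReal.ofReal (K z.1 z.2)
      ≤ ∫⁻ ξ, ‖F ξ‖ₑ ^ 2 := by
    rw [Measure.volume_eq_prod, lintegral_prod_symm _ hm2]
    refine lintegral_mono fun ξ => ?_
    simp only
    rw [lintegral_const_mul'']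
    · have : ∫⁻ η, ENNReal.ofReal (K η ξ) = 1 := by
        rw [← hker ξ]
        exact lintegral_congr fun η => by rw [hKs η ξ]
      rw [this, mul_one]
    · exact (ENNReal.measurable_ofReal.comp (hKc.comp
        (by fun_prop : Continuous fun η : En n => (η, ξ))).measurable).aemeasurable
  have h1 : ∀ z : En n × En n, ENNReal.ofReal (‖F z.1‖ * ‖F z.2‖ * K z.1 z.2) ≤
      ENNReal.ofReal (1 / 2) * (‖F z.1‖ₑ ^ 2 * ENNReal.ofReal (K z.1 z.2)) +
      ENNReal.ofReal (1 / 2) * (‖F z.2‖ₑ ^ 2 * ENNReal.ofReal (K z.1 z.2)) := by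
    rintro ⟨x, y⟩
    simp only
    rw [← ofReal_norm, ← ofReal_norm, ← ENNReal.ofReal_pow
      (norm_nonneg _), ← ENNReal.ofReal_pow (norm_nonneg _), ← ENNReal.ofReal_mul
      (by positivity), ← ENNReal.ofReal_mul (by positivity), ← ENNReal.ofReal_mul
      (by positivity), ← ENNReal.ofReal_mul (by positivity), ← ENNReal.ofReal_add
      (by have := hK0 x y; positivity) (by have := hK0 x y; positivity)]
    refine ENNReal.ofReal_le_ofReal ?_
    have := hK0 x y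
    nlinarith [mul_nonneg (sq_nonneg (‖F x‖ - ‖F y‖)) this]
  refine (lintegral_mono h1).trans ?_
  rw [Measure.volume_eq_prod] at t1 t2 ⊢
  rw [lintegral_add_left' (hm1.const_mul _), lintegral_const_mul'' _ hm1,
    lintegral_const_mul'' _ hm2]
  refine (add_le_add (mul_le_mul_right t1 _) (mul_le_mul_right t2 _)).trans (le_of_eq ?_)
  rw [← add_mul, ← ENNReal.ofReal_add (by norm_num) (by norm_num)]
  norm_num

/-- **Bessel's inequality** -/
theorem bessel {n : ℕ} {F : En n → ℂ} (hF : Integrable F) :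
    ∫⁻ x, ‖Fi F x‖ₑ ^ 2 ≤ ∫⁻ ξ, ‖F ξ‖ₑ ^ 2 := by
  have hlim : ∀ x : En n, ‖Fi F x‖ₑ ^ 2 = liminf (fun k : ℕ =>
      ENNReal.ofReal (‖Fi F x‖ ^ 2 * rexp (-(1 / ((k : ℝ) + 1)) * ‖x‖ ^ 2))) atTop := by
    intro x
    have h1 : Tendsto (fun k : ℕ => ‖Fi F x‖ ^ 2 * rexp (-(1 / ((k : ℝ) + 1)) * ‖x‖ ^ 2)) atTop
        (𝓝 (‖Fi F x‖ ^ 2 * rexp (-0 * ‖x‖ ^ 2))) := by
      refine Tendsto.const_mul _ ?_
      refine (Real.continuous_exp.tendsto _).comp ?_
      exact (tendsto_one_div_add_atTop_nhds_zero_nat.neg).mul_const _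
    have h2 := (ENNReal.tendsto_ofReal h1).liminf_eq
    rw [h2]
    simp only [neg_zero, zero_mul, Real.exp_zero, mul_one]
    rw [ENNReal.ofReal_pow (norm_nonneg _), ofReal_norm]
  simp_rw [hlim]
  refine (lintegral_liminf_le' fun k => ?_).trans ?_
  · refine AEMeasurable.ennreal_ofReal (Measurable.aemeasurable ?_)
    exact (((Fi_cont hF).norm.pow 2).mul (by fun_prop)).measurable
  · refine liminf_le_of_frequently_le' (Frequently.of_forall fun k => ?_)
    exact bessel_b hF (by positivity)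

/-- integrability of pieces -/
lemma piece_int {n : ℕ} {G : En n → ℂ} (hG : MemLp G 2) {T : Set (En n)} (hT : MeasurableSet T)
    (hv : volume T < ⊤) : Integrable (T.indicator G) := by
  rw [integrable_indicator_iff hT]
  have : IsFiniteMeasure (volume.restrict T) := ⟨by
    rw [Measure.restrict_apply_univ]; exact hv⟩
  have h1 : MemLp G 2 (volume.restrict T) := hG.restrict _
  exact h1.integrable (by norm_num)

lemma piece_l2 {n : ℕ} {G : En n → ℂ} (hG : MemLp G 2) {T : Set (En n)} (hT : MeasurableSet T)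
    (hv : volume T < ⊤) : ∫⁻ x, ‖Fi (T.indicator G) x‖ₑ ^ 2 ≤ ∫⁻ ξ in T, ‖G ξ‖ₑ ^ 2 := by
  refine (bessel (piece_int hG hT hv)).trans (le_of_eq ?_)
  rw [← lintegral_indicator hT]
  refine lintegral_congr fun ξ => ?_
  by_cases h : ξ ∈ T
  · rw [indicator_of_mem h, indicator_of_mem h]
  · rw [indicator_of_notMem h, indicator_of_notMem h]; simp

lemma piece_pt {n : ℕ} {G : En n → ℂ} (hG : MemLp G 2) {T : Set (En n)} (hT : MeasurableSet T)
    (x : En n) : ‖Fi (T.indicator G) x‖ₑ ^ 2 ≤ volume T * ∫⁻ ξ in T, ‖G ξ‖ₑ ^ 2 := by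
  have h1 : ‖Fi (T.indicator G) x‖ₑ ≤ ∫⁻ ξ in T, ‖G ξ‖ₑ := by
    refine (enorm_integral_le_lintegral_enorm _).trans (le_of_eq ?_)
    rw [← lintegral_indicator hT]
    refine lintegral_congr fun ξ => ?_
    rw [enorm_mul, ← ofReal_norm (ek x ξ), ek_norm, ENNReal.ofReal_one, one_mul]
    by_cases h : ξ ∈ T
    · rw [indicator_of_mem h, indicator_of_mem h]
    · rw [indicator_of_notMem h, indicator_of_notMem h]; simp
  have h2 : ∫⁻ ξ in T, ‖G ξ‖ₑ ≤ (∫⁻ ξ in T, ‖G ξ‖ₑ ^ 2) ^ (1 / 2 : ℝ) * (volume T) ^ (1 / 2 : ℝ) := by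
    have h3 := ENNReal.lintegral_mul_norm_pow_le (μ := volume.restrict T)
      (f := fun ξ => ‖G ξ‖ₑ ^ 2) (g := fun _ => 1)
      ((hG.aestronglyMeasurable.enorm.pow_const 2).restrict) aemeasurable_const
      (p := 1 / 2) (q := 1 / 2) (by norm_num) (by norm_num) (by norm_num)
    rw [lintegral_one, Measure.restrict_apply_univ] at h3
    refine le_trans (le_of_eq ?_) h3
    refine lintegral_congr fun ξ => ?_
    rw [ENNReal.one_rpow, mul_one, ← ENNReal.rpow_natCast, ← ENNReal.rpow_mul]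
    norm_num
  calc ‖Fi (T.indicator G) x‖ₑ ^ 2
      ≤ ((∫⁻ ξ in T, ‖G ξ‖ₑ ^ 2) ^ (1 / 2 : ℝ) * (volume T) ^ (1 / 2 : ℝ)) ^ 2 :=
        pow_le_pow_left₀ (by simp) (h1.trans h2) 2
    _ = _ := by
        rw [mul_pow, ← ENNReal.rpow_natCast, ← ENNReal.rpow_natCast, ← ENNReal.rpow_mul,
          ← ENNReal.rpow_mul, mul_comm]
        norm_num

/-- index of the unit cube containing `ξ` -/
noncomputable def qi {n : ℕ} (ξ : En n) : Fin n → ℤ := fun i => ⌊ξ i⌋

/-- unit cubes -/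
def cu {n : ℕ} (κ : Fin n → ℤ) : Set (En n) := {ξ | qi ξ = κ}

lemma qi_meas {n : ℕ} : Measurable (qi (n := n)) := by
  refine measurable_pi_lambda _ fun i => ?_
  exact Int.measurable_floor.comp (EuclideanSpace.proj (𝕜 := ℝ) i).continuous.measurable

lemma cu_meas {n : ℕ} (κ : Fin n → ℤ) : MeasurableSet (cu κ) :=
  qi_meas (measurableSet_singleton κ)

/-- corner of the cube -/
noncomputable def corner {n : ℕ} (κ : Fin n → ℤ) : En n := WithLp.toLp 2 (fun i => (κ i : ℝ))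

lemma cu_corner {n : ℕ} {κ : Fin n → ℤ} {ξ : En n} (hξ : ξ ∈ cu κ) : ‖corner κ - ξ‖ ^ 2 ≤ n := by
  rw [EuclideanSpace.norm_sq_eq]
  calc ∑ i, ‖(corner κ - ξ) i‖ ^ 2 ≤ ∑ _i : Fin n, (1 : ℝ) := by
        refine Finset.sum_le_sum fun i _ => ?_
        have h1 : ⌊ξ i⌋ = κ i := congrFun hξ i
        have h2 : (κ i : ℝ) ≤ ξ i := by rw [← h1]; exact Int.floor_le _
        have h3 : ξ i < (κ i : ℝ) + 1 := by rw [← h1]; exact Int.lt_floor_add_one _
        have h4 : (corner κ - ξ) i = (κ i : ℝ) - ξ i := by simp [corner]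
        rw [h4, Real.norm_eq_abs, sq_abs]
        nlinarith
    _ = n := by simp

lemma cu_diam {n : ℕ} {κ : Fin n → ℤ} {ξ η : En n} (hξ : ξ ∈ cu κ) (hη : η ∈ cu κ) :
    ‖ξ - η‖ ^ 2 ≤ n := by
  rw [EuclideanSpace.norm_sq_eq]
  calc ∑ i, ‖(ξ - η) i‖ ^ 2 ≤ ∑ _i : Fin n, (1 : ℝ) := by
        refine Finset.sum_le_sum fun i _ => ?_
        have h1 : ⌊ξ i⌋ = κ i := congrFun hξ i
        have h2 : (κ i : ℝ) ≤ ξ i := by rw [← h1]; exact Int.floor_le _
        have h3 : ξ i < (κ i : ℝ) + 1 := by rw [← h1]; exact Int.lt_floor_add_one _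
        have h1' : ⌊η i⌋ = κ i := congrFun hη i
        have h2' : (κ i : ℝ) ≤ η i := by rw [← h1']; exact Int.floor_le _
        have h3' : η i < (κ i : ℝ) + 1 := by rw [← h1']; exact Int.lt_floor_add_one _
        have h4 : (ξ - η) i = ξ i - η i := by simp
        rw [h4, Real.norm_eq_abs, sq_abs]
        nlinarith
    _ = n := by simp

/-- the constant -/
noncomputable def cn (n : ℕ) : ℝ := rexp (π * n) * (2 * n * √n)

lemma one_le_gauss {n : ℕ} {κ : Fin n → ℤ} {ξ : En n} (hξ : ξ ∈ cu κ) :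
    (1 : ℝ≥0∞) ≤ ENNReal.ofReal (rexp (π * n)) *
      ENNReal.ofReal (rexp (-π * ‖corner κ - ξ‖ ^ 2)) := by
  rw [← ENNReal.ofReal_mul (exp_pos _).le, ← Real.exp_add]
  refine ENNReal.one_le_ofReal.2 (Real.one_le_exp ?_)
  have := cu_corner hξ
  nlinarith [pi_pos]

lemma cu_shell_vol {m : ℕ} (κ : Fin (m + 1) → ℤ) {r r' : ℝ} (hr : 0 ≤ r) (h : r ≤ r') :
    volume (shell (m + 1) r r' ∩ cu κ) ≤ ENNReal.ofReal (cn (m + 1) * (r' - r)) := by
  rw [← lintegral_indicator_one ((shell_meas _ _ _).inter (cu_meas κ))]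
  have h1 : ∀ ξ, (shell (m + 1) r r' ∩ cu κ).indicator (1 : En (m + 1) → ℝ≥0∞) ξ ≤
      ENNReal.ofReal (rexp (π * (m + 1 : ℕ))) * (shell (m + 1) r r').indicator
        (fun ξ => ENNReal.ofReal (rexp (-π * ‖corner κ - ξ‖ ^ 2))) ξ := by
    intro ξ
    by_cases h2 : ξ ∈ shell (m + 1) r r'
    · by_cases h3 : ξ ∈ cu κ
      · rw [indicator_of_mem (show ξ ∈ shell (m + 1) r r' ∩ cu κ from ⟨h2, h3⟩),
          indicator_of_mem h2]
        exact one_le_gauss h3
      · rw [indicator_of_notMem (fun h' => h3 h'.2)]; exact zero_le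
    · rw [indicator_of_notMem (fun h' => h2 h'.1)]; exact zero_le
  refine (lintegral_mono h1).trans ?_
  rw [lintegral_const_mul' _ _ ENNReal.ofReal_ne_top, lintegral_indicator (shell_meas _ _ _)]
  have h2 := shell_bound (m := m) hr (δ := r' - r) (by linarith) pi_pos (corner κ)
  rw [add_sub_cancel, div_self pi_ne_zero, Real.one_rpow, mul_one] at h2
  refine (mul_le_mul_right h2 _).trans (le_of_eq ?_)
  rw [← ENNReal.ofReal_mul (exp_pos _).le]
  congr 1
  rw [cn]; push_cast; ring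

lemma cu_vol {n : ℕ} (κ : Fin n → ℤ) : volume (cu κ) ≤ ENNReal.ofReal (rexp (π * n)) := by
  rw [← lintegral_indicator_one (cu_meas κ)]
  have h1 : ∀ ξ, (cu κ).indicator (1 : En n → ℝ≥0∞) ξ ≤
      ENNReal.ofReal (rexp (π * n)) * ENNReal.ofReal (rexp (-π * ‖corner κ - ξ‖ ^ 2)) := by
    intro ξ
    by_cases h3 : ξ ∈ cu κ
    · rw [indicator_of_mem h3]
      exact one_le_gauss h3
    · rw [indicator_of_notMem h3]; exact zero_le
  refine (lintegral_mono h1).trans ?_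
  rw [lintegral_const_mul' _ _ ENNReal.ofReal_ne_top, gauss_lint n pi_pos (corner κ),
    div_self pi_ne_zero, Real.one_rpow, ENNReal.ofReal_one, mul_one]

/-- disjointness of the cubes -/
lemma sum_cu_le {n : ℕ} (G : En n → ℂ) {T : Set (En n)} (hT : MeasurableSet T)
    (F : Finset (Fin n → ℤ)) :
    ∑ κ ∈ F, ∫⁻ ξ in T ∩ cu κ, ‖G ξ‖ₑ ^ 2 ≤ ∫⁻ ξ in T, ‖G ξ‖ₑ ^ 2 := by
  rw [← lintegral_biUnion_finset]
  · exact lintegral_mono_set (iUnion₂_subset fun κ _ => inter_subset_left)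
  · intro κ _ κ' _ hne
    rw [Function.onFun, Set.disjoint_left]
    rintro ξ ⟨_, h1⟩ ⟨_, h2⟩
    exact hne (h1.symm.trans h2)
  · intro κ _
    exact hT.inter (cu_meas κ)

/-- the randomized function -/
noncomputable def cG {n : ℕ} (e : (Fin n → ℤ) → ℝ) (G : En n → ℂ) : En n → ℂ :=
  fun ξ => (e (qi ξ) : ℂ) * G ξ

lemma cG_memLp {n : ℕ} {e : (Fin n → ℤ) → ℝ} (he : ∀ k, |e k| ≤ 1) {G : En n → ℂ}
    (hG : MemLp G 2) : MemLp (cG e G) 2 := by
  refine hG.of_le ?_ (Eventually.of_forall fun ξ => ?_)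
  · refine AEStronglyMeasurable.mul ?_ hG.aestronglyMeasurable
    have h2 : Measurable (fun k : Fin n → ℤ => (e k : ℂ)) := measurable_of_countable _
    exact (h2.comp qi_meas).aestronglyMeasurable
  · rw [cG, norm_mul, Complex.norm_real, Real.norm_eq_abs]
    exact mul_le_of_le_one_left (norm_nonneg _) (he _)

/-- the cubes needed for the ball of radius `K` -/
noncomputable def box (n K : ℕ) : Finset (Fin n → ℤ) := Fintype.piFinset fun _ => Finset.Icc (-(K : ℤ)) K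

lemma mem_box {n K : ℕ} {ξ : En n} (h : ‖ξ‖ < K) : qi ξ ∈ box n K := by
  rw [box, Fintype.mem_piFinset]
  intro i
  rw [Finset.mem_Icc]
  have h1 : |ξ i| ≤ ‖ξ‖ := by
    have := EuclideanSpace.norm_eq ξ
    rw [this]
    refine Real.le_sqrt_of_sq_le ?_
    rw [← Real.norm_eq_abs]
    exact Finset.single_le_sum (f := fun i => ‖ξ i‖ ^ 2) (fun i _ => by positivity)
      (Finset.mem_univ i)
  have h2 := abs_le.1 (h1.trans h.le)
  constructor
  · rw [qi, Int.le_floor]; push_cast; exact h2.1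
  · rw [qi]
    have : (⌊ξ i⌋ : ℝ) ≤ K := (Int.floor_le _).trans h2.2
    exact_mod_cast this

/-- decomposition over the cubes -/
lemma Fi_cG {Ω : Type*} {n : ℕ} {ε : (Fin n → ℤ) → Ω → ℝ} (ω : Ω) {G : En n → ℂ}
    (hG : MemLp G 2) {T : Set (En n)} (hT : MeasurableSet T) (hv : volume T < ⊤)
    {F : Finset (Fin n → ℤ)} (hF : ∀ ξ ∈ T, qi ξ ∈ F) (x : En n) :
    Fi (T.indicator (cG (fun κ => ε κ ω) G)) x
      = pX ε (fun κ => Fi ((T ∩ cu κ).indicator G) x) F ω := by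
  rw [pX, Fi]
  have hvi : ∀ κ, volume (T ∩ cu κ) < ⊤ := fun κ => (measure_mono inter_subset_left).trans_lt hv
  have hi : ∀ κ, Integrable (fun ξ => ek x ξ * (T ∩ cu κ).indicator G ξ) := fun κ =>
    ek_int (piece_int hG (hT.inter (cu_meas κ)) (hvi κ)) x
  have h1 : ∀ κ, (ε κ ω : ℂ) * Fi ((T ∩ cu κ).indicator G) x =
      ∫ ξ, (ε κ ω : ℂ) * (ek x ξ * (T ∩ cu κ).indicator G ξ) := fun κ => by
    rw [Fi, integral_const_mul]
  simp_rw [h1]
  rw [← integral_finsetSum _ fun κ _ => (hi κ).const_mul _]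
  refine integral_congr_ae (Eventually.of_forall fun ξ => ?_)
  simp only
  by_cases hξ : ξ ∈ T
  · rw [indicator_of_mem hξ, cG, Finset.sum_eq_single (qi ξ)]
    · rw [indicator_of_mem (show ξ ∈ T ∩ cu (qi ξ) from ⟨hξ, rfl⟩)]; ring
    · intro κ _ hne
      rw [indicator_of_notMem (fun h' => hne h'.2.symm)]; ring
    · intro h'; exact absurd (hF ξ hξ) h'
  · rw [indicator_of_notMem hξ, mul_zero]
    refine (Finset.sum_eq_zero fun κ _ => ?_).symm
    rw [indicator_of_notMem (fun h' => hξ h'.1)]; ring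

end Pool.Agent.Helper93.Sph
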