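import Mathlib
import Pool.Agent.Helper93.Sph.P2
import Pool.Agent.Helper93.Sph.E

/-! Moments of order `p ∈ (2, 4]` and dyadic chaining. -/

set_option autoImplicit false

open MeasureTheory ProbabilityTheory Filter Topology Finset
open scoped ENNReal

namespace Pool.Agent.Helper93.Sph

variable {Ω ι : Type*} [MeasurableSpace Ω]

theorem second_l {P : Measure Ω} [IsProbabilityMeasure P] {ε : ι → Ω → ℝ} (hε : Noise P ε)
    (a : ι → ℂ) (A : Finset ι) :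
    ∫⁻ ω, ‖pX ε a A ω‖ₑ ^ 2 ∂P ≤ ∑ i ∈ A, ‖a i‖ₑ ^ 2 := by
  have hb : Integrable (fun ω => ‖pX ε a A ω‖ ^ 2) P := by
    refine int_of_bdd ((pX_meas hε a _).norm.pow_const 2) ((∑ i ∈ A, ‖a i‖) ^ 2) fun ω => ?_
    rw [abs_of_nonneg (by positivity)]
    exact pow_le_pow_left₀ (norm_nonneg _) (pX_bdd hε a _ ω) 2
  have h1 := ENNReal.ofReal_le_ofReal (second hε a A)
  rw [ofReal_integral_eq_lintegral_ofReal hb (Eventually.of_forall fun ω => by positivity)] at h1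
  have e1 : ∀ ω, ENNReal.ofReal (‖pX ε a A ω‖ ^ 2) = ‖pX ε a A ω‖ₑ ^ 2 := fun ω => by
    rw [ENNReal.ofReal_pow (norm_nonneg _), ofReal_norm]
  simp_rw [e1] at h1
  refine h1.trans (le_of_eq ?_)
  rw [ENNReal.ofReal_sum_of_nonneg (fun i _ => by positivity)]
  refine Finset.sum_congr rfl fun i _ => ?_
  rw [ENNReal.ofReal_pow (norm_nonneg _), ofReal_norm]

/-- moments of order `p` -/
theorem pmom {P : Measure Ω} [IsProbabilityMeasure P] {ε : ι → Ω → ℝ} (hε : Noise P ε)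
    (a : ι → ℂ) (A : Finset ι) {p : ℝ} (hp2 : 2 < p) (hp4 : p ≤ 4) :
    ∫⁻ ω, ‖pX ε a A ω‖ₑ ^ p ∂P ≤ 3 * (∑ i ∈ A, ‖a i‖ₑ ^ 2) ^ (p / 2) := by
  set θ : ℝ := (4 - p) / 2 with hθ
  set τ : ℝ := (p - 2) / 2 with hτ
  have hθ0 : 0 ≤ θ := by rw [hθ]; linarith
  have hτ0 : 0 ≤ τ := by rw [hτ]; linarith
  have hτ1 : τ ≤ 1 := by rw [hτ]; linarith
  set S := ∑ i ∈ A, ‖a i‖ₑ ^ 2 with hS
  have hm : Measurable (fun ω => ‖pX ε a A ω‖ₑ) := (pX_meas hε a A).enorm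
  have h1 := ENNReal.lintegral_mul_norm_pow_le (μ := P)
    (f := fun ω => ‖pX ε a A ω‖ₑ ^ 2) (g := fun ω => ‖pX ε a A ω‖ₑ ^ 4)
    (hm.pow_const 2).aemeasurable (hm.pow_const 4).aemeasurable hθ0 hτ0
    (by rw [hθ, hτ]; ring)
  have e1 : ∀ ω, (‖pX ε a A ω‖ₑ ^ 2) ^ θ * (‖pX ε a A ω‖ₑ ^ 4) ^ τ = ‖pX ε a A ω‖ₑ ^ p := by
    intro ω
    rw [← ENNReal.rpow_natCast, ← ENNReal.rpow_natCast, ← ENNReal.rpow_mul, ← ENNReal.rpow_mul,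
      ← ENNReal.rpow_add_of_nonneg _ _ (by positivity) (by positivity)]
    congr 1
    rw [hθ, hτ]; push_cast; ring
  simp_rw [e1] at h1
  refine h1.trans ?_
  calc (∫⁻ ω, ‖pX ε a A ω‖ₑ ^ 2 ∂P) ^ θ * (∫⁻ ω, ‖pX ε a A ω‖ₑ ^ 4 ∂P) ^ τ
      ≤ S ^ θ * (3 * S ^ 2) ^ τ := by
        gcongr
        · exact second_l hε a A
        · exact fourth_l hε a A
    _ = 3 ^ τ * S ^ (p / 2) := by
        rw [ENNReal.mul_rpow_of_nonneg _ _ hτ0, ← ENNReal.rpow_natCast, ← ENNReal.rpow_mul,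
          mul_left_comm, ← ENNReal.rpow_add_of_nonneg _ _ hθ0 (by positivity)]
        congr 2
        rw [hθ, hτ]; push_cast; ring
    _ ≤ 3 * S ^ (p / 2) := by
        gcongr
        calc (3 : ℝ≥0∞) ^ τ ≤ 3 ^ (1 : ℝ) := ENNReal.rpow_le_rpow_of_exponent_le (by norm_num) hτ1
          _ = 3 := ENNReal.rpow_one _

/-- weighted Hölder inequality for finite sums -/
lemma holder_sum {p : ℝ} (hp : 1 < p) {r : ℝ≥0∞} (hr0 : r ≠ 0) (hrt : r ≠ ⊤) (e : ℕ → ℝ≥0∞)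
    (J : ℕ) :
    (∑ j ∈ range J, e j) ^ p ≤
      (∑ j ∈ range J, r ^ j) ^ (p - 1) * ∑ j ∈ range J, ((r⁻¹) ^ (p - 1)) ^ j * e j ^ p := by
  set q : ℝ := p / (p - 1) with hq
  have hp0 : 0 < p := by linarith
  have hp1 : 0 < p - 1 := by linarith
  have hq0 : 0 < q := by positivity
  have hpq : p.HolderConjugate q := Real.HolderConjugate.conjExponent hp
  have h1 := ENNReal.inner_le_Lp_mul_Lq (range J)
    (fun j => ((r ^ j)⁻¹) ^ (1 / q) * e j) (fun j => (r ^ j) ^ (1 / q)) hpq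
  have hrj0 : ∀ j, r ^ j ≠ 0 := fun j => pow_ne_zero j hr0
  have hrjt : ∀ j, r ^ j ≠ ⊤ := fun j => ENNReal.pow_ne_top hrt
  have e1 : ∀ j, ((r ^ j)⁻¹) ^ (1 / q) * e j * (r ^ j) ^ (1 / q) = e j := by
    intro j
    rw [mul_right_comm, ← ENNReal.mul_rpow_of_nonneg _ _ (by positivity),
      ENNReal.inv_mul_cancel (hrj0 j) (hrjt j), ENNReal.one_rpow, one_mul]
  have e2 : ∀ j, (((r ^ j)⁻¹) ^ (1 / q) * e j) ^ p = ((r⁻¹) ^ (p - 1)) ^ j * e j ^ p := by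
    intro j
    rw [ENNReal.mul_rpow_of_nonneg _ _ hp0.le, ← ENNReal.rpow_mul, ENNReal.inv_pow,
      ← ENNReal.rpow_natCast, ← ENNReal.rpow_natCast, ← ENNReal.rpow_mul, ← ENNReal.rpow_mul]
    congr 2
    rw [hq]; field_simp
  have e3 : ∀ j, ((r ^ j) ^ (1 / q)) ^ q = r ^ j := by
    intro j
    rw [← ENNReal.rpow_mul, one_div_mul_cancel hq0.ne', ENNReal.rpow_one]
  simp_rw [e1, e2, e3] at h1
  refine (ENNReal.rpow_le_rpow h1 hp0.le).trans (le_of_eq ?_)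
  rw [ENNReal.mul_rpow_of_nonneg _ _ hp0.le, ← ENNReal.rpow_mul, ← ENNReal.rpow_mul,
    one_div_mul_cancel hp0.ne', ENNReal.rpow_one, mul_comm]
  congr 2
  rw [hq]; field_simp

/-- sums of `p`-th powers of dyadic increments -/
noncomputable def Wj (p : ℝ) (S : ℝ → ℂ) (j : ℕ) : ℝ≥0∞ :=
  ∑' i : ℕ, ‖S (((i + 1 : ℕ) : ℝ) / 2 ^ j) - S ((i : ℝ) / 2 ^ j)‖ₑ ^ p

lemma dyad_step {p : ℝ} (hp : 0 < p) (S : ℝ → ℂ) {R : ℝ} (hR : 0 ≤ R) (j : ℕ) :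
    ‖S ((⌊R * 2 ^ (j + 1)⌋₊ : ℝ) / 2 ^ (j + 1)) - S ((⌊R * 2 ^ j⌋₊ : ℝ) / 2 ^ j)‖ₑ ^ p
      ≤ Wj p S (j + 1) := by
  set a := ⌊R * 2 ^ j⌋₊ with ha
  set b := ⌊R * 2 ^ (j + 1)⌋₊ with hb
  have hR2 : R * 2 ^ (j + 1) = 2 * (R * 2 ^ j) := by ring
  have h0 : 0 ≤ R * 2 ^ j := by positivity
  have ha1 : (a : ℝ) ≤ R * 2 ^ j := Nat.floor_le h0
  have ha2 : R * 2 ^ j < (a : ℝ) + 1 := Nat.lt_floor_add_one _
  have hb1 : 2 * a ≤ b := by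
    rw [hb]; refine Nat.le_floor ?_
    push_cast; rw [hR2]; linarith
  have hb2 : b < 2 * a + 2 := by
    rw [hb, Nat.floor_lt (by positivity)]
    push_cast; rw [hR2]; linarith
  have e1 : (a : ℝ) / 2 ^ j = ((2 * a : ℕ) : ℝ) / 2 ^ (j + 1) := by
    push_cast; field_simp; ring
  rcases (show b = 2 * a ∨ b = 2 * a + 1 by omega) with h | h
  · rw [e1, h]; simp [ENNReal.zero_rpow_of_pos hp]
  · rw [e1, h]
    exact ENNReal.le_tsum (f := fun i : ℕ =>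
      ‖S (((i + 1 : ℕ) : ℝ) / 2 ^ (j + 1)) - S ((i : ℝ) / 2 ^ (j + 1))‖ₑ ^ p) (2 * a)

/-- **chaining** -/
theorem chain {p : ℝ} (hp : 1 < p) {r : ℝ≥0∞} (hr0 : r ≠ 0) (hrt : r ≠ ⊤) {S : ℝ → ℂ}
    (hS : Continuous S) {R : ℝ} (hR : 0 ≤ R) :
    ‖S R - S (⌊R⌋₊ : ℝ)‖ₑ ^ p ≤
      (∑' j : ℕ, r ^ j) ^ (p - 1) * ∑' j : ℕ, ((r⁻¹) ^ (p - 1)) ^ j * Wj p S (j + 1) := by
  have hp0 : 0 < p := by linarith
  set d : ℕ → ℝ := fun j => (⌊R * 2 ^ j⌋₊ : ℝ) / 2 ^ j with hd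
  have hd0 : d 0 = (⌊R⌋₊ : ℝ) := by simp [hd]
  have hlim : Tendsto d atTop (𝓝 R) := dyad_tendsto hR
  have hsum : ∀ J : ℕ, ‖S (d J) - S (d 0)‖ₑ ≤ ∑ j ∈ range J, ‖S (d (j + 1)) - S (d j)‖ₑ := by
    intro J
    induction J with
    | zero => simp
    | succ J ih =>
      rw [sum_range_succ]
      calc ‖S (d (J + 1)) - S (d 0)‖ₑ = ‖(S (d J) - S (d 0)) + (S (d (J + 1)) - S (d J))‖ₑ := by
            congr 1; ring
        _ ≤ _ := (enorm_add_le _ _).trans (add_le_add ih le_rfl)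
  have hJ : ∀ J : ℕ, ‖S (d J) - S (d 0)‖ₑ ^ p ≤
      (∑' j : ℕ, r ^ j) ^ (p - 1) * ∑' j : ℕ, ((r⁻¹) ^ (p - 1)) ^ j * Wj p S (j + 1) := by
    intro J
    refine (ENNReal.rpow_le_rpow (hsum J) hp0.le).trans ((holder_sum hp hr0 hrt _ J).trans ?_)
    refine mul_le_mul' (ENNReal.rpow_le_rpow (ENNReal.sum_le_tsum _) (by linarith)) ?_
    refine le_trans (Finset.sum_le_sum fun j _ => ?_) (ENNReal.sum_le_tsum (range J))
    exact mul_le_mul_right (dyad_step hp0 S hR j) _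
  have hl : Tendsto (fun J => ‖S (d J) - S (d 0)‖ₑ ^ p) atTop (𝓝 (‖S R - S (⌊R⌋₊ : ℝ)‖ₑ ^ p)) := by
    rw [← hd0]
    refine (ENNReal.continuous_rpow_const.tendsto _).comp ?_
    exact (((hS.tendsto R).comp hlim).sub tendsto_const_nhds).enorm
  exact le_of_tendsto' hl hJ

end Pool.Agent.Helper93.Sph
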