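import Mathlib
import Pool.Agent.Helper93.Sph.W1
import Pool.Agent.Helper93.Sph.W2

/-! Random signs on unit cubes: the maximal inequality. -/

set_option autoImplicit false

open MeasureTheory ProbabilityTheory Real Set Filter Topology
open scoped ENNReal RealInnerProductSpace

namespace Pool.Agent.Helper93.Sph

variable {Ω : Type*} [MeasurableSpace Ω]

/-- pieces -/
noncomputable def pc {n : ℕ} (G : En n → ℂ) (T : Set (En n)) (x : En n) (κ : Fin n → ℤ) : ℂ :=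
  Fi ((T ∩ cu κ).indicator G) x

lemma pc_cont {n : ℕ} {G : En n → ℂ} (hG : MemLp G 2) {T : Set (En n)} (hT : MeasurableSet T)
    (κ : Fin n → ℤ) : Continuous (fun x => pc G T x κ) := by
  refine Fi_cont (piece_int hG (hT.inter (cu_meas κ)) ?_)
  exact ((measure_mono inter_subset_right).trans (cu_vol κ)).trans_lt ENNReal.ofReal_lt_top

lemma pX_joint {P : Measure Ω} {n : ℕ} {ε : (Fin n → ℤ) → Ω → ℝ} (hε : Noise P ε)
    {a : En n → (Fin n → ℤ) → ℂ} (ha : ∀ κ, Continuous fun x => a x κ) (F : Finset (Fin n → ℤ)) :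
    Measurable (fun z : Ω × En n => pX ε (a z.2) F z.1) := by
  unfold pX
  refine Finset.measurable_sum _ fun i _ => ?_
  exact (Complex.measurable_ofReal.comp ((hε.meas i).comp measurable_fst)).mul
    ((ha i).measurable.comp measurable_snd)

lemma piece_mom {P : Measure Ω} [IsProbabilityMeasure P] {n : ℕ} {ε : (Fin n → ℤ) → Ω → ℝ}
    (hε : Noise P ε) {G : En n → ℂ} (hG : MemLp G 2) {T : Set (En n)} (hT : MeasurableSet T)
    (F : Finset (Fin n → ℤ)) {V : ℝ≥0∞} (hV : ∀ κ, volume (T ∩ cu κ) ≤ V)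
    {p : ℝ} (hp2 : 2 < p) (hp4 : p ≤ 4) :
    ∫⁻ x, ∫⁻ ω, ‖pX ε (pc G T x) F ω‖ₑ ^ p ∂P ≤
      3 * ((V * ∫⁻ ξ in T, ‖G ξ‖ₑ ^ 2) ^ (p / 2 - 1) * ∫⁻ ξ in T, ‖G ξ‖ₑ ^ 2) := by
  set μT := ∫⁻ ξ in T, ‖G ξ‖ₑ ^ 2 with hμ
  set A : En n → ℝ≥0∞ := fun x => ∑ κ ∈ F, ‖pc G T x κ‖ₑ ^ 2 with hA
  have hvk : ∀ κ, volume (T ∩ cu κ) < ⊤ := fun κ =>
    ((measure_mono inter_subset_right).trans (cu_vol κ)).trans_lt ENNReal.ofReal_lt_top
  have hAm : Measurable A := Finset.measurable_sum _ fun κ _ =>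
    (pc_cont hG hT κ).measurable.enorm.pow_const 2
  have hAb : ∀ x, A x ≤ V * μT := by
    intro x
    calc A x ≤ ∑ κ ∈ F, V * ∫⁻ ξ in T ∩ cu κ, ‖G ξ‖ₑ ^ 2 := by
          refine Finset.sum_le_sum fun κ _ => ?_
          exact (piece_pt hG (hT.inter (cu_meas κ)) x).trans (mul_le_mul_left (hV κ) _)
      _ = V * ∑ κ ∈ F, ∫⁻ ξ in T ∩ cu κ, ‖G ξ‖ₑ ^ 2 := by rw [Finset.mul_sum]
      _ ≤ _ := mul_le_mul_right (sum_cu_le G hT F) _
  have hAi : ∫⁻ x, A x ≤ μT := by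
    rw [hA, lintegral_finsetSum _ fun κ _ => (pc_cont hG hT κ).measurable.enorm.pow_const 2]
    refine (Finset.sum_le_sum fun κ _ => ?_).trans (sum_cu_le G hT F)
    exact piece_l2 hG (hT.inter (cu_meas κ)) (hvk κ)
  have hβ : 0 ≤ p / 2 - 1 := by linarith
  calc ∫⁻ x, ∫⁻ ω, ‖pX ε (pc G T x) F ω‖ₑ ^ p ∂P
      ≤ ∫⁻ x, 3 * ((V * μT) ^ (p / 2 - 1) * A x) := by
        refine lintegral_mono fun x => (pmom hε (pc G T x) F hp2 hp4).trans ?_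
        refine mul_le_mul_right ?_ _
        change (A x) ^ (p / 2) ≤ _
        have : p / 2 = (p / 2 - 1) + 1 := by ring
        rw [this, ENNReal.rpow_add_of_nonneg _ _ hβ zero_le_one, ENNReal.rpow_one]
        have h2 : p / 2 - 1 + 1 - 1 = p / 2 - 1 := by ring
        rw [h2]
        exact mul_le_mul_left (ENNReal.rpow_le_rpow (hAb x) hβ) _
    _ = 3 * ((V * μT) ^ (p / 2 - 1) * ∫⁻ x, A x) := by
        rw [lintegral_const_mul _ (hAm.const_mul _), lintegral_const_mul _ hAm]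
    _ ≤ _ := mul_le_mul_right (mul_le_mul_right hAi _) _

/-- partial sums of the randomized function -/
noncomputable def Sw {n : ℕ} (ε : (Fin n → ℤ) → Ω → ℝ) (G : En n → ℂ) (ω : Ω) (x : En n) (R : ℝ) :
    ℂ := ps (cG (fun κ => ε κ ω) G) R x

lemma Sw_incr {P : Measure Ω} {m : ℕ} {ε : (Fin (m + 1) → ℤ) → Ω → ℝ} (hε : Noise P ε)
    {G : En (m + 1) → ℂ} (hG : MemLp G 2) (ω : Ω) (x : En (m + 1)) {R R' : ℝ} (h0 : 0 ≤ R)
    (h : R ≤ R') {K : ℕ} (hK : R' ≤ K) :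
    Sw ε G ω x R' - Sw ε G ω x R = pX ε (pc G (shell (m + 1) R R') x) (box (m + 1) K) ω := by
  rw [Sw, Sw, ps_sub (cG_memLp (fun κ => hε.bdd κ ω) hG) h0 h]
  exact Fi_cG ω hG (shell_meas _ _ _) (shell_finite _ _ _)
    (fun ξ hξ => mem_box (hξ.2.trans_le hK)) x

lemma Sw_eq {P : Measure Ω} {m : ℕ} {ε : (Fin (m + 1) → ℤ) → Ω → ℝ} (hε : Noise P ε)
    {G : En (m + 1) → ℂ} (hG : MemLp G 2) (ω : Ω) (x : En (m + 1)) {R : ℝ} (h0 : 0 ≤ R)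
    {K : ℕ} (hK : R ≤ K) :
    Sw ε G ω x R = pX ε (pc G (shell (m + 1) 0 R) x) (box (m + 1) K) ω := by
  rw [← Sw_incr hε hG ω x le_rfl h0 hK, Sw, Sw, ps_zero, sub_zero]

lemma Sw_meas {P : Measure Ω} {m : ℕ} {ε : (Fin (m + 1) → ℤ) → Ω → ℝ} (hε : Noise P ε)
    {G : En (m + 1) → ℂ} (hG : MemLp G 2) (R : ℝ) :
    Measurable (fun z : Ω × En (m + 1) => Sw ε G z.1 z.2 R) := by
  rcases lt_or_ge R 0 with hR | hR
  · have : (fun z : Ω × En (m + 1) => Sw ε G z.1 z.2 R) = fun _ => 0 :=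
      funext fun z => ps_neg _ hR _
    rw [this]; exact measurable_const
  · have : (fun z : Ω × En (m + 1) => Sw ε G z.1 z.2 R) = fun z =>
        pX ε (pc G (shell (m + 1) 0 R) z.2) (box (m + 1) ⌈R⌉₊) z.1 :=
      funext fun z => Sw_eq hε hG z.1 z.2 hR (Nat.le_ceil R)
    rw [this]
    exact pX_joint hε (fun κ => pc_cont hG (shell_meas _ _ _) κ) _

/-- increments, all grid intervals of level `j` -/
lemma Wj_int {P : Measure Ω} [IsProbabilityMeasure P] {m : ℕ} {ε : (Fin (m + 1) → ℤ) → Ω → ℝ}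
    (hε : Noise P ε) {G : En (m + 1) → ℂ} (hG : MemLp G 2) {p : ℝ} (hp2 : 2 < p) (hp4 : p ≤ 4)
    (j : ℕ) :
    ∫⁻ z, Wj p (Sw ε G z.1 z.2) j ∂(P.prod volume) ≤
      3 * ((ENNReal.ofReal (cn (m + 1)) * (2⁻¹) ^ j * ∫⁻ ξ, ‖G ξ‖ₑ ^ 2) ^ (p / 2 - 1) *
        ∫⁻ ξ, ‖G ξ‖ₑ ^ 2) := by
  have hβ : 0 ≤ p / 2 - 1 := by linarith
  have hcn : 0 ≤ cn (m + 1) := by unfold cn; positivity
  unfold Wj
  have hm : ∀ i : ℕ, Measurable (fun z : Ω × En (m + 1) =>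
      ‖Sw ε G z.1 z.2 (((i + 1 : ℕ) : ℝ) / 2 ^ j) - Sw ε G z.1 z.2 ((i : ℝ) / 2 ^ j)‖ₑ ^ p) :=
    fun i => ((Sw_meas hε hG _).sub (Sw_meas hε hG _)).enorm.pow_const p
  rw [lintegral_tsum fun i => (hm i).aemeasurable]
  set T : ℕ → Set (En (m + 1)) := fun i =>
    shell (m + 1) ((i : ℝ) / 2 ^ j) (((i + 1 : ℕ) : ℝ) / 2 ^ j) with hT
  have h1 : ∀ i : ℕ, ∫⁻ z, ‖Sw ε G z.1 z.2 (((i + 1 : ℕ) : ℝ) / 2 ^ j) -
      Sw ε G z.1 z.2 ((i : ℝ) / 2 ^ j)‖ₑ ^ p ∂(P.prod volume) ≤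
      3 * (ENNReal.ofReal (cn (m + 1)) * (2⁻¹) ^ j * ∫⁻ ξ, ‖G ξ‖ₑ ^ 2) ^ (p / 2 - 1) *
        ∫⁻ ξ in T i, ‖G ξ‖ₑ ^ 2 := by
    intro i
    rw [lintegral_prod_symm' _ (hm i)]
    have hle : (i : ℝ) / 2 ^ j ≤ ((i + 1 : ℕ) : ℝ) / 2 ^ j := by gcongr; simp
    have hKc : ((i + 1 : ℕ) : ℝ) / 2 ^ j ≤ ((i + 1 : ℕ) : ℝ) :=
      div_le_self (by positivity) (one_le_pow₀ (by norm_num))
    have h2 : ∀ x : En (m + 1), ∀ ω : Ω, Sw ε G ω x (((i + 1 : ℕ) : ℝ) / 2 ^ j) -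
        Sw ε G ω x ((i : ℝ) / 2 ^ j) = pX ε (pc G (T i) x) (box (m + 1) (i + 1)) ω :=
      fun x ω => Sw_incr hε hG ω x (by positivity) hle hKc
    simp only [h2]
    have hV : ∀ κ, volume (T i ∩ cu κ) ≤ ENNReal.ofReal (cn (m + 1)) * (2⁻¹) ^ j := by
      intro κ
      refine (cu_shell_vol κ (by positivity) hle).trans (le_of_eq ?_)
      rw [ENNReal.ofReal_mul hcn]
      congr 1
      rw [show ((i + 1 : ℕ) : ℝ) / 2 ^ j - (i : ℝ) / 2 ^ j = (2⁻¹ : ℝ) ^ j by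
        push_cast; rw [inv_pow]; field_simp; ring, ENNReal.ofReal_pow (by norm_num),
        ENNReal.ofReal_inv_of_pos (by norm_num)]
      simp
    refine (piece_mom hε hG (shell_meas _ _ _) _ hV hp2 hp4).trans ?_
    rw [← mul_assoc]
    refine mul_le_mul_left (mul_le_mul_right (ENNReal.rpow_le_rpow (mul_le_mul_right ?_ _) hβ) _) _
    exact setLIntegral_le_lintegral _ _
  refine (ENNReal.tsum_le_tsum h1).trans ?_
  rw [ENNReal.tsum_mul_left, mul_assoc]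
  refine mul_le_mul_right (mul_le_mul_right ?_ _) _
  rw [← lintegral_iUnion (fun i => shell_meas _ _ _)]
  · exact setLIntegral_le_lintegral _ _
  · intro a b hab
    rw [Function.onFun, Set.disjoint_left]
    rintro ξ ⟨h1, h2⟩ ⟨h3, h4⟩
    have hp : (0 : ℝ) < 2 ^ j := by positivity
    rw [div_le_iff₀ hp] at h1 h3
    rw [lt_div_iff₀ hp] at h2 h4
    have h5 : (a : ℝ) < ((b + 1 : ℕ) : ℝ) := by linarith
    have h6 : (b : ℝ) < ((a + 1 : ℕ) : ℝ) := by linarith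
    have h5' : a < b + 1 := by exact_mod_cast h5
    have h6' : b < a + 1 := by exact_mod_cast h6
    exact hab (by omega)

/-- the chaining majorant -/
noncomputable def Nc {n : ℕ} (p : ℝ) (r : ℝ≥0∞) (ε : (Fin n → ℤ) → Ω → ℝ) (G : En n → ℂ)
    (z : Ω × En n) : ℝ≥0∞ :=
  (∑' j : ℕ, r ^ j) ^ (p - 1) * ∑' j : ℕ, ((r⁻¹) ^ (p - 1)) ^ j * Wj p (Sw ε G z.1 z.2) (j + 1)

lemma Wj_meas {P : Measure Ω} {m : ℕ} {ε : (Fin (m + 1) → ℤ) → Ω → ℝ} (hε : Noise P ε)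
    {G : En (m + 1) → ℂ} (hG : MemLp G 2) (p : ℝ) (j : ℕ) :
    Measurable (fun z : Ω × En (m + 1) => Wj p (Sw ε G z.1 z.2) j) := by
  unfold Wj
  exact Measurable.tsum fun i =>
    ((Sw_meas hε hG _).sub (Sw_meas hε hG _)).enorm.pow_const p

lemma Nc_meas {P : Measure Ω} {m : ℕ} {ε : (Fin (m + 1) → ℤ) → Ω → ℝ} (hε : Noise P ε)
    {G : En (m + 1) → ℂ} (hG : MemLp G 2) (p : ℝ) (r : ℝ≥0∞) : Measurable (Nc p r ε G) := by
  unfold Nc
  exact (Measurable.tsum fun j => (Wj_meas hε hG p (j + 1)).const_mul _).const_mul _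

/-- the ratio -/
noncomputable def tau (p : ℝ) : ℝ≥0∞ := (2⁻¹ : ℝ≥0∞) ^ ((p / 2 - 1) / 2)

/-- the weight -/
noncomputable def rr (p : ℝ) : ℝ≥0∞ := tau p ^ (1 / (p - 1))

lemma tau_lt {p : ℝ} (hp : 2 < p) : tau p < 1 :=
  ENNReal.rpow_lt_one (by norm_num) (by linarith)

lemma tau_ne {p : ℝ} : tau p ≠ 0 := by
  unfold tau
  exact (ENNReal.rpow_pos (by simp) (by simp)).ne'

lemma rr_lt {p : ℝ} (hp : 2 < p) : rr p < 1 :=
  ENNReal.rpow_lt_one (tau_lt hp) (by have : 0 < p - 1 := by linarith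
                                      positivity)

lemma rr_ne {p : ℝ} (hp : 2 < p) : rr p ≠ 0 := by
  unfold rr
  exact (ENNReal.rpow_pos (pos_iff_ne_zero.2 tau_ne) ((tau_lt hp).trans (by simp)).ne).ne'

lemma rr_pow {p : ℝ} (hp : 2 < p) : ((rr p)⁻¹) ^ (p - 1) = (tau p)⁻¹ := by
  have h : p - 1 ≠ 0 := by linarith
  rw [ENNReal.inv_rpow, rr, ← ENNReal.rpow_mul, one_div_mul_cancel h, ENNReal.rpow_one]

lemma tau_sq {p : ℝ} (hp : 2 < p) : (2⁻¹ : ℝ≥0∞) ^ (p / 2 - 1) = tau p * tau p := by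
  unfold tau
  rw [← ENNReal.rpow_add_of_nonneg _ _ (by linarith) (by linarith)]
  congr 1; ring

/-- constant for the chaining part -/
noncomputable def C2 (m : ℕ) (p : ℝ) : ℝ≥0∞ :=
  ((1 - rr p)⁻¹) ^ (p - 1) * (3 * ENNReal.ofReal (cn (m + 1)) ^ (p / 2 - 1) *
    (tau p * tau p) * (1 - tau p)⁻¹)

lemma C2_lt (m : ℕ) {p : ℝ} (hp : 2 < p) : C2 m p < ⊤ := by
  unfold C2
  have h1 : (1 - rr p)⁻¹ < ⊤ := by
    rw [ENNReal.inv_lt_top]; exact tsub_pos_of_lt (rr_lt hp)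
  have h2 : (1 - tau p)⁻¹ < ⊤ := by
    rw [ENNReal.inv_lt_top]; exact tsub_pos_of_lt (tau_lt hp)
  have h3 : tau p < ⊤ := (tau_lt hp).trans (by simp)
  refine ENNReal.mul_lt_top (ENNReal.rpow_lt_top_of_nonneg (by linarith) h1.ne) ?_
  refine ENNReal.mul_lt_top (ENNReal.mul_lt_top (ENNReal.mul_lt_top (by simp) ?_)
    (ENNReal.mul_lt_top h3 h3)) h2
  exact ENNReal.rpow_lt_top_of_nonneg (by linarith) ENNReal.ofReal_ne_top

theorem Nc_int {P : Measure Ω} [IsProbabilityMeasure P] {m : ℕ} {ε : (Fin (m + 1) → ℤ) → Ω → ℝ}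
    (hε : Noise P ε) {G : En (m + 1) → ℂ} (hG : MemLp G 2) {p : ℝ} (hp2 : 2 < p) (hp4 : p ≤ 4) :
    ∫⁻ z, Nc p (rr p) ε G z ∂(P.prod volume) ≤ C2 m p * (∫⁻ ξ, ‖G ξ‖ₑ ^ 2) ^ (p / 2) := by
  have hβ : 0 ≤ p / 2 - 1 := by linarith
  set μG := ∫⁻ ξ, ‖G ξ‖ₑ ^ 2 with hμ
  set c0 := ENNReal.ofReal (cn (m + 1)) with hc0
  unfold Nc
  rw [lintegral_const_mul _ (Measurable.tsum fun j => (Wj_meas hε hG p (j + 1)).const_mul _),
    lintegral_tsum fun j => ((Wj_meas hε hG p (j + 1)).const_mul _).aemeasurable,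
    ENNReal.tsum_geometric, C2, mul_assoc]
  refine mul_le_mul_right ?_ _
  have hτ0 : tau p ≠ 0 := tau_ne
  have hτt : tau p ≠ ⊤ := ((tau_lt hp2).trans (by simp)).ne
  have hμp : μG ^ (p / 2) = μG ^ (p / 2 - 1) * μG := by
    have : p / 2 = (p / 2 - 1) + 1 := by ring
    conv_lhs => rw [this, ENNReal.rpow_add_of_nonneg _ _ hβ zero_le_one, ENNReal.rpow_one]
  calc ∑' j : ℕ, ∫⁻ z, (((rr p)⁻¹) ^ (p - 1)) ^ j * Wj p (Sw ε G z.1 z.2) (j + 1)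
        ∂(P.prod volume)
      ≤ ∑' j : ℕ, 3 * c0 ^ (p / 2 - 1) * (tau p * tau p) * (tau p) ^ j * μG ^ (p / 2) := by
        refine ENNReal.tsum_le_tsum fun j => ?_
        rw [lintegral_const_mul _ (Wj_meas hε hG p (j + 1)), rr_pow hp2]
        refine (mul_le_mul_right (Wj_int hε hG hp2 hp4 (j + 1)) _).trans (le_of_eq ?_)
        rw [← hc0, ← hμ, ENNReal.mul_rpow_of_nonneg _ _ hβ, ENNReal.mul_rpow_of_nonneg _ _ hβ,
          ← ENNReal.rpow_natCast (2⁻¹ : ℝ≥0∞), ← ENNReal.rpow_mul, mul_comm ((j + 1 : ℕ) : ℝ),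
          ENNReal.rpow_mul, tau_sq hp2, ENNReal.rpow_natCast, hμp]
        have h5 : ((tau p)⁻¹) ^ j * (tau p * tau p) ^ (j + 1) = (tau p * tau p) * (tau p) ^ j := by
          rw [mul_pow, pow_succ, ← ENNReal.inv_pow]
          have : (tau p ^ j)⁻¹ * tau p ^ j = 1 :=
            ENNReal.inv_mul_cancel (pow_ne_zero _ hτ0) (ENNReal.pow_ne_top hτt)
          calc (tau p ^ j)⁻¹ * (tau p ^ j * tau p * (tau p ^ j * tau p))
              = ((tau p ^ j)⁻¹ * tau p ^ j) * (tau p * tau p * tau p ^ j) := by ring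
            _ = _ := by rw [this, one_mul]
        calc ((tau p)⁻¹) ^ j * (3 * (c0 ^ (p / 2 - 1) * (tau p * tau p) ^ (j + 1) *
              μG ^ (p / 2 - 1) * μG))
            = 3 * c0 ^ (p / 2 - 1) * (((tau p)⁻¹) ^ j * (tau p * tau p) ^ (j + 1)) *
              (μG ^ (p / 2 - 1) * μG) := by ring
          _ = _ := by rw [h5]; ring
    _ = _ := by
        rw [ENNReal.tsum_mul_right, ENNReal.tsum_mul_left, ENNReal.tsum_geometric]

end Pool.Agent.Helper93.Sph
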