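import Mathlib
import Pool.Agent.Helper93.Sph.W3

/-! Random signs on unit cubes: integer radii, the maximal inequality and convergence. -/

set_option autoImplicit false

open MeasureTheory ProbabilityTheory Real Set Filter Topology
open scoped ENNReal RealInnerProductSpace

namespace Pool.Agent.Helper93.Sph

variable {Ω : Type*} [MeasurableSpace Ω]

open Classical in
/-- the cubes that meet the ball of radius `k` -/
noncomputable def Dk (n k : ℕ) : Finset (Fin n → ℤ) :=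
  (box n k).filter fun κ => (shell n 0 k ∩ cu κ).Nonempty

lemma mem_Dk {n k : ℕ} {κ : Fin n → ℤ} : κ ∈ Dk n k ↔ (shell n 0 k ∩ cu κ).Nonempty := by
  classical
  rw [Dk, Finset.mem_filter]
  constructor
  · exact fun h => h.2
  · rintro ⟨ξ, h1, h2⟩
    refine ⟨?_, ⟨ξ, h1, h2⟩⟩
    have := mem_box (n := n) (K := k) (ξ := ξ) h1.2
    rwa [show qi ξ = κ from h2] at this

lemma Dk_sub (n k : ℕ) : Dk n k ⊆ box n k := by
  classical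
  rw [Dk]; exact Finset.filter_subset _ _

lemma Dk_mono (n : ℕ) : Monotone (Dk n) := by
  intro k l hkl κ hκ
  rw [mem_Dk] at hκ ⊢
  obtain ⟨ξ, h1, h2⟩ := hκ
  exact ⟨ξ, ⟨h1.1, h1.2.trans_le (by exact_mod_cast hkl)⟩, h2⟩

/-- the full coefficient -/
noncomputable def fc {n : ℕ} (G : En n → ℂ) (x : En n) (κ : Fin n → ℤ) : ℂ :=
  Fi ((cu κ).indicator G) x

lemma cu_fin {n : ℕ} (κ : Fin n → ℤ) : volume (cu κ) < ⊤ :=
  (cu_vol κ).trans_lt ENNReal.ofReal_lt_top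

lemma fc_cont {n : ℕ} {G : En n → ℂ} (hG : MemLp G 2) (κ : Fin n → ℤ) :
    Continuous (fun x => fc G x κ) :=
  Fi_cont (piece_int hG (cu_meas κ) (cu_fin κ))

/-- the martingale part -/
noncomputable def Mk {n : ℕ} (ε : (Fin n → ℤ) → Ω → ℝ) (G : En n → ℂ) (k : ℕ) (z : Ω × En n) : ℂ :=
  pX ε (fc G z.2) (Dk n k) z.1

/-- the shell containing the outer parts of the cubes crossing the sphere of radius `k` -/
def cross (n k : ℕ) : Set (En n) := shell n k (k + (n + 1 : ℕ) : ℝ)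

lemma cross_part {n k : ℕ} (hn : 1 ≤ n) {κ : Fin n → ℤ} (hκ : κ ∈ Dk n k) {ξ : En n}
    (hξ : ξ ∈ cu κ) : ‖ξ‖ < (k + (n + 1 : ℕ) : ℝ) := by
  obtain ⟨η, h1, h2⟩ := mem_Dk.1 hκ
  have h3 := cu_diam hξ h2
  have hn' : (1 : ℝ) ≤ n := by exact_mod_cast hn
  have h4 : ‖ξ - η‖ ≤ n := by
    refine abs_le_of_sq_le_sq' ?_ (by positivity) |>.2
    nlinarith
  have h5 : ‖ξ‖ ≤ ‖η‖ + ‖ξ - η‖ := by
    calc ‖ξ‖ = ‖η + (ξ - η)‖ := by congr 1; abel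
      _ ≤ _ := norm_add_le _ _
  have h6 : ‖η‖ < k := h1.2
  push_cast
  linarith

lemma Mk_sub {P : Measure Ω} {m : ℕ} {ε : (Fin (m + 1) → ℤ) → Ω → ℝ} (hε : Noise P ε)
    {G : En (m + 1) → ℂ} (hG : MemLp G 2) (k : ℕ) (ω : Ω) (x : En (m + 1)) :
    Mk ε G k (ω, x) - Sw ε G ω x k = pX ε (pc G (cross (m + 1) k) x) (Dk (m + 1) k) ω := by
  have h1 : Sw ε G ω x k = pX ε (pc G (shell (m + 1) 0 k) x) (Dk (m + 1) k) ω := by
    rw [Sw_eq hε hG ω x (Nat.cast_nonneg k) (le_refl (k : ℝ)), pX, pX]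
    refine (Finset.sum_subset (Dk_sub _ _) fun κ _ hκ => ?_).symm
    have h2 : shell (m + 1) 0 k ∩ cu κ = ∅ := by
      rw [← Set.not_nonempty_iff_eq_empty]
      intro h; exact hκ (mem_Dk.2 h)
    rw [pc, h2, Fi]; simp
  rw [h1, Mk, pX, pX, pX, ← Finset.sum_sub_distrib]
  refine Finset.sum_congr rfl fun κ hκ => ?_
  rw [← mul_sub]
  congr 1
  simp only [fc, pc]
  have hk : ∀ T : Set (En (m + 1)), volume (T ∩ cu κ) < ⊤ := fun T =>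
    (measure_mono inter_subset_right).trans_lt (cu_fin κ)
  rw [Fi, Fi, Fi, ← integral_sub (ek_int (piece_int hG (cu_meas κ) (cu_fin κ)) x)
    (ek_int (piece_int hG ((shell_meas _ _ _).inter (cu_meas κ)) (hk _)) x)]
  refine integral_congr_ae (Eventually.of_forall fun ξ => ?_)
  simp only
  by_cases hξ : ξ ∈ cu κ
  · by_cases hlt : ‖ξ‖ < k
    · rw [indicator_of_mem hξ, indicator_of_mem (show ξ ∈ shell (m + 1) 0 k ∩ cu κ from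
        ⟨⟨norm_nonneg _, hlt⟩, hξ⟩), indicator_of_notMem (fun h' => absurd h'.1.1 (not_le.2 hlt))]
      simp
    · rw [indicator_of_mem hξ, indicator_of_notMem (show ξ ∉ shell (m + 1) 0 k ∩ cu κ from
        fun h' => hlt h'.1.2), indicator_of_mem (show ξ ∈ cross (m + 1) k ∩ cu κ from
        ⟨⟨not_lt.1 hlt, cross_part (by omega) hκ hξ⟩, hξ⟩)]
      simp
  · rw [indicator_of_notMem hξ, indicator_of_notMem (fun h' => hξ h'.2),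
      indicator_of_notMem (fun h' => hξ h'.2)]
    simp

/-- majorant for the difference at integer radii -/
noncomputable def Tc {n : ℕ} (p : ℝ) (ε : (Fin n → ℤ) → Ω → ℝ) (G : En n → ℂ) (z : Ω × En n) :
    ℝ≥0∞ := ∑' k : ℕ, ‖Mk ε G k z - Sw ε G z.1 z.2 k‖ₑ ^ p

lemma Mk_meas {P : Measure Ω} {m : ℕ} {ε : (Fin (m + 1) → ℤ) → Ω → ℝ} (hε : Noise P ε)
    {G : En (m + 1) → ℂ} (hG : MemLp G 2) (k : ℕ) : Measurable (Mk ε G k) :=
  pX_joint hε (fun κ => fc_cont hG κ) _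

lemma Tc_meas {P : Measure Ω} {m : ℕ} {ε : (Fin (m + 1) → ℤ) → Ω → ℝ} (hε : Noise P ε)
    {G : En (m + 1) → ℂ} (hG : MemLp G 2) (p : ℝ) : Measurable (Tc p ε G) := by
  unfold Tc
  exact Measurable.tsum fun k => ((Mk_meas hε hG k).sub (Sw_meas hε hG _)).enorm.pow_const p

lemma cross_sum {m : ℕ} (G : En (m + 1) → ℂ) :
    ∑' k : ℕ, ∫⁻ ξ in cross (m + 1) k, ‖G ξ‖ₑ ^ 2 ≤ (m + 2 : ℕ) * ∫⁻ ξ, ‖G ξ‖ₑ ^ 2 := by
  have h1 : ∀ k : ℕ, ∫⁻ ξ in cross (m + 1) k, ‖G ξ‖ₑ ^ 2 ≤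
      ∑ l ∈ Finset.range (m + 2), ∫⁻ ξ in shell (m + 1) ((k + l : ℕ) : ℝ) ((k + l + 1 : ℕ) : ℝ),
        ‖G ξ‖ₑ ^ 2 := by
    intro k
    have h2 : cross (m + 1) k ⊆ ⋃ l ∈ Finset.range (m + 2),
        shell (m + 1) ((k + l : ℕ) : ℝ) ((k + l + 1 : ℕ) : ℝ) := by
      rintro ξ ⟨h3, h4⟩
      have h5 : k ≤ ⌊‖ξ‖⌋₊ := Nat.le_floor h3
      have h6 : ⌊‖ξ‖⌋₊ < k + (m + 2) := by
        rw [Nat.floor_lt (norm_nonneg _)]
        push_cast at h4 ⊢; linarith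
      refine mem_iUnion₂.2 ⟨⌊‖ξ‖⌋₊ - k, Finset.mem_range.2 (by omega), ?_⟩
      rw [show k + (⌊‖ξ‖⌋₊ - k) = ⌊‖ξ‖⌋₊ by omega]
      exact ⟨Nat.floor_le (norm_nonneg _), by push_cast; exact Nat.lt_floor_add_one _⟩
    refine (lintegral_mono_set h2).trans ?_
    have h7 : ∀ F : Finset ℕ, ∫⁻ ξ in ⋃ l ∈ F,
        shell (m + 1) ((k + l : ℕ) : ℝ) ((k + l + 1 : ℕ) : ℝ), ‖G ξ‖ₑ ^ 2 ≤
        ∑ l ∈ F, ∫⁻ ξ in shell (m + 1) ((k + l : ℕ) : ℝ) ((k + l + 1 : ℕ) : ℝ), ‖G ξ‖ₑ ^ 2 := by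
      intro F
      classical
      induction F using Finset.induction_on with
      | empty => simp
      | insert a F ha ih =>
        rw [Finset.set_biUnion_insert, Finset.sum_insert ha]
        exact (lintegral_union_le _ _ _).trans (add_le_add le_rfl ih)
    exact h7 _
  refine (ENNReal.tsum_le_tsum h1).trans ?_
  rw [Summable.tsum_finsetSum fun i _ => ENNReal.summable]
  have h3 : ∀ l ∈ Finset.range (m + 2), ∑' k : ℕ,
      ∫⁻ ξ in shell (m + 1) ((k + l : ℕ) : ℝ) ((k + l + 1 : ℕ) : ℝ), ‖G ξ‖ₑ ^ 2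
      ≤ ∫⁻ ξ, ‖G ξ‖ₑ ^ 2 := by
    intro l _
    rw [← lintegral_iUnion (fun i => shell_meas _ _ _)]
    · exact setLIntegral_le_lintegral _ _
    · intro a b hab
      rw [Function.onFun, Set.disjoint_left]
      rintro ξ ⟨h1, h2⟩ ⟨h3, h4⟩
      have h5 : ((a + l : ℕ) : ℝ) < ((b + l + 1 : ℕ) : ℝ) := by linarith
      have h6 : ((b + l : ℕ) : ℝ) < ((a + l + 1 : ℕ) : ℝ) := by linarith
      have h5' : a + l < b + l + 1 := by exact_mod_cast h5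
      have h6' : b + l < a + l + 1 := by exact_mod_cast h6
      exact hab (by omega)
  refine (Finset.sum_le_sum h3).trans (le_of_eq ?_)
  rw [Finset.sum_const, Finset.card_range, nsmul_eq_mul]

/-- constant for the crossing part -/
noncomputable def C1 (m : ℕ) (p : ℝ) : ℝ≥0∞ :=
  3 * ENNReal.ofReal (rexp (π * (m + 1 : ℕ))) ^ (p / 2 - 1) * (m + 2 : ℕ)

lemma C1_lt (m : ℕ) {p : ℝ} (hp : 2 < p) : C1 m p < ⊤ := by
  unfold C1
  refine ENNReal.mul_lt_top (ENNReal.mul_lt_top (by simp) ?_) (by simp)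
  exact ENNReal.rpow_lt_top_of_nonneg (by linarith) ENNReal.ofReal_ne_top

theorem Tc_int {P : Measure Ω} [IsProbabilityMeasure P] {m : ℕ} {ε : (Fin (m + 1) → ℤ) → Ω → ℝ}
    (hε : Noise P ε) {G : En (m + 1) → ℂ} (hG : MemLp G 2) {p : ℝ} (hp2 : 2 < p) (hp4 : p ≤ 4) :
    ∫⁻ z, Tc p ε G z ∂(P.prod volume) ≤ C1 m p * (∫⁻ ξ, ‖G ξ‖ₑ ^ 2) ^ (p / 2) := by
  have hβ : 0 ≤ p / 2 - 1 := by linarith
  set μG := ∫⁻ ξ, ‖G ξ‖ₑ ^ 2 with hμ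
  unfold Tc
  have hms : ∀ k : ℕ, Measurable (fun z : Ω × En (m + 1) =>
      ‖Mk ε G k z - Sw ε G z.1 z.2 k‖ₑ ^ p) := fun k =>
    ((Mk_meas hε hG k).sub (Sw_meas hε hG _)).enorm.pow_const p
  rw [lintegral_tsum fun k => (hms k).aemeasurable]
  have hμp : μG ^ (p / 2) = μG ^ (p / 2 - 1) * μG := by
    have : p / 2 = (p / 2 - 1) + 1 := by ring
    conv_lhs => rw [this, ENNReal.rpow_add_of_nonneg _ _ hβ zero_le_one, ENNReal.rpow_one]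
  set E0 := ENNReal.ofReal (rexp (π * (m + 1 : ℕ))) with hE0
  have h1 : ∀ k : ℕ, ∫⁻ z, ‖Mk ε G k z - Sw ε G z.1 z.2 k‖ₑ ^ p ∂(P.prod volume) ≤
      3 * (E0 ^ (p / 2 - 1) * μG ^ (p / 2 - 1)) * ∫⁻ ξ in cross (m + 1) k, ‖G ξ‖ₑ ^ 2 := by
    intro k
    rw [lintegral_prod_symm' _ (hms k)]
    simp only [Mk_sub hε hG k]
    have hV : ∀ κ, volume (cross (m + 1) k ∩ cu κ) ≤ E0 := fun κ =>
      (measure_mono inter_subset_right).trans (cu_vol κ)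
    refine (piece_mom hε hG (shell_meas _ _ _) _ hV hp2 hp4).trans ?_
    rw [← mul_assoc, ← ENNReal.mul_rpow_of_nonneg _ _ hβ]
    refine mul_le_mul_left (mul_le_mul_right (ENNReal.rpow_le_rpow (mul_le_mul_right ?_ _) hβ) _) _
    exact setLIntegral_le_lintegral _ _
  refine (ENNReal.tsum_le_tsum h1).trans ?_
  rw [ENNReal.tsum_mul_left]
  refine (mul_le_mul_right (cross_sum G) _).trans (le_of_eq ?_)
  rw [C1, hμp, ← hμ, ← hE0]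
  ring

/-- the square integrable majorant -/
noncomputable def MM {n : ℕ} (ε : (Fin n → ℤ) → Ω → ℝ) (G : En n → ℂ) (z : Ω × En n) : ℝ≥0∞ :=
  (⨆ k, ‖Mk ε G k z‖ₑ ^ 2) ^ (1 / 2 : ℝ)

omit [MeasurableSpace Ω] in
lemma MM_sq {n : ℕ} (ε : (Fin n → ℤ) → Ω → ℝ) (G : En n → ℂ) (z : Ω × En n) :
    MM ε G z ^ 2 = ⨆ k, ‖Mk ε G k z‖ₑ ^ 2 := by
  rw [MM, ← ENNReal.rpow_natCast, ← ENNReal.rpow_mul]; norm_num

omit [MeasurableSpace Ω] in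
lemma le_MM {n : ℕ} (ε : (Fin n → ℤ) → Ω → ℝ) (G : En n → ℂ) (z : Ω × En n) (k : ℕ) :
    ‖Mk ε G k z‖ₑ ≤ MM ε G z := by
  refine (ENNReal.pow_le_pow_left_iff two_ne_zero).1 ?_
  rw [MM_sq]
  exact le_iSup (fun k => ‖Mk ε G k z‖ₑ ^ 2) k

lemma MM_meas {P : Measure Ω} {m : ℕ} {ε : (Fin (m + 1) → ℤ) → Ω → ℝ} (hε : Noise P ε)
    {G : En (m + 1) → ℂ} (hG : MemLp G 2) : Measurable (MM ε G) := by
  unfold MM
  exact (Measurable.iSup fun k => (Mk_meas hε hG k).enorm.pow_const 2).pow_const _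

theorem MM_int {P : Measure Ω} [IsProbabilityMeasure P] {m : ℕ} {ε : (Fin (m + 1) → ℤ) → Ω → ℝ}
    (hε : Noise P ε) {G : En (m + 1) → ℂ} (hG : MemLp G 2) :
    ∫⁻ z, MM ε G z ^ 2 ∂(P.prod volume) ≤ 4 * ∫⁻ ξ, ‖G ξ‖ₑ ^ 2 := by
  simp only [MM_sq]
  rw [lintegral_prod_symm' _ (Measurable.iSup fun k => (Mk_meas hε hG k).enorm.pow_const 2)]
  have h1 : ∀ x, ∫⁻ ω, ⨆ k, ‖Mk ε G k (ω, x)‖ₑ ^ 2 ∂P ≤ 4 * ∑' κ, ‖fc G x κ‖ₑ ^ 2 := fun x =>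
    doob hε (fc G x) (Dk_mono (m + 1))
  refine (lintegral_mono h1).trans ?_
  rw [lintegral_const_mul' _ _ (by simp), lintegral_tsum fun κ =>
    ((fc_cont hG κ).measurable.enorm.pow_const 2).aemeasurable]
  refine mul_le_mul_right ?_ _
  refine (ENNReal.tsum_le_tsum fun κ => piece_l2 hG (cu_meas κ) (cu_fin κ)).trans ?_
  refine ENNReal.summable.tsum_le_of_sum_le fun F => ?_
  have := sum_cu_le G MeasurableSet.univ F
  simpa using this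

/-- the `L^p` majorant -/
noncomputable def NN {n : ℕ} (p : ℝ) (ε : (Fin n → ℤ) → Ω → ℝ) (G : En n → ℂ) (z : Ω × En n) :
    ℝ≥0∞ := Tc p ε G z ^ (1 / p) + Nc p (rr p) ε G z ^ (1 / p)

lemma NN_meas {P : Measure Ω} {m : ℕ} {ε : (Fin (m + 1) → ℤ) → Ω → ℝ} (hε : Noise P ε)
    {G : En (m + 1) → ℂ} (hG : MemLp G 2) (p : ℝ) : Measurable (NN p ε G) :=
  ((Tc_meas hε hG p).pow_const _).add ((Nc_meas hε hG p _).pow_const _)

theorem NN_int {P : Measure Ω} [IsProbabilityMeasure P] {m : ℕ} {ε : (Fin (m + 1) → ℤ) → Ω → ℝ}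
    (hε : Noise P ε) {G : En (m + 1) → ℂ} (hG : MemLp G 2) {p : ℝ} (hp2 : 2 < p) (hp4 : p ≤ 4) :
    ∫⁻ z, NN p ε G z ^ p ∂(P.prod volume) ≤
      (2 ^ (p - 1) * (C1 m p + C2 m p)) * (∫⁻ ξ, ‖G ξ‖ₑ ^ 2) ^ (p / 2) := by
  have hp0 : p ≠ 0 := by linarith
  have h1 : ∀ z, NN p ε G z ^ p ≤ 2 ^ (p - 1) * (Tc p ε G z + Nc p (rr p) ε G z) := by
    intro z
    refine (ENNReal.rpow_add_le_mul_rpow_add_rpow _ _ (by linarith)).trans (le_of_eq ?_)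
    rw [← ENNReal.rpow_mul, ← ENNReal.rpow_mul, one_div_mul_cancel hp0, ENNReal.rpow_one,
      ENNReal.rpow_one]
  refine (lintegral_mono h1).trans ?_
  have hms : Measurable (fun z => Tc p ε G z + Nc p (rr p) ε G z) :=
    (Tc_meas hε hG p).add (Nc_meas hε hG p _)
  rw [lintegral_const_mul _ hms, lintegral_add_left (Tc_meas hε hG p), mul_assoc, add_mul]
  exact mul_le_mul_right (add_le_add (Tc_int hε hG hp2 hp4) (Nc_int hε hG hp2 hp4)) _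

lemma le_root {a b : ℝ≥0∞} {p : ℝ} (hp : 0 < p) (h : a ^ p ≤ b) : a ≤ b ^ (1 / p) := by
  have h1 := ENNReal.rpow_le_rpow h (show 0 ≤ 1 / p by positivity)
  rwa [← ENNReal.rpow_mul, mul_one_div_cancel hp.ne', ENNReal.rpow_one] at h1

/-- **the pointwise bound** -/
theorem Sw_le {P : Measure Ω} {m : ℕ} {ε : (Fin (m + 1) → ℤ) → Ω → ℝ} (hε : Noise P ε)
    {G : En (m + 1) → ℂ} (hG : MemLp G 2) {p : ℝ} (hp2 : 2 < p) (z : Ω × En (m + 1)) (R : ℝ) :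
    ‖Sw ε G z.1 z.2 R‖ₑ ≤ MM ε G z + NN p ε G z := by
  have hp0 : 0 < p := by linarith
  rcases lt_or_ge R 0 with hR | hR
  · rw [Sw, ps_neg _ hR]; simp
  have hcont : Continuous (Sw ε G z.1 z.2) :=
    ps_cont_R (cG_memLp (fun κ => hε.bdd κ z.1) hG) z.2
  have h1 := chain (p := p) (by linarith) (rr_ne hp2) ((rr_lt hp2).trans (by simp)).ne hcont hR
  have h2 : ‖Mk ε G ⌊R⌋₊ z - Sw ε G z.1 z.2 ((⌊R⌋₊ : ℕ) : ℝ)‖ₑ ^ p ≤ Tc p ε G z :=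
    ENNReal.le_tsum (f := fun k : ℕ => ‖Mk ε G k z - Sw ε G z.1 z.2 k‖ₑ ^ p) ⌊R⌋₊
  have h1' : ‖Sw ε G z.1 z.2 R - Sw ε G z.1 z.2 ((⌊R⌋₊ : ℕ) : ℝ)‖ₑ ≤
      Nc p (rr p) ε G z ^ (1 / p) := le_root hp0 h1
  have h2' := le_root hp0 h2
  have hdec : Sw ε G z.1 z.2 R = Mk ε G ⌊R⌋₊ z - (Mk ε G ⌊R⌋₊ z - Sw ε G z.1 z.2 ((⌊R⌋₊ : ℕ) : ℝ))
      + (Sw ε G z.1 z.2 R - Sw ε G z.1 z.2 ((⌊R⌋₊ : ℕ) : ℝ)) := by ring
  calc ‖Sw ε G z.1 z.2 R‖ₑ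
      ≤ (‖Mk ε G ⌊R⌋₊ z‖ₑ + ‖Mk ε G ⌊R⌋₊ z - Sw ε G z.1 z.2 ((⌊R⌋₊ : ℕ) : ℝ)‖ₑ) +
        ‖Sw ε G z.1 z.2 R - Sw ε G z.1 z.2 ((⌊R⌋₊ : ℕ) : ℝ)‖ₑ := by
        conv_lhs => rw [hdec]
        exact (enorm_add_le _ _).trans (add_le_add (enorm_sub_le) le_rfl)
    _ ≤ (MM ε G z + Tc p ε G z ^ (1 / p)) + Nc p (rr p) ε G z ^ (1 / p) :=
        add_le_add (add_le_add (le_MM ε G z _) h2') h1'
    _ = _ := by rw [NN, add_assoc]

lemma cG_tail {n : ℕ} (e : (Fin n → ℤ) → ℝ) (c : ℝ) (G : En n → ℂ) :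
    cG e (tail c G) = tail c (cG e G) := by
  ext ξ
  by_cases h1 : ξ ∈ {ξ : En n | c ≤ ‖ξ‖}
  · simp only [cG, tail, indicator_of_mem h1]
  · simp only [cG, tail, indicator_of_notMem h1, mul_zero]

/-- almost sure convergence -/
theorem cube_conv {P : Measure Ω} [IsProbabilityMeasure P] {m : ℕ}
    {ε : (Fin (m + 1) → ℤ) → Ω → ℝ} (hε : Noise P ε) {G : En (m + 1) → ℂ} (hG : MemLp G 2) :
    ∀ᵐ ω ∂P, ∀ᵐ x : En (m + 1), ∃ L : ℂ,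
      Tendsto (fun R : ℝ => ps (cG (fun κ => ε κ ω) G) R x) atTop (𝓝 L) := by
  set H : ℕ → Ω × En (m + 1) → ℝ≥0∞ := fun k z =>
    MM ε (tail (k : ℝ) G) z ^ 2 + NN 4 ε (tail (k : ℝ) G) z ^ (4 : ℝ) with hH
  have hHm : ∀ k, Measurable (H k) := fun k =>
    ((MM_meas hε (tail_memLp _ hG)).pow_const 2).add ((NN_meas hε (tail_memLp _ hG) 4).pow_const _)
  set C : ℝ≥0∞ := (2 ^ ((4 : ℝ) - 1) * (C1 m 4 + C2 m 4)) with hC
  have hCt : C ≠ ⊤ := by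
    refine ENNReal.mul_ne_top (ENNReal.rpow_ne_top_of_nonneg (by norm_num) (by simp)) ?_
    exact (ENNReal.add_lt_top.2 ⟨C1_lt m (by norm_num), C2_lt m (by norm_num)⟩).ne
  have hb : ∀ k, ∫⁻ z, H k z ∂(P.prod volume) ≤ 4 * (∫⁻ ξ, ‖tail (k : ℝ) G ξ‖ₑ ^ 2) +
      C * (∫⁻ ξ, ‖tail (k : ℝ) G ξ‖ₑ ^ 2) ^ ((4 : ℝ) / 2) := by
    intro k
    rw [hH]
    simp only
    rw [lintegral_add_left ((MM_meas hε (tail_memLp _ hG)).pow_const 2)]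
    exact add_le_add (MM_int hε (tail_memLp _ hG))
      (NN_int hε (tail_memLp _ hG) (by norm_num) (by norm_num))
  have hlim : Tendsto (fun k : ℕ => 4 * (∫⁻ ξ, ‖tail (k : ℝ) G ξ‖ₑ ^ 2) +
      C * (∫⁻ ξ, ‖tail (k : ℝ) G ξ‖ₑ ^ 2) ^ ((4 : ℝ) / 2)) atTop (𝓝 0) := by
    have h0 := tail_tendsto hG tendsto_natCast_atTop_atTop
    have h1 := ENNReal.Tendsto.const_mul (a := 4) h0 (Or.inr (by simp))
    have h2 := ENNReal.Tendsto.const_mul (a := C)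
      ((ENNReal.continuous_rpow_const (y := (4 : ℝ) / 2)).tendsto 0 |>.comp h0) (Or.inr hCt)
    rw [ENNReal.zero_rpow_of_pos (by norm_num), mul_zero] at h2
    rw [mul_zero] at h1
    simpa using h1.add h2
  have hz : ∫⁻ z, ⨅ k, H k z ∂(P.prod volume) = 0 :=
    le_antisymm (ge_of_tendsto' hlim fun k =>
      (lintegral_mono fun z => iInf_le _ k).trans (hb k)) zero_le
  rw [lintegral_eq_zero_iff (Measurable.iInf hHm)] at hz
  have h3 := Measure.ae_ae_of_ae_prod hz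
  filter_upwards [h3] with ω hω
  filter_upwards [hω] with x hx
  simp only [Pi.zero_apply, hH] at hx
  refine conv_of_small fun δ hδ => ?_
  set d : ℝ≥0∞ := ENNReal.ofReal (δ / 2) with hd
  have hd0 : 0 < d := by rw [hd]; simpa using hδ
  have h4 : (⨅ k : ℕ, (MM ε (tail (k : ℝ) G) (ω, x) ^ 2 +
      NN 4 ε (tail (k : ℝ) G) (ω, x) ^ (4 : ℝ))) < min (d ^ 2) (d ^ (4 : ℝ)) := by
    rw [hx]
    refine lt_min (ENNReal.pow_pos hd0 2) (ENNReal.rpow_pos hd0 ENNReal.ofReal_ne_top)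
  obtain ⟨k, hk⟩ := iInf_lt_iff.1 h4
  refine ⟨(k : ℝ), fun R hR => ?_⟩
  have h5 := Sw_le hε (tail_memLp (k : ℝ) hG) (p := 4) (by norm_num) (ω, x) R
  simp only [Sw] at h5
  rw [cG_tail, tail_ps (cG_memLp (fun κ => hε.bdd κ ω) hG) (Nat.cast_nonneg k) hR] at h5
  have h6 : MM ε (tail (k : ℝ) G) (ω, x) ≤ d := by
    refine (ENNReal.pow_le_pow_left_iff two_ne_zero).1 ?_
    exact (le_self_add.trans hk.le).trans (min_le_left _ _)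
  have h7 : NN 4 ε (tail (k : ℝ) G) (ω, x) ≤ d := by
    refine (ENNReal.rpow_le_rpow_iff (z := 4) (by norm_num)).1 ?_
    exact (le_add_self.trans hk.le).trans (min_le_right _ _)
  have h8 := h5.trans (add_le_add h6 h7)
  rw [hd, ← ENNReal.ofReal_add (by positivity) (by positivity), ← ofReal_norm,
    ENNReal.ofReal_le_ofReal_iff (by positivity)] at h8
  linarith

end Pool.Agent.Helper93.Sph
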